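import Mathlib

namespace Pool.Agent.MP_3fce03_co

/-- determinant of two plane vectors -/
def dt (u v : ℝ × ℝ) : ℝ := u.1 * v.2 - u.2 * v.1

section plk
variable (a1 a2 b1 b2 c1 c2 d1 d2 : ℝ)

lemma plk_id : (c1 * d2 - c2 * d1) * (a1 * b2 - a2 * b1) =
    (a1 * c2 - a2 * c1) * (b1 * d2 - b2 * d1) + (d1 * a2 - d2 * a1) * (b1 * c2 - b2 * c1) := by
  ring

lemma plk01 (h : 0 < a1 * b2 - a2 * b1) (h1 : 0 < a1 * c2 - a2 * c1) (h2 : 0 < b1 * d2 - b2 * d1)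
    (h3 : 0 ≤ d1 * a2 - d2 * a1) (h4 : 0 ≤ b1 * c2 - b2 * c1) : 0 < c1 * d2 - c2 * d1 := by
  have e := plk_id a1 a2 b1 b2 c1 c2 d1 d2
  have := mul_pos h1 h2
  have := mul_nonneg h3 h4
  exact (pos_iff_pos_of_mul_pos (by linarith)).2 h

lemma plk00 (h : 0 < a1 * b2 - a2 * b1) (h1 : 0 ≤ a1 * c2 - a2 * c1) (h2 : 0 ≤ b1 * d2 - b2 * d1)
    (h3 : 0 < d1 * a2 - d2 * a1) (h4 : 0 < b1 * c2 - b2 * c1) : 0 < c1 * d2 - c2 * d1 := by
  have e := plk_id a1 a2 b1 b2 c1 c2 d1 d2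
  have := mul_nonneg h1 h2
  have := mul_pos h3 h4
  exact (pos_iff_pos_of_mul_pos (by linarith)).2 h

lemma plk02 (h : 0 < a1 * b2 - a2 * b1) (h1 : 0 ≤ a1 * c2 - a2 * c1) (h2 : 0 ≤ b1 * d2 - b2 * d1)
    (h3 : 0 ≤ d1 * a2 - d2 * a1) (h4 : 0 ≤ b1 * c2 - b2 * c1) : 0 ≤ c1 * d2 - c2 * d1 := by
  have e := plk_id a1 a2 b1 b2 c1 c2 d1 d2
  have := mul_nonneg h1 h2
  have := mul_nonneg h3 h4
  exact nonneg_of_mul_nonneg_left (by linarith) h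

lemma plk11 (h : 0 < a1 * b2 - a2 * b1) (h1 : 0 < a1 * c2 - a2 * c1) (h2 : 0 < b1 * d2 - b2 * d1)
    (h3 : 0 ≤ a1 * d2 - a2 * d1) (h4 : 0 ≤ c1 * b2 - c2 * b1) : 0 < c1 * d2 - c2 * d1 := by
  have e := plk_id a1 a2 b1 b2 c1 c2 d1 d2
  have := mul_pos h1 h2
  have := mul_nonneg h3 h4
  exact (pos_iff_pos_of_mul_pos (by linarith)).2 h

lemma plk10 (h : 0 < a1 * b2 - a2 * b1) (h1 : 0 ≤ a1 * c2 - a2 * c1) (h2 : 0 ≤ b1 * d2 - b2 * d1)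
    (h3 : 0 < a1 * d2 - a2 * d1) (h4 : 0 < c1 * b2 - c2 * b1) : 0 < c1 * d2 - c2 * d1 := by
  have e := plk_id a1 a2 b1 b2 c1 c2 d1 d2
  have := mul_nonneg h1 h2
  have := mul_pos h3 h4
  exact (pos_iff_pos_of_mul_pos (by linarith)).2 h

lemma plk12 (h : 0 < a1 * b2 - a2 * b1) (h1 : 0 ≤ a1 * c2 - a2 * c1) (h2 : 0 ≤ b1 * d2 - b2 * d1)
    (h3 : 0 ≤ a1 * d2 - a2 * d1) (h4 : 0 ≤ c1 * b2 - c2 * b1) : 0 ≤ c1 * d2 - c2 * d1 := by
  have e := plk_id a1 a2 b1 b2 c1 c2 d1 d2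
  have := mul_nonneg h1 h2
  have := mul_nonneg h3 h4
  exact nonneg_of_mul_nonneg_left (by linarith) h

end plk

/-- cyclic order of three indices -/
def cyc (i j k : ℕ) : Prop := (i < j ∧ j < k) ∨ (j < k ∧ k < i) ∨ (k < i ∧ i < j)

instance (i j k : ℕ) : Decidable (cyc i j k) := by unfold cyc; infer_instance

/-- An indexed convex polygon with oriented edges (head, tail) whose sums are in convex position. -/
structure Sys (n : ℕ) where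
  a : ℕ → ℝ × ℝ
  E : Finset (ℕ × ℕ)
  τ : ℕ × ℕ → ℝ × ℝ
  lt : ∀ e ∈ E, e.1 < n ∧ e.2 < n
  ccw : ∀ i j k, i < j → j < k → k < n → 0 < dt (a j - a i) (a k - a i)
  sep : ∀ e ∈ E, ∀ f ∈ E, e ≠ f → 0 < dt (a e.1 + a e.2 - a f.1 - a f.2) (τ e)
  hd : ∀ e ∈ E, e.1 ≠ e.2 → 0 < dt (a e.1 - a e.2) (τ e)

namespace Sys
variable {n : ℕ} (S : Sys n)

lemma ccw' {i j k : ℕ} (h : cyc i j k) (hi : i < n) (hj : j < n) (hk : k < n) :
    0 < dt (S.a j - S.a i) (S.a k - S.a i) := by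
  rcases h with ⟨h1, h2⟩ | ⟨h1, h2⟩ | ⟨h1, h2⟩
  · exact S.ccw i j k h1 h2 hk
  · have := S.ccw j k i h1 h2 hi
    simp only [dt, Prod.fst_sub, Prod.snd_sub] at this ⊢
    linarith
  · have := S.ccw k i j h1 h2 hj
    simp only [dt, Prod.fst_sub, Prod.snd_sub] at this ⊢
    linarith

/-- adjacency (either orientation) -/
def adj (i j : ℕ) : Prop := (i, j) ∈ S.E ∨ (j, i) ∈ S.E

lemma adj_symm {i j : ℕ} (h : S.adj i j) : S.adj j i := h.symm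

lemma adj_lt {i j : ℕ} (h : S.adj i j) : i < n ∧ j < n := by
  rcases h with h | h
  · exact S.lt _ h
  · exact (S.lt _ h).symm

lemma sepA {h t i j : ℕ} (e : (h, t) ∈ S.E) (f : S.adj i j) (h1 : ¬ (h = i ∧ t = j))
    (h2 : ¬ (h = j ∧ t = i)) :
    0 < dt (S.a h + S.a t - S.a i - S.a j) (S.τ (h, t)) := by
  rcases f with f | f
  · exact S.sep _ e _ f (by simpa using h1)
  · have := S.sep _ e _ f (by simpa using h2)
    simp only [dt, Prod.fst_sub, Prod.snd_sub, Prod.fst_add, Prod.snd_add] at this ⊢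
    linarith

lemma hdA {h t : ℕ} (e : (h, t) ∈ S.E) (h1 : h ≠ t) :
    0 < dt (S.a h - S.a t) (S.τ (h, t)) := S.hd _ e h1

lemma not_both {i j : ℕ} (e : (i, j) ∈ S.E) (f : (j, i) ∈ S.E) : i = j := by
  by_contra hne
  have := S.sep _ e _ f (by simp; omega)
  simp only [dt, Prod.fst_sub, Prod.snd_sub, Prod.fst_add, Prod.snd_add] at this
  linarith

lemma loop_head {i j : ℕ} (e : (i, i) ∈ S.E) (f : (i, j) ∈ S.E) : j = i := by
  by_contra hne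
  have h1 := S.sep _ f _ e (by simp; omega)
  have h2 := S.hd _ f (by simp; omega)
  simp only [dt, Prod.fst_sub, Prod.snd_sub, Prod.fst_add, Prod.snd_add] at h1 h2
  linarith

end Sys

end Pool.Agent.MP_3fce03_co
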