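import Pool.Agent.MP_3fce03_co.Upper

namespace Pool.Agent.MP_3fce03_co

set_option linter.unusedVariables false
set_option linter.unusedSimpArgs false

open Filter Topology

lemma fun_of_hull (X : Finset (ℝ × ℝ)) (x : ℝ × ℝ)
    (h : x ∉ convexHull ℝ ((X : Set (ℝ × ℝ)) \ {x})) :
    ∃ τ : ℝ × ℝ, ∀ y ∈ X, y ≠ x → 0 < dt (x - y) τ := by
  have hfin : ((X : Set (ℝ × ℝ)) \ {x}).Finite := X.finite_toSet.subset Set.sdiff_subset
  obtain ⟨f, u, h1, h2⟩ := geometric_hahn_banach_point_closed (convex_convexHull ℝ _)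
    (hfin.isClosed_convexHull ℝ) h
  refine ⟨(f (0, 1), - f (1, 0)), fun y hy hne => ?_⟩
  have h3 := h2 y (subset_convexHull ℝ _ ⟨hy, hne⟩)
  have e : ∀ v : ℝ × ℝ, f v = v.1 * f (1, 0) + v.2 * f (0, 1) := by
    intro v
    have : v = v.1 • ((1, 0) : ℝ × ℝ) + v.2 • ((0, 1) : ℝ × ℝ) := by ext <;> simp
    conv_lhs => rw [this]
    rw [map_add, map_smul, map_smul, smul_eq_mul, smul_eq_mul]
  rw [e y] at h3
  rw [e x] at h1
  simp only [dt, Prod.fst_sub, Prod.snd_sub]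
  linarith

lemma hull_of_fun (X : Finset (ℝ × ℝ)) (x τ : ℝ × ℝ) (h : ∀ y ∈ X, y ≠ x → 0 < dt (x - y) τ) :
    x ∉ convexHull ℝ ((X : Set (ℝ × ℝ)) \ {x}) := by
  intro hx
  have hc : Convex ℝ {y : ℝ × ℝ | 0 < dt (x - y) τ} := by
    intro y hy z hz a b ha hb hab
    simp only [Set.mem_ofPred_eq, dt, Prod.fst_sub, Prod.snd_sub, Prod.fst_add, Prod.snd_add,
      Prod.smul_fst, Prod.smul_snd, smul_eq_mul] at *
    have e : (x.1 - (a * y.1 + b * z.1)) * τ.2 - (x.2 - (a * y.2 + b * z.2)) * τ.1 =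
        a * ((x.1 - y.1) * τ.2 - (x.2 - y.2) * τ.1) + b * ((x.1 - z.1) * τ.2 - (x.2 - z.2) * τ.1) := by
      have : b = 1 - a := by linarith
      subst this
      ring
    rw [e]
    rcases ha.lt_or_eq with ha | ha
    · have := mul_pos ha hy
      have := mul_nonneg hb hz.le
      linarith
    · have : b = 1 := by linarith
      rw [← ha, this]
      linarith
  have : 0 < dt (x - x) τ :=
    convexHull_min (s := (X : Set (ℝ × ℝ)) \ {x}) (t := {y : ℝ × ℝ | 0 < dt (x - y) τ})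
      (fun y hy => h y hy.1 hy.2) hc hx
  simp [dt] at this

lemma orient (X : Finset (ℝ × ℝ)) (x a b τ : ℝ × ℝ) (h : ∀ y ∈ X, y ≠ x → 0 < dt (x - y) τ)
    (h0 : 0 ≤ dt (a - b) τ) :
    ∃ σ : ℝ × ℝ, (∀ y ∈ X, y ≠ x → 0 < dt (x - y) σ) ∧ (a ≠ b → 0 < dt (a - b) σ) := by
  set w : ℝ × ℝ := (-(a - b).2, (a - b).1) with hw
  have ev : ∀ᶠ ε in 𝓝 (0 : ℝ), ∀ y ∈ X, y ≠ x → 0 < dt (x - y) (τ + ε • w) := by
    rw [Filter.eventually_all_finset]
    intro y hy
    by_cases hne : y = x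
    · exact Filter.Eventually.of_forall (fun _ g => absurd hne g)
    · have hc : Continuous (fun ε : ℝ => dt (x - y) (τ + ε • w)) := by
        unfold dt
        fun_prop
      have : ∀ᶠ ε in 𝓝 (0 : ℝ), 0 < dt (x - y) (τ + ε • w) :=
        continuousAt_const.eventually_lt hc.continuousAt (by simpa using h y hy hne)
      exact this.mono (fun _ g _ => g)
  obtain ⟨ε, h1, h2⟩ := ((ev.filter_mono (nhdsWithin_le_nhds (s := Set.Ioi 0))).and
    self_mem_nhdsWithin).exists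
  refine ⟨τ + ε • w, h1, fun hne => ?_⟩
  have hpos : 0 < (a.1 - b.1) ^ 2 + (a.2 - b.2) ^ 2 := by
    by_contra hh
    apply hne
    have e1 : a.1 - b.1 = 0 := by nlinarith [sq_nonneg (a.1 - b.1), sq_nonneg (a.2 - b.2)]
    have e2 : a.2 - b.2 = 0 := by nlinarith [sq_nonneg (a.1 - b.1), sq_nonneg (a.2 - b.2)]
    ext <;> linarith
  have h3 := mul_pos (show (0 : ℝ) < ε from h2) hpos
  simp only [hw, dt, Prod.fst_sub, Prod.snd_sub, Prod.fst_add, Prod.snd_add,
      Prod.smul_fst, Prod.smul_snd, smul_eq_mul] at *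
  linarith

lemma enum (A : Finset (ℝ × ℝ)) (hA : ∀ p ∈ A, ∃ σ : ℝ × ℝ, ∀ q ∈ A, q ≠ p → 0 < dt (p - q) σ)
    (s : ℝ × ℝ) (hs : s ∈ A) :
    ∃ a : ℕ → ℝ × ℝ, (∀ i, i < A.card → a i = s → i = 0) ∧ (∀ p ∈ A, ∃ i, i < A.card ∧ a i = p) ∧
      ∀ i j k, i < j → j < k → k < A.card → 0 < dt (a j - a i) (a k - a i) := by
  classical
  obtain ⟨σ, hσ⟩ := hA s hs
  let α : ℝ × ℝ → ℝ := fun p => dt (s - p) σ
  let β : ℝ × ℝ → ℝ := fun p => (p.1 - s.1) * σ.1 + (p.2 - s.2) * σ.2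
  let key : ℝ × ℝ → ℝ := fun p => - β p / α p
  have idn : ∀ p q : ℝ × ℝ, dt (p - s) (q - s) * (σ.1 ^ 2 + σ.2 ^ 2) = β p * α q - α p * β q := by
    intro p q
    simp only [α, β, dt, Prod.fst_sub, Prod.snd_sub]
    ring
  have klt : ∀ p ∈ A.erase s, ∀ q ∈ A.erase s, key p < key q → 0 < dt (p - s) (q - s) := by
    intro p hp q hq h
    rw [Finset.mem_erase] at hp hq
    have a1 : 0 < α p := hσ p hp.2 hp.1
    have a2 : 0 < α q := hσ q hq.2 hq.1
    simp only [key] at h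
    rw [div_lt_div_iff₀ a1 a2] at h
    have e := idn p q
    by_contra hh
    have := mul_nonpos_of_nonpos_of_nonneg (not_lt.1 hh)
      (show 0 ≤ σ.1 ^ 2 + σ.2 ^ 2 by positivity)
    linarith
  have aux : ∀ p ∈ A.erase s, ∀ q ∈ A.erase s, p ≠ q → dt (p - s) (q - s) = 0 → α p ≤ α q →
      False := by
    intro p hp q hq hne h0 hle
    rw [Finset.mem_erase] at hp hq
    have a1 : 0 < α p := hσ p hp.2 hp.1
    have a2 : 0 < α q := hσ q hq.2 hq.1
    obtain ⟨ρ, hρ⟩ := hA p hp.2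
    have b1 := hρ s hs hp.1.symm
    have b2 := hρ q hq.2 hne.symm
    have e : α q * dt (p - s) ρ = α p * (dt (p - s) ρ - dt (p - q) ρ) +
        dt (p - s) (q - s) * dt σ ρ := by
      simp only [α, dt, Prod.fst_sub, Prod.snd_sub]
      ring
    rw [h0] at e
    have := mul_pos a1 b2
    have := mul_le_mul_of_nonneg_right hle b1.le
    linarith
  have kinj : Set.InjOn key (A.erase s) := by
    intro p hp q hq h
    by_contra hne
    have hp' : p ∈ A.erase s := hp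
    have hq' : q ∈ A.erase s := hq
    have hp2 := Finset.mem_erase.1 hp'
    have hq2 := Finset.mem_erase.1 hq'
    have a1 : 0 < α p := hσ p hp2.2 hp2.1
    have a2 : 0 < α q := hσ q hq2.2 hq2.1
    simp only [key] at h
    rw [div_eq_div_iff a1.ne' a2.ne'] at h
    have e := idn p q
    have hσ0 : 0 < σ.1 ^ 2 + σ.2 ^ 2 := by
      by_contra hh
      have e1 : σ.1 = 0 := by nlinarith [sq_nonneg σ.1, sq_nonneg σ.2]
      have e2 : σ.2 = 0 := by nlinarith [sq_nonneg σ.1, sq_nonneg σ.2]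
      simp [α, dt, e1, e2] at a1
    have h0 : dt (p - s) (q - s) = 0 := by
      have : dt (p - s) (q - s) * (σ.1 ^ 2 + σ.2 ^ 2) = 0 := by linarith
      exact (mul_eq_zero.1 this).resolve_right hσ0.ne'
    rcases le_total (α p) (α q) with g | g
    · exact aux p hp' q hq' hne h0 g
    · refine aux q hq' p hp' (Ne.symm hne) ?_ g
      simp only [dt, Prod.fst_sub, Prod.snd_sub] at h0 ⊢
      linarith
  have cK : ((A.erase s).image key).card = A.card - 1 := by
    rw [Finset.card_image_of_injOn kinj, Finset.card_erase_of_mem hs]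
  let g := ((A.erase s).image key).orderEmbOfFin cK
  have hg : ∀ i : Fin (A.card - 1), ∃ p ∈ A.erase s, key p = g i := fun i =>
    Finset.mem_image.1 (Finset.orderEmbOfFin_mem _ cK i)
  choose c hc1 hc2 using hg
  let a : ℕ → ℝ × ℝ := fun i => if h : 0 < i ∧ i - 1 < A.card - 1 then c ⟨i - 1, h.2⟩ else s
  have a0 : a 0 = s := by simp [a]
  have am : ∀ i, 0 < i → i < A.card → a i ∈ A.erase s := by
    intro i h1 h2
    simp only [a, dif_pos (show 0 < i ∧ i - 1 < A.card - 1 from ⟨h1, by omega⟩)]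
    exact hc1 _
  have ak : ∀ i j, 0 < i → i < j → j < A.card → 0 < dt (a i - s) (a j - s) := by
    intro i j h1 h2 h3
    refine klt _ (am i h1 (by omega)) _ (am j (by omega) h3) ?_
    simp only [a, dif_pos (show 0 < i ∧ i - 1 < A.card - 1 from ⟨h1, by omega⟩),
      dif_pos (show 0 < j ∧ j - 1 < A.card - 1 from ⟨by omega, by omega⟩), hc2]
    exact g.strictMono (by simp only [Fin.mk_lt_mk]; omega)
  refine ⟨a, ?_, ?_, ?_⟩
  · intro i hi h
    by_contra h0
    exact (Finset.mem_erase.1 (am i (by omega) hi)).1 h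
  · intro p hp
    by_cases hps : p = s
    · exact ⟨0, Finset.card_pos.2 ⟨s, hs⟩, by rw [a0, hps]⟩
    · have hp' : p ∈ A.erase s := Finset.mem_erase.2 ⟨hps, hp⟩
      have : key p ∈ Set.range g := by
        rw [Finset.range_orderEmbOfFin]
        exact Finset.mem_coe.2 (Finset.mem_image_of_mem key hp')
      obtain ⟨i, hi⟩ := this
      have hi2 := i.2
      refine ⟨i + 1, by omega, ?_⟩
      simp only [a, dif_pos (show 0 < (i : ℕ) + 1 ∧ (i : ℕ) + 1 - 1 < A.card - 1 from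
        ⟨by omega, by omega⟩)]
      refine kinj (hc1 _) hp' ?_
      rw [hc2, ← hi]
      rfl
  · intro i j k hij hjk hk
    rcases Nat.eq_zero_or_pos i with h0 | h0
    · rw [h0, a0]
      exact ak j k (by omega) hjk hk
    have d1 := ak i j h0 hij (by omega)
    have d2 := ak j k (by omega) hjk hk
    have d3 := ak i k h0 (by omega) hk
    have mi := Finset.mem_erase.1 (am i h0 (by omega))
    have mj := Finset.mem_erase.1 (am j (by omega) (by omega))
    have mk := Finset.mem_erase.1 (am k (by omega) hk)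
    obtain ⟨ρ, hρ⟩ := hA (a j) mj.2
    have b1 := hρ s hs mj.1.symm
    have b2 := hρ (a i) mi.2 (by
      intro h
      rw [h] at d1
      simp only [dt] at d1
      linarith)
    have b3 := hρ (a k) mk.2 (by
      intro h
      rw [h] at d2
      simp only [dt] at d2
      linarith)
    have e : dt (a j - a i) (a k - a i) * dt (a j - s) ρ =
        dt (a j - s) (a k - s) * dt (a j - a i) ρ + dt (a i - s) (a j - s) * dt (a j - a k) ρ := by
      simp only [dt, Prod.fst_sub, Prod.snd_sub]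
      ring
    have := mul_pos d2 b2
    have := mul_pos d1 b3
    exact (pos_iff_pos_of_mul_pos (by linarith)).2 b1

lemma toSys (A X : Finset (ℝ × ℝ)) (hne : A.Nonempty)
    (hA : ∀ x ∈ A, x ∉ convexHull ℝ ((A : Set (ℝ × ℝ)) \ {x}))
    (hXA : ∀ x ∈ X, ∃ a ∈ A, ∃ b ∈ A, x = a + b)
    (hX : ∀ x ∈ X, x ∉ convexHull ℝ ((X : Set (ℝ × ℝ)) \ {x})) :
    ∃ S : Sys A.card, S.E.card = X.card ∧ ((∃ s, (s, s) ∈ S.E) → (0, 0) ∈ S.E) := by
  classical
  have rep : ∀ x ∈ X, ∃ h t σ : ℝ × ℝ, h ∈ A ∧ t ∈ A ∧ x = h + t ∧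
      (∀ y ∈ X, y ≠ x → 0 < dt (x - y) σ) ∧ (h ≠ t → 0 < dt (h - t) σ) := by
    intro x hx
    obtain ⟨a, ha, b, hb, e⟩ := hXA x hx
    obtain ⟨τ, hτ⟩ := fun_of_hull X x (hX x hx)
    rcases le_total 0 (dt (a - b) τ) with g | g
    · obtain ⟨σ, h1, h2⟩ := orient X x a b τ hτ g
      exact ⟨a, b, σ, ha, hb, e, h1, h2⟩
    · obtain ⟨σ, h1, h2⟩ := orient X x b a τ hτ (by
        simp only [dt, Prod.fst_sub, Prod.snd_sub] at g ⊢
        linarith)
      exact ⟨b, a, σ, hb, ha, by rw [e, add_comm], h1, h2⟩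
  choose! H T σ hH hT hx hsep hhd using rep
  have exs : ∃ s ∈ A, (∃ x ∈ X, H x = T x) → ∃ x ∈ X, H x = s ∧ T x = s := by
    by_cases h : ∃ x ∈ X, H x = T x
    · obtain ⟨x, h1, h2⟩ := h
      exact ⟨H x, hH x h1, fun _ => ⟨x, h1, rfl, h2.symm⟩⟩
    · obtain ⟨s, hs⟩ := hne
      exact ⟨s, hs, fun g => absurd g h⟩
  obtain ⟨s, hs, hs2⟩ := exs
  obtain ⟨a, a0, asur, accw⟩ := enum A (fun p hp => fun_of_hull A p (hA p hp)) s hs
  choose! idx hi1 hi2 using asur
  let φ : ℝ × ℝ → ℕ × ℕ := fun x => (idx (H x), idx (T x))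
  have hφ : ∀ x ∈ X, a (φ x).1 + a (φ x).2 = x := by
    intro x h
    simp only [φ]
    rw [hi2 _ (hH x h), hi2 _ (hT x h), ← hx x h]
  refine ⟨⟨a, X.image φ, fun e => σ (a e.1 + a e.2), ?_, accw, ?_, ?_⟩, ?_, ?_⟩
  · intro e he
    obtain ⟨x, h, rfl⟩ := Finset.mem_image.1 he
    exact ⟨hi1 _ (hH x h), hi1 _ (hT x h)⟩
  · intro e he f hf hne
    obtain ⟨x, h, rfl⟩ := Finset.mem_image.1 he
    obtain ⟨y, g, rfl⟩ := Finset.mem_image.1 hf
    have := hsep x h y g (by rintro rfl; exact hne rfl)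
    rw [sub_sub, hφ x h, hφ y g]
    exact this
  · intro e he hne
    obtain ⟨x, h, rfl⟩ := Finset.mem_image.1 he
    rw [hφ x h]
    simp only [φ] at hne ⊢
    rw [hi2 _ (hH x h), hi2 _ (hT x h)]
    exact hhd x h (fun g => hne (by rw [g]))
  · refine Finset.card_image_of_injOn ?_
    intro x h y g e
    rw [← hφ x h, ← hφ y g, e]
  · rintro ⟨i, hi⟩
    obtain ⟨x, h, e⟩ := Finset.mem_image.1 hi
    simp only [φ, Prod.mk.injEq] at e
    obtain ⟨y, g, e1, e2⟩ := hs2 ⟨x, h, by rw [← hi2 _ (hH x h), ← hi2 _ (hT x h), e.1, e.2]⟩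
    have i0 : idx s = 0 := a0 _ (hi1 s hs) (hi2 s hs)
    exact Finset.mem_image.2 ⟨y, g, by simp only [φ, e1, e2, i0]⟩

end Pool.Agent.MP_3fce03_co
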