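import Pool.Agent.MP_3fce03_co.Basic

namespace Pool.Agent.MP_3fce03_co

set_option linter.unusedVariables false
set_option linter.unusedSimpArgs false
set_option linter.unusedTactic false
set_option linter.style.longLine false

lemma patS6_raw (x1 y1 x2 y2 x3 y3 x4 y4 x5 y5 x6 y6 p4 q4 p5 q5 p7 q7 p8 q8 p9 q9 p10 q10 p11 q11 : ℝ)
    (F0 : 0 < x1 * y2 - y1 * x2)
    (F1 : 0 < x1 * y3 - y1 * x3)
    (F2 : 0 < x1 * y4 - y1 * x4)
    (F3 : 0 < x1 * y5 - y1 * x5)
    (F4 : 0 < x1 * y6 - y1 * x6)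
    (F5 : 0 < x2 * y3 - y2 * x3)
    (F6 : 0 < x2 * y4 - y2 * x4)
    (F7 : 0 < x2 * y5 - y2 * x5)
    (F8 : 0 < x2 * y6 - y2 * x6)
    (F9 : 0 < x3 * y4 - y3 * x4)
    (F10 : 0 < x3 * y5 - y3 * x5)
    (F12 : 0 < x4 * y5 - y4 * x5)
    (F14 : 0 < x5 * y6 - y5 * x6)
    (F15 : 0 < (x2 - x1) * (y3 - y1) - (y2 - y1) * (x3 - x1))
    (F17 : 0 < (x2 - x1) * (y5 - y1) - (y2 - y1) * (x5 - x1))
    (F18 : 0 < (x2 - x1) * (y6 - y1) - (y2 - y1) * (x6 - x1))
    (F20 : 0 < (x3 - x1) * (y5 - y1) - (y3 - y1) * (x5 - x1))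
    (F21 : 0 < (x3 - x1) * (y6 - y1) - (y3 - y1) * (x6 - x1))
    (F22 : 0 < (x4 - x1) * (y5 - y1) - (y4 - y1) * (x5 - x1))
    (F23 : 0 < (x4 - x1) * (y6 - y1) - (y4 - y1) * (x6 - x1))
    (F25 : 0 < (x3 - x2) * (y4 - y2) - (y3 - y2) * (x4 - x2))
    (F26 : 0 < (x3 - x2) * (y5 - y2) - (y3 - y2) * (x5 - x2))
    (F27 : 0 < (x3 - x2) * (y6 - y2) - (y3 - y2) * (x6 - x2))
    (F28 : 0 < (x4 - x2) * (y5 - y2) - (y4 - y2) * (x5 - x2))
    (F29 : 0 < (x4 - x2) * (y6 - y2) - (y4 - y2) * (x6 - x2))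
    (F30 : 0 < (x5 - x2) * (y6 - y2) - (y5 - y2) * (x6 - x2))
    (F79 : 0 < (x2 + x6) * q4 - (y2 + y6) * p4)
    (F80 : 0 < (x2 + x6 - 2*x3) * q4 - (y2 + y6 - 2*y3) * p4)
    (F81 : 0 < (x2 + x6 - x1) * q4 - (y2 + y6 - y1) * p4)
    (F82 : 0 < (x2 + x6 - x1 - x3) * q4 - (y2 + y6 - y1 - y3) * p4)
    (F83 : 0 < (x6 - x4) * q4 - (y6 - y4) * p4)
    (F86 : 0 < (x6 - x5) * q4 - (y6 - y5) * p4)
    (F88 : 0 < (x2 - x3) * q4 - (y2 - y3) * p4)
    (F89 : 0 < (x2 - x1) * q4 - (y2 - y1) * p4)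
    (F90 : 0 < (x2 - x6) * q4 - (y2 - y6) * p4)
    (F96 : 0 < (x2 - x3) * q5 - (y2 - y3) * p5)
    (F98 : 0 < (x4 - x5) * q5 - (y4 - y5) * p5)
    (F102 : 0 < (x2 - x4) * q5 - (y2 - y4) * p5)
    (F114 : 0 < x4 * q7 - y4 * p7)
    (F120 : 0 < (-x3) * q7 - (-y3) * p7)
    (F122 : 0 < (x4 - x1 - x5) * q7 - (y4 - y1 - y5) * p7)
    (F125 : 0 < (x2 + x5) * q8 - (y2 + y5) * p8)
    (F126 : 0 < (x2 + x5 - 2*x3) * q8 - (y2 + y5 - 2*y3) * p8)
    (F127 : 0 < (x2 + x5 - x1) * q8 - (y2 + y5 - y1) * p8)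
    (F131 : 0 < (x2 + x5 - x3 - x4) * q8 - (y2 + y5 - y3 - y4) * p8)
    (F133 : 0 < (x2 - x1) * q8 - (y2 - y1) * p8)
    (F136 : 0 < (x5 - x2) * q8 - (y5 - y2) * p8)
    (F139 : 0 < x5 * q9 - y5 * p9)
    (F143 : 0 < (x1 + x5 - x3 - x4) * q9 - (y1 + y5 - y3 - y4) * p9)
    (F145 : 0 < (x1 - x2) * q9 - (y1 - y2) * p9)
    (F148 : 0 < (x5 - x1) * q9 - (y5 - y1) * p9)
    (F150 : 0 < (x6 - x3) * q10 - (y6 - y3) * p10)
    (F152 : 0 < (x6 - x1) * q10 - (y6 - y1) * p10)
    (F153 : 0 < (x3 - x2) * q10 - (y3 - y2) * p10)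
    (F155 : 0 < (x6 - x4) * q10 - (y6 - y4) * p10)
    (F158 : 0 < (x3 + x6 - x1 - x5) * q10 - (y3 + y6 - y1 - y5) * p10)
    (F159 : 0 < (x3 - x1) * q10 - (y3 - y1) * p10)
    (F160 : 0 < (x1 + x6) * q11 - (y1 + y6) * p11)
    (F164 : 0 < (x1 - x2) * q11 - (y1 - y2) * p11)
    (F167 : 0 < (x1 + x6 - x4) * q11 - (y1 + y6 - y4) * p11)
    (F171 : 0 < (x6 - x1) * q11 - (y6 - y1) * p11) : False := by
  have F172 : 0 < (x2 - x1) * (-y1) - (y2 - y1) * (-x1) := by linarith only [F0]
  have F173 : 0 < (x2 - x1) * (-y2) - (y2 - y1) * (-x2) := by linarith only [F0]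
  have F180 : 0 < (x3 - x1) * (-y2) - (y3 - y1) * (-x2) := by linarith only [F0, F5]
  have F197 : 0 < (x5 - x1) * (-y5) - (y5 - y1) * (-x5) := by linarith only [F3]
  have F199 : 0 < (-x1 - x6) * y1 - (-y1 - y6) * x1 := by linarith only [F4]
  have F201 : 0 < (x6 - x1) * (-y1) - (y6 - y1) * (-x1) := by linarith only [F4]
  have F202 : 0 < (x6 - x1) * (-y2) - (y6 - y1) * (-x2) := by linarith only [F0, F8]
  have F215 : 0 < (x4 - x2) * (-y2) - (y4 - y2) * (-x2) := by linarith only [F6]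
  have F219 : 0 < (-x2 - x5) * y1 - (-y2 - y5) * x1 := by linarith only [F0, F3]
  have F223 : 0 < (x5 - x2) * (-y2) - (y5 - y2) * (-x2) := by linarith only [F7]
  have F226 : 0 < (x5 - x2) * (-y5) - (y5 - y2) * (-x5) := by linarith only [F7]
  have F228 : 0 < (-x2 - x6) * y2 - (-y2 - y6) * x2 := by linarith only [F8]
  have F235 : 0 < (-x3 - x4) * y1 - (-y3 - y4) * x1 := by linarith only [F1, F2]
  have F263 : 0 < (x6 - x4) * (-y5) - (y6 - y4) * (-x5) := by linarith only [F12, F14]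
  have F265 : 0 < (x6 - x5) * (-y5) - (y6 - y5) * (-x5) := by linarith only [F14]
  have F267 : 0 < (x3 - x2) * (y1 - y2) - (y3 - y2) * (x1 - x2) := by linarith only [F15]
  have F272 : 0 < (x5 - x2) * (y1 - y2) - (y5 - y2) * (x1 - x2) := by linarith only [F17]
  have F275 : 0 < (x5 - x2) * (y1 - y5) - (y5 - y2) * (x1 - x5) := by linarith only [F17]
  have F302 : 0 < (x5 - x4) * (y1 - y5) - (y5 - y4) * (x1 - x5) := by linarith only [F22]
  have F305 : 0 < (x6 - x4) * (y1 - y6) - (y6 - y4) * (x1 - x6) := by linarith only [F23]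
  have F317 : 0 < (x2 + x5 - 2*x3) * (y2 - y5) - (y2 + y5 - 2*y3) * (x2 - x5) := by linarith only [F26]
  have F322 : 0 < (x2 + x6 - 2*x3) * (y2 - y3) - (y2 + y6 - 2*y3) * (x2 - x3) := by linarith only [F27]
  have F327 : 0 < (x2 - x6) * (-q10) - (y2 - y6) * (-p10) := by linarith only [F153, F150]
  have F328 : 0 < (x5 - x4) * (y2 - y4) - (y5 - y4) * (x2 - x4) := by linarith only [F28]
  have F329 : 0 < (x5 - x4) * (y2 - y5) - (y5 - y4) * (x2 - x5) := by linarith only [F28]
  have F330 : 0 < (x6 - x4) * (y2 - y4) - (y6 - y4) * (x2 - x4) := by linarith only [F29]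
  have F331 : 0 < (x6 - x4) * (y2 - y5) - (y6 - y4) * (x2 - x5) := by linarith only [F28, F30]
  have F332 : 0 < (x6 - x4) * (y2 - y6) - (y6 - y4) * (x2 - x6) := by linarith only [F29]
  have F335 : 0 < (x6 - x5) * (y2 - y5) - (y6 - y5) * (x2 - x5) := by linarith only [F30]
  have F337 : 0 < (-x5) * (-q8) - (-y5) * (-p8) := by linarith only [F136, F125]
  have F339 : 0 < (x2 - x4) * q4 - (y2 - y4) * p4 := by linarith only [F90, F83]
  have F340 : 0 < (x2 - x5) * q4 - (y2 - y5) * p4 := by linarith only [F90, F86]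
  have F341 : 0 < x2 * q4 - y2 * p4 := by linarith only [F90, F79]
  have F354 : 0 < (-x1) * q11 - (-y1) * p11 :=
    plk01 (x2 - x1) (y2 - y1) (x6 - x1) (y6 - y1) (-x1) (-y1) p11 q11 (by linarith only [F18]) (by linarith only [F172]) (by linarith only [F171]) (by linarith only [F164]) (by linarith only [F201])
  have F355 : 0 < (-x2) * (y6 - y4) - (-y2) * (x6 - x4) :=
    plk11 (x4 - x2) (y4 - y2) (-p4) (-q4) (-x2) (-y2) (x6 - x4) (y6 - y4) (by linarith only [F339]) (by linarith only [F215]) (by linarith only [F83]) (by linarith only [F330]) (by linarith only [F341])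
  have F356 : 0 < (-x2) * (y6 - y5) - (-y2) * (x6 - x5) :=
    plk11 (x5 - x2) (y5 - y2) (-p4) (-q4) (-x2) (-y2) (x6 - x5) (y6 - y5) (by linarith only [F340]) (by linarith only [F223]) (by linarith only [F86]) (by linarith only [F335]) (by linarith only [F341])
  have F362 : 0 < (-x2) * q11 - (-y2) * p11 :=
    plk01 (x2 - x1) (y2 - y1) (x6 - x1) (y6 - y1) (-x2) (-y2) p11 q11 (by linarith only [F18]) (by linarith only [F173]) (by linarith only [F171]) (by linarith only [F164]) (by linarith only [F202])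
  have F366 : 0 < (-x5) * (y2 - y1) - (-y5) * (x2 - x1) :=
    plk01 (x5 - x1) (y5 - y1) p9 q9 (-x5) (-y5) (x2 - x1) (y2 - y1) (by linarith only [F148]) (by linarith only [F197]) (by linarith only [F145]) (by linarith only [F17]) (by linarith only [F139])
  have F367 : 0 < (-x5) * (2*y3 - y2 - y5) - (-y5) * (2*x3 - x2 - x5) :=
    plk01 (x5 - x2) (y5 - y2) p8 q8 (-x5) (-y5) (2*x3 - x2 - x5) (2*y3 - y2 - y5) (by linarith only [F136]) (by linarith only [F226]) (by linarith only [F126]) (by linarith only [F317]) (by linarith only [F337])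
  have F369 : 0 < (-x5) * q4 - (-y5) * p4 :=
    plk01 (x5 - x2) (y5 - y2) (x6 - x4) (y6 - y4) (-x5) (-y5) p4 q4 (by linarith only [F331]) (by linarith only [F226]) (by linarith only [F83]) (by linarith only [F340]) (by linarith only [F263])
  have F380 : 0 < (x1 - x2) * (y2 + y6 - 2*y3) - (y1 - y2) * (x2 + x6 - 2*x3) :=
    plk11 (x3 - x2) (y3 - y2) (-p4) (-q4) (x1 - x2) (y1 - y2) (x2 + x6 - 2*x3) (y2 + y6 - 2*y3) (by linarith only [F88]) (by linarith only [F267]) (by linarith only [F80]) (by linarith only [F322]) (by linarith only [F89])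
  have F381 : 0 < (x1 - x2) * (2*y3 - y2 - y5) - (y1 - y2) * (2*x3 - x2 - x5) :=
    plk01 (x5 - x2) (y5 - y2) p8 q8 (x1 - x2) (y1 - y2) (2*x3 - x2 - x5) (2*y3 - y2 - y5) (by linarith only [F136]) (by linarith only [F272]) (by linarith only [F126]) (by linarith only [F317]) (by linarith only [F133])
  have F382 : 0 < (x1 - x3) * (y4 - y6) - (y1 - y3) * (x4 - x6) :=
    plk01 (x6 - x1) (y6 - y1) p10 q10 (x1 - x3) (y1 - y3) (x4 - x6) (y4 - y6) (by linarith only [F152]) (by linarith only [F21]) (by linarith only [F155]) (by linarith only [F305]) (by linarith only [F159])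
  have F413 : 0 < (x2 - x3) * (y4 - y5) - (y2 - y3) * (x4 - x5) :=
    plk01 (x4 - x2) (y4 - y2) (-p5) (-q5) (x2 - x3) (y2 - y3) (x4 - x5) (y4 - y5) (by linarith only [F102]) (by linarith only [F25]) (by linarith only [F98]) (by linarith only [F328]) (by linarith only [F96])
  have F418 : 0 < (x2 - x3) * (-q8) - (y2 - y3) * (-p8) :=
    plk11 (x1 - x2) (y1 - y2) (x2 - x5) (y2 - y5) (x2 - x3) (y2 - y3) (-p8) (-q8) (by linarith only [F272]) (by linarith only [F267]) (by linarith only [F136]) (by linarith only [F133]) (by linarith only [F26])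
  have F489 : 0 < p4 * (-q10) - q4 * (-p10) :=
    plk11 (x2 - x6) (y2 - y6) (x4 - x6) (y4 - y6) p4 q4 (-p10) (-q10) (by linarith only [F332]) (by linarith only [F90]) (by linarith only [F155]) (by linarith only [F327]) (by linarith only [F83])
  have F508 : 0 < (x4 - x1 - x6) * (-y2) - (y4 - y1 - y6) * (-x2) := by linarith only [F0, F355]
  have F511 : 0 < (x2 + x6 - x1) * (-y2) - (y2 + y6 - y1) * (-x2) := by linarith only [F0, F228]
  have F516 : 0 < (x3 + x4 - x1) * (-y1) - (y3 + y4 - y1) * (-x1) := by linarith only [F235]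
  have F521 : 0 < (x2 + x5 - x1) * (-y1) - (y2 + y5 - y1) * (-x1) := by linarith only [F219]
  have F538 : 0 < (x1 - x2 - x5) * (y2 - y5) - (y1 - y2 - y5) * (x2 - x5) := by linarith only [F223, F275]
  have F648 : 0 < (x1 + x6 - 2*x3) * (y2 - y1) - (y1 + y6 - 2*y3) * (x2 - x1) := by linarith only [F380]
  have F665 : 0 < (x1 + x5 - x3 - x4) * (y1 - y5) - (y1 + y5 - y3 - y4) * (x1 - x5) := by linarith only [F20, F302]
  have F693 : 0 < (x2 + x5 - x3 - x4) * (y2 - y3) - (y2 + y5 - y3 - y4) * (x2 - x3) := by linarith only [F413]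
  have F695 : 0 < (x2 + x5 - x3 - x4) * (y2 - y5) - (y2 + y5 - y3 - y4) * (x2 - x5) := by linarith only [F26, F329]
  have F751 : 0 < (-x1) * (y6 - y5) - (-y1) * (x6 - x5) :=
    plk01 x2 y2 x5 y5 (-x1) (-y1) (x6 - x5) (y6 - y5) (by linarith only [F7]) (by linarith only [F0]) (by linarith only [F265]) (by linarith only [F356]) (by linarith only [F3])
  have F757 : 0 < (-x1) * (y1 + y6 - y4) - (-y1) * (x1 + x6 - x4) :=
    plk01 x2 y2 (-p11) (-q11) (-x1) (-y1) (x1 + x6 - x4) (y1 + y6 - y4) (by linarith only [F362]) (by linarith only [F0]) (by linarith only [F167]) (by linarith only [F508]) (by linarith only [F354])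
  have F779 : 0 < (-x5) * (y3 + y4 - y1 - y5) - (-y5) * (x3 + x4 - x1 - x5) :=
    plk01 (x5 - x1) (y5 - y1) p9 q9 (-x5) (-y5) (x3 + x4 - x1 - x5) (y3 + y4 - y1 - y5) (by linarith only [F148]) (by linarith only [F197]) (by linarith only [F143]) (by linarith only [F665]) (by linarith only [F139])
  have F789 : 0 < (x1 - x2) * (-y1 - y6) - (y1 - y2) * (-x1 - x6) :=
    plk11 (-x1) (-y1) p11 q11 (x1 - x2) (y1 - y2) (-x1 - x6) (-y1 - y6) (by linarith only [F354]) (by linarith only [F172]) (by linarith only [F160]) (by linarith only [F199]) (by linarith only [F164])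
  have F793 : 0 < (x1 - x2) * (y3 + y4 - y2 - y5) - (y1 - y2) * (x3 + x4 - x2 - x5) :=
    plk01 (x3 - x2) (y3 - y2) p8 q8 (x1 - x2) (y1 - y2) (x3 + x4 - x2 - x5) (y3 + y4 - y2 - y5) (by linarith only [F418]) (by linarith only [F267]) (by linarith only [F131]) (by linarith only [F693]) (by linarith only [F133])
  have F800 : 0 < (x1 - x3) * q4 - (y1 - y3) * p4 :=
    plk01 (-x2) (-y2) (x6 - x4) (y6 - y4) (x1 - x3) (y1 - y3) p4 q4 (by linarith only [F355]) (by linarith only [F180]) (by linarith only [F83]) (by linarith only [F341]) (by linarith only [F382])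
  have F855 : 0 < (x5 - x6) * (y1 - y2 - y6) - (y5 - y6) * (x1 - x2 - x6) :=
    plk01 x2 y2 p4 q4 (x5 - x6) (y5 - y6) (x1 - x2 - x6) (y1 - y2 - y6) (by linarith only [F341]) (by linarith only [F356]) (by linarith only [F81]) (by linarith only [F511]) (by linarith only [F86])
  have F933 : 0 < (x2 + x5 - 2*x3) * (-q4) - (y2 + y5 - 2*y3) * (-p4) :=
    plk11 x5 y5 (x1 - x2) (y1 - y2) (x2 + x5 - 2*x3) (y2 + y5 - 2*y3) (-p4) (-q4) (by linarith only [F366]) (by linarith only [F367]) (by linarith only [F89]) (by linarith only [F369]) (by linarith only [F381])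
  have F961 : 0 < (x1 - x2 - x5) * (y3 + y4 - y2 - y5) - (y1 - y2 - y5) * (x3 + x4 - x2 - x5) :=
    plk01 (x5 - x2) (y5 - y2) p8 q8 (x1 - x2 - x5) (y1 - y2 - y5) (x3 + x4 - x2 - x5) (y3 + y4 - y2 - y5) (by linarith only [F136]) (by linarith only [F538]) (by linarith only [F131]) (by linarith only [F695]) (by linarith only [F127])
  have F1078 : 0 < (x1 + x5 - x3 - x4) * (y1 - y2) - (y1 + y5 - y3 - y4) * (x1 - x2) := by linarith only [F793]
  have F1158 : 0 < (x2 + x5 - x1) * (y5 - y6) - (y2 + y5 - y1) * (x5 - x6) := by linarith only [F855]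
  have F1196 : 0 < (-x3) * (y2 - y1) - (-y3) * (x2 - x1) := by linarith only [F789, F648]
  have F1225 : 0 < (x1 + x5 - x3 - x6) * (-q4) - (y1 + y5 - y3 - y6) * (-p4) := by linarith only [F933, F82]
  have F1232 : 0 < (x1 - x3 - x4) * (y1 - y2 - y5) - (y1 - y3 - y4) * (x1 - x2 - x5) := by linarith only [F961]
  have F1248 : 0 < (-x3) * (y3 + y4 - y1 - y5) - (-y3) * (x3 + x4 - x1 - x5) :=
    plk01 x5 y5 (x1 - x2) (y1 - y2) (-x3) (-y3) (x3 + x4 - x1 - x5) (y3 + y4 - y1 - y5) (by linarith only [F366]) (by linarith only [F10]) (by linarith only [F1078]) (by linarith only [F779]) (by linarith only [F1196])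
  have F1273 : 0 < (x1 - x3) * (y1 + y5 - y3 - y6) - (y1 - y3) * (x1 + x5 - x3 - x6) :=
    plk01 (-p4) (-q4) p10 q10 (x1 - x3) (y1 - y3) (x1 + x5 - x3 - x6) (y1 + y5 - y3 - y6) (by linarith only [F489]) (by linarith only [F800]) (by linarith only [F158]) (by linarith only [F1225]) (by linarith only [F159])
  have F1328 : 0 < (x5 - x6) * (y1 - y3 - y4) - (y5 - y6) * (x1 - x3 - x4) :=
    plk01 x1 y1 (x2 + x5 - x1) (y2 + y5 - y1) (x5 - x6) (y5 - y6) (x1 - x3 - x4) (y1 - y3 - y4) (by linarith only [F521]) (by linarith only [F751]) (by linarith only [F1232]) (by linarith only [F516]) (by linarith only [F1158])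
  have F1412 : 0 < (-x1 - x6) * (y4 - y1 - y6) - (-y1 - y6) * (x4 - x1 - x6) :=
    plk01 (-x1) (-y1) p11 q11 (-x1 - x6) (-y1 - y6) (x4 - x1 - x6) (y4 - y1 - y6) (by linarith only [F354]) (by linarith only [F199]) (by linarith only [F167]) (by linarith only [F757]) (by linarith only [F160])
  have F1573 : 0 < (x4 - x1 - x5) * y3 - (y4 - y1 - y5) * x3 := by linarith only [F1248]
  have F1594 : 0 < (x6 - x5) * (y1 - y3) - (y6 - y5) * (x1 - x3) := by linarith only [F1273]
  have F1675 : 0 < (-x4) * (y4 - y1 - y6) - (-y4) * (x4 - x1 - x6) := by linarith only [F1412]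
  have F1723 : 0 < (-x4) * (y1 + y5 - y4) - (-y4) * (x1 + x5 - x4) :=
    plk01 (-x3) (-y3) p7 q7 (-x4) (-y4) (x1 + x5 - x4) (y1 + y5 - y4) (by linarith only [F120]) (by linarith only [F9]) (by linarith only [F122]) (by linarith only [F1573]) (by linarith only [F114])
  have F2017 : 0 < x4 * (y5 - y6) - y4 * (x5 - x6) := by linarith only [F1594, F1328]
  have F2125 : 0 < (x6 - x5) * (-y4) - (y6 - y5) * (-x4) := by linarith only [F1723, F1675]
  linarith only [F2125, F2017]

lemma patS6 (S : Sys 7) (e0 : S.adj 0 0) (e1 : S.adj 3 3) (e2 : S.adj 1 0) (e3 : S.adj 1 3) (e4 : (2, 6) ∈ S.E) (e5 : (2, 4) ∈ S.E) (e6 : S.adj 4 3) (e7 : (4, 0) ∈ S.E) (e8 : (5, 2) ∈ S.E) (e9 : (5, 1) ∈ S.E) (e10 : (6, 3) ∈ S.E) (e11 : (6, 1) ∈ S.E) : False := by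
  refine patS6_raw ((S.a 1).1 - (S.a 0).1) ((S.a 1).2 - (S.a 0).2) ((S.a 2).1 - (S.a 0).1) ((S.a 2).2 - (S.a 0).2) ((S.a 3).1 - (S.a 0).1) ((S.a 3).2 - (S.a 0).2) ((S.a 4).1 - (S.a 0).1) ((S.a 4).2 - (S.a 0).2) ((S.a 5).1 - (S.a 0).1) ((S.a 5).2 - (S.a 0).2) ((S.a 6).1 - (S.a 0).1) ((S.a 6).2 - (S.a 0).2) (S.τ (2, 6)).1 (S.τ (2, 6)).2 (S.τ (2, 4)).1 (S.τ (2, 4)).2 (S.τ (4, 0)).1 (S.τ (4, 0)).2 (S.τ (5, 2)).1 (S.τ (5, 2)).2 (S.τ (5, 1)).1 (S.τ (5, 1)).2 (S.τ (6, 3)).1 (S.τ (6, 3)).2 (S.τ (6, 1)).1 (S.τ (6, 1)).2 ?_ ?_ ?_ ?_ ?_ ?_ ?_ ?_ ?_ ?_ ?_ ?_ ?_ ?_ ?_ ?_ ?_ ?_ ?_ ?_ ?_ ?_ ?_ ?_ ?_ ?_ ?_ ?_ ?_ ?_ ?_ ?_ ?_ ?_ ?_ ?_ ?_ ?_ ?_ ?_ ?_ ?_ ?_ ?_ ?_ ?_ ?_ ?_ ?_ ?_ ?_ ?_ ?_ ?_ ?_ ?_ ?_ ?_ ?_ ?_ ?_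
  · have h := S.ccw 0 1 2 (by decide) (by decide) (by decide)
    simp only [dt, Prod.fst_sub, Prod.snd_sub, Prod.fst_add, Prod.snd_add] at h
    linarith only [h]
  · have h := S.ccw 0 1 3 (by decide) (by decide) (by decide)
    simp only [dt, Prod.fst_sub, Prod.snd_sub, Prod.fst_add, Prod.snd_add] at h
    linarith only [h]
  · have h := S.ccw 0 1 4 (by decide) (by decide) (by decide)
    simp only [dt, Prod.fst_sub, Prod.snd_sub, Prod.fst_add, Prod.snd_add] at h
    linarith only [h]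
  · have h := S.ccw 0 1 5 (by decide) (by decide) (by decide)
    simp only [dt, Prod.fst_sub, Prod.snd_sub, Prod.fst_add, Prod.snd_add] at h
    linarith only [h]
  · have h := S.ccw 0 1 6 (by decide) (by decide) (by decide)
    simp only [dt, Prod.fst_sub, Prod.snd_sub, Prod.fst_add, Prod.snd_add] at h
    linarith only [h]
  · have h := S.ccw 0 2 3 (by decide) (by decide) (by decide)
    simp only [dt, Prod.fst_sub, Prod.snd_sub, Prod.fst_add, Prod.snd_add] at h
    linarith only [h]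
  · have h := S.ccw 0 2 4 (by decide) (by decide) (by decide)
    simp only [dt, Prod.fst_sub, Prod.snd_sub, Prod.fst_add, Prod.snd_add] at h
    linarith only [h]
  · have h := S.ccw 0 2 5 (by decide) (by decide) (by decide)
    simp only [dt, Prod.fst_sub, Prod.snd_sub, Prod.fst_add, Prod.snd_add] at h
    linarith only [h]
  · have h := S.ccw 0 2 6 (by decide) (by decide) (by decide)
    simp only [dt, Prod.fst_sub, Prod.snd_sub, Prod.fst_add, Prod.snd_add] at h
    linarith only [h]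
  · have h := S.ccw 0 3 4 (by decide) (by decide) (by decide)
    simp only [dt, Prod.fst_sub, Prod.snd_sub, Prod.fst_add, Prod.snd_add] at h
    linarith only [h]
  · have h := S.ccw 0 3 5 (by decide) (by decide) (by decide)
    simp only [dt, Prod.fst_sub, Prod.snd_sub, Prod.fst_add, Prod.snd_add] at h
    linarith only [h]
  · have h := S.ccw 0 4 5 (by decide) (by decide) (by decide)
    simp only [dt, Prod.fst_sub, Prod.snd_sub, Prod.fst_add, Prod.snd_add] at h
    linarith only [h]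
  · have h := S.ccw 0 5 6 (by decide) (by decide) (by decide)
    simp only [dt, Prod.fst_sub, Prod.snd_sub, Prod.fst_add, Prod.snd_add] at h
    linarith only [h]
  · have h := S.ccw 1 2 3 (by decide) (by decide) (by decide)
    simp only [dt, Prod.fst_sub, Prod.snd_sub, Prod.fst_add, Prod.snd_add] at h
    linarith only [h]
  · have h := S.ccw 1 2 5 (by decide) (by decide) (by decide)
    simp only [dt, Prod.fst_sub, Prod.snd_sub, Prod.fst_add, Prod.snd_add] at h
    linarith only [h]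
  · have h := S.ccw 1 2 6 (by decide) (by decide) (by decide)
    simp only [dt, Prod.fst_sub, Prod.snd_sub, Prod.fst_add, Prod.snd_add] at h
    linarith only [h]
  · have h := S.ccw 1 3 5 (by decide) (by decide) (by decide)
    simp only [dt, Prod.fst_sub, Prod.snd_sub, Prod.fst_add, Prod.snd_add] at h
    linarith only [h]
  · have h := S.ccw 1 3 6 (by decide) (by decide) (by decide)
    simp only [dt, Prod.fst_sub, Prod.snd_sub, Prod.fst_add, Prod.snd_add] at h
    linarith only [h]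
  · have h := S.ccw 1 4 5 (by decide) (by decide) (by decide)
    simp only [dt, Prod.fst_sub, Prod.snd_sub, Prod.fst_add, Prod.snd_add] at h
    linarith only [h]
  · have h := S.ccw 1 4 6 (by decide) (by decide) (by decide)
    simp only [dt, Prod.fst_sub, Prod.snd_sub, Prod.fst_add, Prod.snd_add] at h
    linarith only [h]
  · have h := S.ccw 2 3 4 (by decide) (by decide) (by decide)
    simp only [dt, Prod.fst_sub, Prod.snd_sub, Prod.fst_add, Prod.snd_add] at h
    linarith only [h]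
  · have h := S.ccw 2 3 5 (by decide) (by decide) (by decide)
    simp only [dt, Prod.fst_sub, Prod.snd_sub, Prod.fst_add, Prod.snd_add] at h
    linarith only [h]
  · have h := S.ccw 2 3 6 (by decide) (by decide) (by decide)
    simp only [dt, Prod.fst_sub, Prod.snd_sub, Prod.fst_add, Prod.snd_add] at h
    linarith only [h]
  · have h := S.ccw 2 4 5 (by decide) (by decide) (by decide)
    simp only [dt, Prod.fst_sub, Prod.snd_sub, Prod.fst_add, Prod.snd_add] at h
    linarith only [h]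
  · have h := S.ccw 2 4 6 (by decide) (by decide) (by decide)
    simp only [dt, Prod.fst_sub, Prod.snd_sub, Prod.fst_add, Prod.snd_add] at h
    linarith only [h]
  · have h := S.ccw 2 5 6 (by decide) (by decide) (by decide)
    simp only [dt, Prod.fst_sub, Prod.snd_sub, Prod.fst_add, Prod.snd_add] at h
    linarith only [h]
  · have h := S.sepA e4 e0 (by decide) (by decide)
    simp only [dt, Prod.fst_sub, Prod.snd_sub, Prod.fst_add, Prod.snd_add] at h
    linarith only [h]
  · have h := S.sepA e4 e1 (by decide) (by decide)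
    simp only [dt, Prod.fst_sub, Prod.snd_sub, Prod.fst_add, Prod.snd_add] at h
    linarith only [h]
  · have h := S.sepA e4 e2 (by decide) (by decide)
    simp only [dt, Prod.fst_sub, Prod.snd_sub, Prod.fst_add, Prod.snd_add] at h
    linarith only [h]
  · have h := S.sepA e4 e3 (by decide) (by decide)
    simp only [dt, Prod.fst_sub, Prod.snd_sub, Prod.fst_add, Prod.snd_add] at h
    linarith only [h]
  · have h := S.sepA e4 (Or.inl e5) (by decide) (by decide)
    simp only [dt, Prod.fst_sub, Prod.snd_sub, Prod.fst_add, Prod.snd_add] at h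
    linarith only [h]
  · have h := S.sepA e4 (Or.inl e8) (by decide) (by decide)
    simp only [dt, Prod.fst_sub, Prod.snd_sub, Prod.fst_add, Prod.snd_add] at h
    linarith only [h]
  · have h := S.sepA e4 (Or.inl e10) (by decide) (by decide)
    simp only [dt, Prod.fst_sub, Prod.snd_sub, Prod.fst_add, Prod.snd_add] at h
    linarith only [h]
  · have h := S.sepA e4 (Or.inl e11) (by decide) (by decide)
    simp only [dt, Prod.fst_sub, Prod.snd_sub, Prod.fst_add, Prod.snd_add] at h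
    linarith only [h]
  · have h := S.hdA e4 (by decide)
    simp only [dt, Prod.fst_sub, Prod.snd_sub, Prod.fst_add, Prod.snd_add] at h
    linarith only [h]
  · have h := S.sepA e5 e6 (by decide) (by decide)
    simp only [dt, Prod.fst_sub, Prod.snd_sub, Prod.fst_add, Prod.snd_add] at h
    linarith only [h]
  · have h := S.sepA e5 (Or.inl e8) (by decide) (by decide)
    simp only [dt, Prod.fst_sub, Prod.snd_sub, Prod.fst_add, Prod.snd_add] at h
    linarith only [h]
  · have h := S.hdA e5 (by decide)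
    simp only [dt, Prod.fst_sub, Prod.snd_sub, Prod.fst_add, Prod.snd_add] at h
    linarith only [h]
  · have h := S.sepA e7 e0 (by decide) (by decide)
    simp only [dt, Prod.fst_sub, Prod.snd_sub, Prod.fst_add, Prod.snd_add] at h
    linarith only [h]
  · have h := S.sepA e7 e6 (by decide) (by decide)
    simp only [dt, Prod.fst_sub, Prod.snd_sub, Prod.fst_add, Prod.snd_add] at h
    linarith only [h]
  · have h := S.sepA e7 (Or.inl e9) (by decide) (by decide)
    simp only [dt, Prod.fst_sub, Prod.snd_sub, Prod.fst_add, Prod.snd_add] at h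
    linarith only [h]
  · have h := S.sepA e8 e0 (by decide) (by decide)
    simp only [dt, Prod.fst_sub, Prod.snd_sub, Prod.fst_add, Prod.snd_add] at h
    linarith only [h]
  · have h := S.sepA e8 e1 (by decide) (by decide)
    simp only [dt, Prod.fst_sub, Prod.snd_sub, Prod.fst_add, Prod.snd_add] at h
    linarith only [h]
  · have h := S.sepA e8 e2 (by decide) (by decide)
    simp only [dt, Prod.fst_sub, Prod.snd_sub, Prod.fst_add, Prod.snd_add] at h
    linarith only [h]
  · have h := S.sepA e8 e6 (by decide) (by decide)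
    simp only [dt, Prod.fst_sub, Prod.snd_sub, Prod.fst_add, Prod.snd_add] at h
    linarith only [h]
  · have h := S.sepA e8 (Or.inl e9) (by decide) (by decide)
    simp only [dt, Prod.fst_sub, Prod.snd_sub, Prod.fst_add, Prod.snd_add] at h
    linarith only [h]
  · have h := S.hdA e8 (by decide)
    simp only [dt, Prod.fst_sub, Prod.snd_sub, Prod.fst_add, Prod.snd_add] at h
    linarith only [h]
  · have h := S.sepA e9 e2 (by decide) (by decide)
    simp only [dt, Prod.fst_sub, Prod.snd_sub, Prod.fst_add, Prod.snd_add] at h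
    linarith only [h]
  · have h := S.sepA e9 e6 (by decide) (by decide)
    simp only [dt, Prod.fst_sub, Prod.snd_sub, Prod.fst_add, Prod.snd_add] at h
    linarith only [h]
  · have h := S.sepA e9 (Or.inl e8) (by decide) (by decide)
    simp only [dt, Prod.fst_sub, Prod.snd_sub, Prod.fst_add, Prod.snd_add] at h
    linarith only [h]
  · have h := S.hdA e9 (by decide)
    simp only [dt, Prod.fst_sub, Prod.snd_sub, Prod.fst_add, Prod.snd_add] at h
    linarith only [h]
  · have h := S.sepA e10 e1 (by decide) (by decide)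
    simp only [dt, Prod.fst_sub, Prod.snd_sub, Prod.fst_add, Prod.snd_add] at h
    linarith only [h]
  · have h := S.sepA e10 e3 (by decide) (by decide)
    simp only [dt, Prod.fst_sub, Prod.snd_sub, Prod.fst_add, Prod.snd_add] at h
    linarith only [h]
  · have h := S.sepA e10 (Or.inl e4) (by decide) (by decide)
    simp only [dt, Prod.fst_sub, Prod.snd_sub, Prod.fst_add, Prod.snd_add] at h
    linarith only [h]
  · have h := S.sepA e10 e6 (by decide) (by decide)
    simp only [dt, Prod.fst_sub, Prod.snd_sub, Prod.fst_add, Prod.snd_add] at h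
    linarith only [h]
  · have h := S.sepA e10 (Or.inl e9) (by decide) (by decide)
    simp only [dt, Prod.fst_sub, Prod.snd_sub, Prod.fst_add, Prod.snd_add] at h
    linarith only [h]
  · have h := S.sepA e10 (Or.inl e11) (by decide) (by decide)
    simp only [dt, Prod.fst_sub, Prod.snd_sub, Prod.fst_add, Prod.snd_add] at h
    linarith only [h]
  · have h := S.sepA e11 e0 (by decide) (by decide)
    simp only [dt, Prod.fst_sub, Prod.snd_sub, Prod.fst_add, Prod.snd_add] at h
    linarith only [h]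
  · have h := S.sepA e11 (Or.inl e4) (by decide) (by decide)
    simp only [dt, Prod.fst_sub, Prod.snd_sub, Prod.fst_add, Prod.snd_add] at h
    linarith only [h]
  · have h := S.sepA e11 (Or.inl e7) (by decide) (by decide)
    simp only [dt, Prod.fst_sub, Prod.snd_sub, Prod.fst_add, Prod.snd_add] at h
    linarith only [h]
  · have h := S.hdA e11 (by decide)
    simp only [dt, Prod.fst_sub, Prod.snd_sub, Prod.fst_add, Prod.snd_add] at h
    linarith only [h]

lemma patS6m_raw (x1 y1 x2 y2 x3 y3 x4 y4 x5 y5 x6 y6 p4 q4 p5 q5 p7 q7 p8 q8 p9 q9 p10 q10 p11 q11 : ℝ)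
    (F0 : 0 < x1 * y2 - y1 * x2)
    (F1 : 0 < x1 * y3 - y1 * x3)
    (F2 : 0 < x1 * y4 - y1 * x4)
    (F3 : 0 < x1 * y5 - y1 * x5)
    (F4 : 0 < x1 * y6 - y1 * x6)
    (F5 : 0 < x2 * y3 - y2 * x3)
    (F6 : 0 < x2 * y4 - y2 * x4)
    (F7 : 0 < x2 * y5 - y2 * x5)
    (F9 : 0 < x3 * y4 - y3 * x4)
    (F12 : 0 < x4 * y5 - y4 * x5)
    (F14 : 0 < x5 * y6 - y5 * x6)
    (F17 : 0 < (x2 - x1) * (y5 - y1) - (y2 - y1) * (x5 - x1))
    (F19 : 0 < (x3 - x1) * (y4 - y1) - (y3 - y1) * (x4 - x1))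
    (F20 : 0 < (x3 - x1) * (y5 - y1) - (y3 - y1) * (x5 - x1))
    (F22 : 0 < (x4 - x1) * (y5 - y1) - (y4 - y1) * (x5 - x1))
    (F23 : 0 < (x4 - x1) * (y6 - y1) - (y4 - y1) * (x6 - x1))
    (F24 : 0 < (x5 - x1) * (y6 - y1) - (y5 - y1) * (x6 - x1))
    (F25 : 0 < (x3 - x2) * (y4 - y2) - (y3 - y2) * (x4 - x2))
    (F26 : 0 < (x3 - x2) * (y5 - y2) - (y3 - y2) * (x5 - x2))
    (F28 : 0 < (x4 - x2) * (y5 - y2) - (y4 - y2) * (x5 - x2))
    (F29 : 0 < (x4 - x2) * (y6 - y2) - (y4 - y2) * (x6 - x2))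
    (F30 : 0 < (x5 - x2) * (y6 - y2) - (y5 - y2) * (x6 - x2))
    (F79 : 0 < (x1 + x5) * q4 - (y1 + y5) * p4)
    (F80 : 0 < (x1 + x5 - 2*x4) * q4 - (y1 + y5 - 2*y4) * p4)
    (F81 : 0 < (x1 + x5 - x6) * q4 - (y1 + y5 - y6) * p4)
    (F82 : 0 < (x1 + x5 - x4 - x6) * q4 - (y1 + y5 - y4 - y6) * p4)
    (F83 : 0 < (x1 - x3) * q4 - (y1 - y3) * p4)
    (F86 : 0 < (x1 - x2) * q4 - (y1 - y2) * p4)
    (F89 : 0 < (x5 - x6) * q4 - (y5 - y6) * p4)
    (F90 : 0 < (x5 - x1) * q4 - (y5 - y1) * p4)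
    (F96 : 0 < (x5 - x4) * q5 - (y5 - y4) * p5)
    (F98 : 0 < (x3 - x2) * q5 - (y3 - y2) * p5)
    (F102 : 0 < (x5 - x3) * q5 - (y5 - y3) * p5)
    (F114 : 0 < x3 * q7 - y3 * p7)
    (F120 : 0 < (-x4) * q7 - (-y4) * p7)
    (F122 : 0 < (x3 - x2 - x6) * q7 - (y3 - y2 - y6) * p7)
    (F125 : 0 < (x2 + x5) * q8 - (y2 + y5) * p8)
    (F126 : 0 < (x2 + x5 - 2*x4) * q8 - (y2 + y5 - 2*y4) * p8)
    (F127 : 0 < (x2 + x5 - x6) * q8 - (y2 + y5 - y6) * p8)
    (F130 : 0 < (x2 - x3) * q8 - (y2 - y3) * p8)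
    (F131 : 0 < (x2 + x5 - x3 - x4) * q8 - (y2 + y5 - y3 - y4) * p8)
    (F133 : 0 < (x5 - x6) * q8 - (y5 - y6) * p8)
    (F136 : 0 < (x2 - x5) * q8 - (y2 - y5) * p8)
    (F139 : 0 < x2 * q9 - y2 * p9)
    (F140 : 0 < (x2 - x4) * q9 - (y2 - y4) * p9)
    (F143 : 0 < (x2 + x6 - x3 - x4) * q9 - (y2 + y6 - y3 - y4) * p9)
    (F145 : 0 < (x6 - x5) * q9 - (y6 - y5) * p9)
    (F148 : 0 < (x2 - x6) * q9 - (y2 - y6) * p9)
    (F150 : 0 < (x1 - x4) * q10 - (y1 - y4) * p10)
    (F153 : 0 < (x4 - x5) * q10 - (y4 - y5) * p10)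
    (F155 : 0 < (x1 - x3) * q10 - (y1 - y3) * p10)
    (F158 : 0 < (x1 + x4 - x2 - x6) * q10 - (y1 + y4 - y2 - y6) * p10)
    (F159 : 0 < (x4 - x6) * q10 - (y4 - y6) * p10)
    (F160 : 0 < (x1 + x6) * q11 - (y1 + y6) * p11)
    (F162 : 0 < x1 * q11 - y1 * p11)
    (F163 : 0 < (x1 - x4) * q11 - (y1 - y4) * p11)
    (F164 : 0 < (x6 - x5) * q11 - (y6 - y5) * p11)
    (F167 : 0 < (x1 + x6 - x3) * q11 - (y1 + y6 - y3) * p11)
    (F169 : 0 < (x1 - x2) * q11 - (y1 - y2) * p11)
    (F170 : 0 < (x6 - x4) * q11 - (y6 - y4) * p11)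
    (F171 : 0 < (x1 - x6) * q11 - (y1 - y6) * p11) : False := by
  have F172 : 0 < (x2 - x1) * (-y1) - (y2 - y1) * (-x1) := by linarith only [F0]
  have F173 : 0 < (x2 - x1) * (-y2) - (y2 - y1) * (-x2) := by linarith only [F0]
  have F174 : 0 < (x3 - x1) * (-y1) - (y3 - y1) * (-x1) := by linarith only [F1]
  have F182 : 0 < (x4 - x1) * (-y1) - (y4 - y1) * (-x1) := by linarith only [F2]
  have F189 : 0 < (x5 - x1) * (-y1) - (y5 - y1) * (-x1) := by linarith only [F3]
  have F190 : 0 < (x5 - x1) * (-y2) - (y5 - y1) * (-x2) := by linarith only [F0, F7]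
  have F193 : 0 < (x5 - x1) * (-y5) - (y5 - y1) * (-x5) := by linarith only [F3]
  have F194 : 0 < (-x1 - x6) * y1 - (-y1 - y6) * x1 := by linarith only [F4]
  have F203 : 0 < (x3 - x2) * (-y2) - (y3 - y2) * (-x2) := by linarith only [F5]
  have F205 : 0 < (x4 - x2) * (-y2) - (y4 - y2) * (-x2) := by linarith only [F6]
  have F212 : 0 < (x5 - x2) * (-y2) - (y5 - y2) * (-x2) := by linarith only [F7]
  have F257 : 0 < (x6 - x4) * (-y5) - (y6 - y4) * (-x5) := by linarith only [F12, F14]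
  have F296 : 0 < (x1 + x5 - 2*x4) * (y1 - y5) - (y1 + y5 - 2*y4) * (x1 - x5) := by linarith only [F22]
  have F297 : 0 < (x6 - x4) * (y1 - y4) - (y6 - y4) * (x1 - x4) := by linarith only [F23]
  have F298 : 0 < (x6 - x4) * (y1 - y5) - (y6 - y4) * (x1 - x5) := by linarith only [F22, F24]
  have F303 : 0 < (x1 - x5) * q10 - (y1 - y5) * p10 := by linarith only [F150, F153]
  have F305 : 0 < (x6 - x5) * (y1 - y5) - (y6 - y5) * (x1 - x5) := by linarith only [F24]
  have F307 : 0 < (-x5) * (-q4) - (-y5) * (-p4) := by linarith only [F90, F79]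
  have F308 : 0 < (x1 - x5) * q11 - (y1 - y5) * p11 := by linarith only [F171, F164]
  have F318 : 0 < (x2 - x5) * (-q5) - (y2 - y5) * (-p5) := by linarith only [F98, F102]
  have F320 : 0 < (x5 - x4) * (y2 - y5) - (y5 - y4) * (x2 - x5) := by linarith only [F28]
  have F321 : 0 < (x2 + x5 - 2*x4) * (y2 - y4) - (y2 + y5 - 2*y4) * (x2 - x4) := by linarith only [F28]
  have F322 : 0 < (x2 + x5 - 2*x4) * (y2 - y5) - (y2 + y5 - 2*y4) * (x2 - x5) := by linarith only [F28]
  have F323 : 0 < (x6 - x4) * (y2 - y4) - (y6 - y4) * (x2 - x4) := by linarith only [F29]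
  have F330 : 0 < (x6 - x5) * (y2 - y5) - (y6 - y5) * (x2 - x5) := by linarith only [F30]
  have F333 : 0 < x2 * q8 - y2 * p8 := by linarith only [F136, F125]
  have F334 : 0 < (x2 - x4) * q8 - (y2 - y4) * p8 := by linarith only [F136, F126]
  have F335 : 0 < (x2 - x5) * q9 - (y2 - y5) * p9 := by linarith only [F148, F145]
  have F348 : 0 < (-x1) * (y6 - y4) - (-y1) * (x6 - x4) :=
    plk11 (x4 - x1) (y4 - y1) (-p11) (-q11) (-x1) (-y1) (x6 - x4) (y6 - y4) (by linarith only [F163]) (by linarith only [F182]) (by linarith only [F170]) (by linarith only [F297]) (by linarith only [F162])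
  have F349 : 0 < (-x1) * (y6 - y5) - (-y1) * (x6 - x5) :=
    plk11 (x5 - x1) (y5 - y1) (-p11) (-q11) (-x1) (-y1) (x6 - x5) (y6 - y5) (by linarith only [F308]) (by linarith only [F189]) (by linarith only [F164]) (by linarith only [F305]) (by linarith only [F162])
  have F351 : 0 < (-x1) * q4 - (-y1) * p4 :=
    plk01 (x2 - x1) (y2 - y1) (x5 - x1) (y5 - y1) (-x1) (-y1) p4 q4 (by linarith only [F17]) (by linarith only [F172]) (by linarith only [F90]) (by linarith only [F86]) (by linarith only [F189])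
  have F353 : 0 < (-x2) * (y6 - y5) - (-y2) * (x6 - x5) :=
    plk11 (x5 - x2) (y5 - y2) (-p9) (-q9) (-x2) (-y2) (x6 - x5) (y6 - y5) (by linarith only [F335]) (by linarith only [F212]) (by linarith only [F145]) (by linarith only [F330]) (by linarith only [F139])
  have F354 : 0 < (-x2) * (y2 + y5 - 2*y4) - (-y2) * (x2 + x5 - 2*x4) :=
    plk11 (x4 - x2) (y4 - y2) (-p8) (-q8) (-x2) (-y2) (x2 + x5 - 2*x4) (y2 + y5 - 2*y4) (by linarith only [F334]) (by linarith only [F205]) (by linarith only [F126]) (by linarith only [F321]) (by linarith only [F333])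
  have F356 : 0 < (-x2) * q4 - (-y2) * p4 :=
    plk01 (x2 - x1) (y2 - y1) (x5 - x1) (y5 - y1) (-x2) (-y2) p4 q4 (by linarith only [F17]) (by linarith only [F173]) (by linarith only [F90]) (by linarith only [F86]) (by linarith only [F190])
  have F362 : 0 < (-x5) * (y3 - y1) - (-y5) * (x3 - x1) :=
    plk01 (x5 - x1) (y5 - y1) p4 q4 (-x5) (-y5) (x3 - x1) (y3 - y1) (by linarith only [F90]) (by linarith only [F193]) (by linarith only [F83]) (by linarith only [F20]) (by linarith only [F307])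
  have F368 : 0 < (-x5) * q11 - (-y5) * p11 :=
    plk01 (x5 - x1) (y5 - y1) (x6 - x4) (y6 - y4) (-x5) (-y5) p11 q11 (by linarith only [F298]) (by linarith only [F193]) (by linarith only [F170]) (by linarith only [F308]) (by linarith only [F257])
  have F372 : 0 < (x1 - x2) * (y6 - y5) - (y1 - y2) * (x6 - x5) :=
    plk11 (x5 - x1) (y5 - y1) p4 q4 (x1 - x2) (y1 - y2) (x6 - x5) (y6 - y5) (by linarith only [F90]) (by linarith only [F17]) (by linarith only [F89]) (by linarith only [F305]) (by linarith only [F86])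
  have F373 : 0 < (x1 - x2) * (y1 + y6) - (y1 - y2) * (x1 + x6) :=
    plk01 (-x1) (-y1) (-p11) (-q11) (x1 - x2) (y1 - y2) (x1 + x6) (y1 + y6) (by linarith only [F162]) (by linarith only [F172]) (by linarith only [F160]) (by linarith only [F194]) (by linarith only [F169])
  have F377 : 0 < (x1 - x3) * (y4 - y6) - (y1 - y3) * (x4 - x6) :=
    plk01 (x4 - x1) (y4 - y1) (-p10) (-q10) (x1 - x3) (y1 - y3) (x4 - x6) (y4 - y6) (by linarith only [F150]) (by linarith only [F19]) (by linarith only [F159]) (by linarith only [F297]) (by linarith only [F155])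
  have F409 : 0 < (x2 - x3) * (y4 - y5) - (y2 - y3) * (x4 - x5) :=
    plk01 (x5 - x2) (y5 - y2) p5 q5 (x2 - x3) (y2 - y3) (x4 - x5) (y4 - y5) (by linarith only [F318]) (by linarith only [F26]) (by linarith only [F96]) (by linarith only [F320]) (by linarith only [F98])
  have F410 : 0 < (x2 - x3) * (y5 - y6) - (y2 - y3) * (x5 - x6) :=
    plk01 (x5 - x2) (y5 - y2) (-p8) (-q8) (x2 - x3) (y2 - y3) (x5 - x6) (y5 - y6) (by linarith only [F136]) (by linarith only [F26]) (by linarith only [F133]) (by linarith only [F330]) (by linarith only [F130])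
  have F466 : 0 < (x5 - x6) * (y1 + y5 - 2*y4) - (y5 - y6) * (x1 + x5 - 2*x4) :=
    plk01 (x1 - x5) (y1 - y5) (-p4) (-q4) (x5 - x6) (y5 - y6) (x1 + x5 - 2*x4) (y1 + y5 - 2*y4) (by linarith only [F90]) (by linarith only [F305]) (by linarith only [F80]) (by linarith only [F296]) (by linarith only [F89])
  have F467 : 0 < (x5 - x6) * (2*y4 - y2 - y5) - (y5 - y6) * (2*x4 - x2 - x5) :=
    plk11 (x2 - x5) (y2 - y5) p8 q8 (x5 - x6) (y5 - y6) (2*x4 - x2 - x5) (2*y4 - y2 - y5) (by linarith only [F136]) (by linarith only [F330]) (by linarith only [F126]) (by linarith only [F322]) (by linarith only [F133])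
  have F487 : 0 < p4 * q10 - q4 * p10 :=
    plk11 (x1 - x3) (y1 - y3) (x1 - x5) (y1 - y5) p4 q4 p10 q10 (by linarith only [F20]) (by linarith only [F83]) (by linarith only [F303]) (by linarith only [F155]) (by linarith only [F90])
  have F505 : 0 < (x6 - x1 - x5) * y1 - (y6 - y1 - y5) * x1 := by linarith only [F349]
  have F515 : 0 < (x6 - x2 - x5) * y1 - (y6 - y2 - y5) * x1 := by linarith only [F0, F349]
  have F521 : 0 < (x6 - x2 - x5) * (y2 - y3) - (y6 - y2 - y5) * (x2 - x3) := by linarith only [F203, F410]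
  have F535 : 0 < (x6 - x3 - x4) * y1 - (y6 - y3 - y4) * x1 := by linarith only [F1, F348]
  have F585 : 0 < (x3 - x1 - x6) * y5 - (y3 - y1 - y6) * x5 := by linarith only [F14, F362]
  have F687 : 0 < (x2 + x5 - x3 - x4) * (y2 - y3) - (y2 + y5 - y3 - y4) * (x2 - x3) := by linarith only [F409]
  have F693 : 0 < (x2 + x6 - x3 - x4) * (y2 - y4) - (y2 + y6 - y3 - y4) * (x2 - x4) := by linarith only [F25, F323]
  have F747 : 0 < (2*x4 - x1 - x6) * (y5 - y6) - (2*y4 - y1 - y6) * (x5 - x6) := by linarith only [F466]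
  have F753 : 0 < (-x1) * (y1 + y6 - y3) - (-y1) * (x1 + x6 - x3) :=
    plk11 x5 y5 (-p11) (-q11) (-x1) (-y1) (x1 + x6 - x3) (y1 + y6 - y3) (by linarith only [F368]) (by linarith only [F3]) (by linarith only [F167]) (by linarith only [F585]) (by linarith only [F162])
  have F760 : 0 < (-x2) * (y2 + y6 - y3 - y4) - (-y2) * (x2 + x6 - x3 - x4) :=
    plk11 (x4 - x2) (y4 - y2) (-p9) (-q9) (-x2) (-y2) (x2 + x6 - x3 - x4) (y2 + y6 - y3 - y4) (by linarith only [F140]) (by linarith only [F205]) (by linarith only [F143]) (by linarith only [F693]) (by linarith only [F139])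
  have F787 : 0 < (x1 - x2) * (y6 - y1 - y5) - (y1 - y2) * (x6 - x1 - x5) :=
    plk11 (-x1) (-y1) p4 q4 (x1 - x2) (y1 - y2) (x6 - x1 - x5) (y6 - y1 - y5) (by linarith only [F351]) (by linarith only [F172]) (by linarith only [F81]) (by linarith only [F505]) (by linarith only [F86])
  have F847 : 0 < (x4 - x6) * (-q4) - (y4 - y6) * (-p4) :=
    plk11 x1 y1 (x3 - x1) (y3 - y1) (x4 - x6) (y4 - y6) (-p4) (-q4) (by linarith only [F174]) (by linarith only [F348]) (by linarith only [F83]) (by linarith only [F351]) (by linarith only [F377])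
  have F851 : 0 < (x5 - x6) * (-y1 - y6) - (y5 - y6) * (-x1 - x6) :=
    plk01 x1 y1 (x2 - x1) (y2 - y1) (x5 - x6) (y5 - y6) (-x1 - x6) (-y1 - y6) (by linarith only [F172]) (by linarith only [F349]) (by linarith only [F373]) (by linarith only [F194]) (by linarith only [F372])
  have F855 : 0 < (x5 - x6) * (y3 + y4 - y2 - y5) - (y5 - y6) * (x3 + x4 - x2 - x5) :=
    plk11 (x2 - x3) (y2 - y3) p8 q8 (x5 - x6) (y5 - y6) (x3 + x4 - x2 - x5) (y3 + y4 - y2 - y5) (by linarith only [F130]) (by linarith only [F410]) (by linarith only [F131]) (by linarith only [F687]) (by linarith only [F133])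
  have F934 : 0 < (x2 + x5 - 2*x4) * (-q4) - (y2 + y5 - 2*y4) * (-p4) :=
    plk01 (-x2) (-y2) (x6 - x5) (y6 - y5) (x2 + x5 - 2*x4) (y2 + y5 - 2*y4) (-p4) (-q4) (by linarith only [F353]) (by linarith only [F354]) (by linarith only [F89]) (by linarith only [F356]) (by linarith only [F467])
  have F964 : 0 < (x6 - x2 - x5) * (y2 + y5 - y3 - y4) - (y6 - y2 - y5) * (x2 + x5 - x3 - x4) :=
    plk11 (x3 - x2) (y3 - y2) (-p8) (-q8) (x6 - x2 - x5) (y6 - y2 - y5) (x2 + x5 - x3 - x4) (y2 + y5 - y3 - y4) (by linarith only [F130]) (by linarith only [F521]) (by linarith only [F131]) (by linarith only [F687]) (by linarith only [F127])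
  have F1066 : 0 < (x6 - x2 - x5) * (y2 - y1) - (y6 - y2 - y5) * (x2 - x1) := by linarith only [F787]
  have F1165 : 0 < (x3 + x4 - x2 - x6) * (y6 - y5) - (y3 + y4 - y2 - y6) * (x6 - x5) := by linarith only [F855]
  have F1196 : 0 < (-x4) * (y6 - y5) - (-y4) * (x6 - x5) := by linarith only [F851, F747]
  have F1227 : 0 < (x2 + x6 - x1 - x4) * (-q4) - (y2 + y6 - y1 - y4) * (-p4) := by linarith only [F934, F82]
  have F1234 : 0 < (x6 - x3 - x4) * (y2 + y5 - y6) - (y6 - y3 - y4) * (x2 + x5 - x6) := by linarith only [F964]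
  have F1255 : 0 < (-x4) * (y2 + y6 - y3 - y4) - (-y4) * (x2 + x6 - x3 - x4) :=
    plk11 (-x2) (-y2) (x6 - x5) (y6 - y5) (-x4) (-y4) (x2 + x6 - x3 - x4) (y2 + y6 - y3 - y4) (by linarith only [F353]) (by linarith only [F6]) (by linarith only [F1165]) (by linarith only [F760]) (by linarith only [F1196])
  have F1268 : 0 < (x1 - x2) * (y6 - y3 - y4) - (y1 - y2) * (x6 - x3 - x4) :=
    plk11 (-x1) (-y1) (x6 - x2 - x5) (y6 - y2 - y5) (x1 - x2) (y1 - y2) (x6 - x3 - x4) (y6 - y3 - y4) (by linarith only [F515]) (by linarith only [F172]) (by linarith only [F1234]) (by linarith only [F535]) (by linarith only [F1066])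
  have F1327 : 0 < (x4 - x6) * (y2 + y6 - y1 - y4) - (y4 - y6) * (x2 + x6 - x1 - x4) :=
    plk11 p4 q4 p10 q10 (x4 - x6) (y4 - y6) (x2 + x6 - x1 - x4) (y2 + y6 - y1 - y4) (by linarith only [F487]) (by linarith only [F847]) (by linarith only [F158]) (by linarith only [F1227]) (by linarith only [F159])
  have F1413 : 0 < (-x1 - x6) * (y1 + y6 - y3) - (-y1 - y6) * (x1 + x6 - x3) :=
    plk11 (-x1) (-y1) (-p11) (-q11) (-x1 - x6) (-y1 - y6) (x1 + x6 - x3) (y1 + y6 - y3) (by linarith only [F162]) (by linarith only [F194]) (by linarith only [F167]) (by linarith only [F753]) (by linarith only [F160])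
  have F1571 : 0 < (x3 - x2 - x6) * (-y4) - (y3 - y2 - y6) * (-x4) := by linarith only [F1255]
  have F1651 : 0 < (x2 - x1) * (y6 - y4) - (y2 - y1) * (x6 - x4) := by linarith only [F1327]
  have F1675 : 0 < (-x3) * (y1 + y6 - y3) - (-y3) * (x1 + x6 - x3) := by linarith only [F1413]
  have F1718 : 0 < (-x3) * (y3 - y2 - y6) - (-y3) * (x3 - x2 - x6) :=
    plk11 x4 y4 (-p7) (-q7) (-x3) (-y3) (x3 - x2 - x6) (y3 - y2 - y6) (by linarith only [F120]) (by linarith only [F9]) (by linarith only [F122]) (by linarith only [F1571]) (by linarith only [F114])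
  have F2059 : 0 < (-x3) * (y2 - y1) - (-y3) * (x2 - x1) := by linarith only [F1651, F1268]
  have F2125 : 0 < (x1 - x2) * y3 - (y1 - y2) * x3 := by linarith only [F1718, F1675]
  linarith only [F2125, F2059]

lemma patS6m (S : Sys 7) (e0 : S.adj 0 0) (e1 : S.adj 4 4) (e2 : S.adj 6 0) (e3 : S.adj 6 4) (e4 : (5, 1) ∈ S.E) (e5 : (5, 3) ∈ S.E) (e6 : S.adj 3 4) (e7 : (3, 0) ∈ S.E) (e8 : (2, 5) ∈ S.E) (e9 : (2, 6) ∈ S.E) (e10 : (1, 4) ∈ S.E) (e11 : (1, 6) ∈ S.E) : False := by
  refine patS6m_raw ((S.a 1).1 - (S.a 0).1) ((S.a 1).2 - (S.a 0).2) ((S.a 2).1 - (S.a 0).1) ((S.a 2).2 - (S.a 0).2) ((S.a 3).1 - (S.a 0).1) ((S.a 3).2 - (S.a 0).2) ((S.a 4).1 - (S.a 0).1) ((S.a 4).2 - (S.a 0).2) ((S.a 5).1 - (S.a 0).1) ((S.a 5).2 - (S.a 0).2) ((S.a 6).1 - (S.a 0).1) ((S.a 6).2 - (S.a 0).2) (S.τ (5, 1)).1 (S.τ (5, 1)).2 (S.τ (5, 3)).1 (S.τ (5, 3)).2 (S.τ (3, 0)).1 (S.τ (3, 0)).2 (S.τ (2, 5)).1 (S.τ (2, 5)).2 (S.τ (2, 6)).1 (S.τ (2, 6)).2 (S.τ (1, 4)).1 (S.τ (1, 4)).2 (S.τ (1,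 6)).1 (S.τ (1, 6)).2 ?_ ?_ ?_ ?_ ?_ ?_ ?_ ?_ ?_ ?_ ?_ ?_ ?_ ?_ ?_ ?_ ?_ ?_ ?_ ?_ ?_ ?_ ?_ ?_ ?_ ?_ ?_ ?_ ?_ ?_ ?_ ?_ ?_ ?_ ?_ ?_ ?_ ?_ ?_ ?_ ?_ ?_ ?_ ?_ ?_ ?_ ?_ ?_ ?_ ?_ ?_ ?_ ?_ ?_ ?_ ?_ ?_ ?_ ?_ ?_ ?_
  · have h := S.ccw 0 1 2 (by decide) (by decide) (by decide)
    simp only [dt, Prod.fst_sub, Prod.snd_sub, Prod.fst_add, Prod.snd_add] at h
    linarith only [h]
  · have h := S.ccw 0 1 3 (by decide) (by decide) (by decide)
    simp only [dt, Prod.fst_sub, Prod.snd_sub, Prod.fst_add, Prod.snd_add] at h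
    linarith only [h]
  · have h := S.ccw 0 1 4 (by decide) (by decide) (by decide)
    simp only [dt, Prod.fst_sub, Prod.snd_sub, Prod.fst_add, Prod.snd_add] at h
    linarith only [h]
  · have h := S.ccw 0 1 5 (by decide) (by decide) (by decide)
    simp only [dt, Prod.fst_sub, Prod.snd_sub, Prod.fst_add, Prod.snd_add] at h
    linarith only [h]
  · have h := S.ccw 0 1 6 (by decide) (by decide) (by decide)
    simp only [dt, Prod.fst_sub, Prod.snd_sub, Prod.fst_add, Prod.snd_add] at h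
    linarith only [h]
  · have h := S.ccw 0 2 3 (by decide) (by decide) (by decide)
    simp only [dt, Prod.fst_sub, Prod.snd_sub, Prod.fst_add, Prod.snd_add] at h
    linarith only [h]
  · have h := S.ccw 0 2 4 (by decide) (by decide) (by decide)
    simp only [dt, Prod.fst_sub, Prod.snd_sub, Prod.fst_add, Prod.snd_add] at h
    linarith only [h]
  · have h := S.ccw 0 2 5 (by decide) (by decide) (by decide)
    simp only [dt, Prod.fst_sub, Prod.snd_sub, Prod.fst_add, Prod.snd_add] at h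
    linarith only [h]
  · have h := S.ccw 0 3 4 (by decide) (by decide) (by decide)
    simp only [dt, Prod.fst_sub, Prod.snd_sub, Prod.fst_add, Prod.snd_add] at h
    linarith only [h]
  · have h := S.ccw 0 4 5 (by decide) (by decide) (by decide)
    simp only [dt, Prod.fst_sub, Prod.snd_sub, Prod.fst_add, Prod.snd_add] at h
    linarith only [h]
  · have h := S.ccw 0 5 6 (by decide) (by decide) (by decide)
    simp only [dt, Prod.fst_sub, Prod.snd_sub, Prod.fst_add, Prod.snd_add] at h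
    linarith only [h]
  · have h := S.ccw 1 2 5 (by decide) (by decide) (by decide)
    simp only [dt, Prod.fst_sub, Prod.snd_sub, Prod.fst_add, Prod.snd_add] at h
    linarith only [h]
  · have h := S.ccw 1 3 4 (by decide) (by decide) (by decide)
    simp only [dt, Prod.fst_sub, Prod.snd_sub, Prod.fst_add, Prod.snd_add] at h
    linarith only [h]
  · have h := S.ccw 1 3 5 (by decide) (by decide) (by decide)
    simp only [dt, Prod.fst_sub, Prod.snd_sub, Prod.fst_add, Prod.snd_add] at h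
    linarith only [h]
  · have h := S.ccw 1 4 5 (by decide) (by decide) (by decide)
    simp only [dt, Prod.fst_sub, Prod.snd_sub, Prod.fst_add, Prod.snd_add] at h
    linarith only [h]
  · have h := S.ccw 1 4 6 (by decide) (by decide) (by decide)
    simp only [dt, Prod.fst_sub, Prod.snd_sub, Prod.fst_add, Prod.snd_add] at h
    linarith only [h]
  · have h := S.ccw 1 5 6 (by decide) (by decide) (by decide)
    simp only [dt, Prod.fst_sub, Prod.snd_sub, Prod.fst_add, Prod.snd_add] at h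
    linarith only [h]
  · have h := S.ccw 2 3 4 (by decide) (by decide) (by decide)
    simp only [dt, Prod.fst_sub, Prod.snd_sub, Prod.fst_add, Prod.snd_add] at h
    linarith only [h]
  · have h := S.ccw 2 3 5 (by decide) (by decide) (by decide)
    simp only [dt, Prod.fst_sub, Prod.snd_sub, Prod.fst_add, Prod.snd_add] at h
    linarith only [h]
  · have h := S.ccw 2 4 5 (by decide) (by decide) (by decide)
    simp only [dt, Prod.fst_sub, Prod.snd_sub, Prod.fst_add, Prod.snd_add] at h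
    linarith only [h]
  · have h := S.ccw 2 4 6 (by decide) (by decide) (by decide)
    simp only [dt, Prod.fst_sub, Prod.snd_sub, Prod.fst_add, Prod.snd_add] at h
    linarith only [h]
  · have h := S.ccw 2 5 6 (by decide) (by decide) (by decide)
    simp only [dt, Prod.fst_sub, Prod.snd_sub, Prod.fst_add, Prod.snd_add] at h
    linarith only [h]
  · have h := S.sepA e4 e0 (by decide) (by decide)
    simp only [dt, Prod.fst_sub, Prod.snd_sub, Prod.fst_add, Prod.snd_add] at h
    linarith only [h]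
  · have h := S.sepA e4 e1 (by decide) (by decide)
    simp only [dt, Prod.fst_sub, Prod.snd_sub, Prod.fst_add, Prod.snd_add] at h
    linarith only [h]
  · have h := S.sepA e4 e2 (by decide) (by decide)
    simp only [dt, Prod.fst_sub, Prod.snd_sub, Prod.fst_add, Prod.snd_add] at h
    linarith only [h]
  · have h := S.sepA e4 e3 (by decide) (by decide)
    simp only [dt, Prod.fst_sub, Prod.snd_sub, Prod.fst_add, Prod.snd_add] at h
    linarith only [h]
  · have h := S.sepA e4 (Or.inl e5) (by decide) (by decide)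
    simp only [dt, Prod.fst_sub, Prod.snd_sub, Prod.fst_add, Prod.snd_add] at h
    linarith only [h]
  · have h := S.sepA e4 (Or.inl e8) (by decide) (by decide)
    simp only [dt, Prod.fst_sub, Prod.snd_sub, Prod.fst_add, Prod.snd_add] at h
    linarith only [h]
  · have h := S.sepA e4 (Or.inl e11) (by decide) (by decide)
    simp only [dt, Prod.fst_sub, Prod.snd_sub, Prod.fst_add, Prod.snd_add] at h
    linarith only [h]
  · have h := S.hdA e4 (by decide)
    simp only [dt, Prod.fst_sub, Prod.snd_sub, Prod.fst_add, Prod.snd_add] at h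
    linarith only [h]
  · have h := S.sepA e5 e6 (by decide) (by decide)
    simp only [dt, Prod.fst_sub, Prod.snd_sub, Prod.fst_add, Prod.snd_add] at h
    linarith only [h]
  · have h := S.sepA e5 (Or.inl e8) (by decide) (by decide)
    simp only [dt, Prod.fst_sub, Prod.snd_sub, Prod.fst_add, Prod.snd_add] at h
    linarith only [h]
  · have h := S.hdA e5 (by decide)
    simp only [dt, Prod.fst_sub, Prod.snd_sub, Prod.fst_add, Prod.snd_add] at h
    linarith only [h]
  · have h := S.sepA e7 e0 (by decide) (by decide)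
    simp only [dt, Prod.fst_sub, Prod.snd_sub, Prod.fst_add, Prod.snd_add] at h
    linarith only [h]
  · have h := S.sepA e7 e6 (by decide) (by decide)
    simp only [dt, Prod.fst_sub, Prod.snd_sub, Prod.fst_add, Prod.snd_add] at h
    linarith only [h]
  · have h := S.sepA e7 (Or.inl e9) (by decide) (by decide)
    simp only [dt, Prod.fst_sub, Prod.snd_sub, Prod.fst_add, Prod.snd_add] at h
    linarith only [h]
  · have h := S.sepA e8 e0 (by decide) (by decide)
    simp only [dt, Prod.fst_sub, Prod.snd_sub, Prod.fst_add, Prod.snd_add] at h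
    linarith only [h]
  · have h := S.sepA e8 e1 (by decide) (by decide)
    simp only [dt, Prod.fst_sub, Prod.snd_sub, Prod.fst_add, Prod.snd_add] at h
    linarith only [h]
  · have h := S.sepA e8 e2 (by decide) (by decide)
    simp only [dt, Prod.fst_sub, Prod.snd_sub, Prod.fst_add, Prod.snd_add] at h
    linarith only [h]
  · have h := S.sepA e8 (Or.inl e5) (by decide) (by decide)
    simp only [dt, Prod.fst_sub, Prod.snd_sub, Prod.fst_add, Prod.snd_add] at h
    linarith only [h]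
  · have h := S.sepA e8 e6 (by decide) (by decide)
    simp only [dt, Prod.fst_sub, Prod.snd_sub, Prod.fst_add, Prod.snd_add] at h
    linarith only [h]
  · have h := S.sepA e8 (Or.inl e9) (by decide) (by decide)
    simp only [dt, Prod.fst_sub, Prod.snd_sub, Prod.fst_add, Prod.snd_add] at h
    linarith only [h]
  · have h := S.hdA e8 (by decide)
    simp only [dt, Prod.fst_sub, Prod.snd_sub, Prod.fst_add, Prod.snd_add] at h
    linarith only [h]
  · have h := S.sepA e9 e2 (by decide) (by decide)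
    simp only [dt, Prod.fst_sub, Prod.snd_sub, Prod.fst_add, Prod.snd_add] at h
    linarith only [h]
  · have h := S.sepA e9 e3 (by decide) (by decide)
    simp only [dt, Prod.fst_sub, Prod.snd_sub, Prod.fst_add, Prod.snd_add] at h
    linarith only [h]
  · have h := S.sepA e9 e6 (by decide) (by decide)
    simp only [dt, Prod.fst_sub, Prod.snd_sub, Prod.fst_add, Prod.snd_add] at h
    linarith only [h]
  · have h := S.sepA e9 (Or.inl e8) (by decide) (by decide)
    simp only [dt, Prod.fst_sub, Prod.snd_sub, Prod.fst_add, Prod.snd_add] at h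
    linarith only [h]
  · have h := S.hdA e9 (by decide)
    simp only [dt, Prod.fst_sub, Prod.snd_sub, Prod.fst_add, Prod.snd_add] at h
    linarith only [h]
  · have h := S.sepA e10 e1 (by decide) (by decide)
    simp only [dt, Prod.fst_sub, Prod.snd_sub, Prod.fst_add, Prod.snd_add] at h
    linarith only [h]
  · have h := S.sepA e10 (Or.inl e4) (by decide) (by decide)
    simp only [dt, Prod.fst_sub, Prod.snd_sub, Prod.fst_add, Prod.snd_add] at h
    linarith only [h]
  · have h := S.sepA e10 e6 (by decide) (by decide)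
    simp only [dt, Prod.fst_sub, Prod.snd_sub, Prod.fst_add, Prod.snd_add] at h
    linarith only [h]
  · have h := S.sepA e10 (Or.inl e9) (by decide) (by decide)
    simp only [dt, Prod.fst_sub, Prod.snd_sub, Prod.fst_add, Prod.snd_add] at h
    linarith only [h]
  · have h := S.sepA e10 (Or.inl e11) (by decide) (by decide)
    simp only [dt, Prod.fst_sub, Prod.snd_sub, Prod.fst_add, Prod.snd_add] at h
    linarith only [h]
  · have h := S.sepA e11 e0 (by decide) (by decide)
    simp only [dt, Prod.fst_sub, Prod.snd_sub, Prod.fst_add, Prod.snd_add] at h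
    linarith only [h]
  · have h := S.sepA e11 e2 (by decide) (by decide)
    simp only [dt, Prod.fst_sub, Prod.snd_sub, Prod.fst_add, Prod.snd_add] at h
    linarith only [h]
  · have h := S.sepA e11 e3 (by decide) (by decide)
    simp only [dt, Prod.fst_sub, Prod.snd_sub, Prod.fst_add, Prod.snd_add] at h
    linarith only [h]
  · have h := S.sepA e11 (Or.inl e4) (by decide) (by decide)
    simp only [dt, Prod.fst_sub, Prod.snd_sub, Prod.fst_add, Prod.snd_add] at h
    linarith only [h]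
  · have h := S.sepA e11 (Or.inl e7) (by decide) (by decide)
    simp only [dt, Prod.fst_sub, Prod.snd_sub, Prod.fst_add, Prod.snd_add] at h
    linarith only [h]
  · have h := S.sepA e11 (Or.inl e9) (by decide) (by decide)
    simp only [dt, Prod.fst_sub, Prod.snd_sub, Prod.fst_add, Prod.snd_add] at h
    linarith only [h]
  · have h := S.sepA e11 (Or.inl e10) (by decide) (by decide)
    simp only [dt, Prod.fst_sub, Prod.snd_sub, Prod.fst_add, Prod.snd_add] at h
    linarith only [h]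
  · have h := S.hdA e11 (by decide)
    simp only [dt, Prod.fst_sub, Prod.snd_sub, Prod.fst_add, Prod.snd_add] at h
    linarith only [h]

end Pool.Agent.MP_3fce03_co
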