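import Pool.Agent.MP_3fce03_co.Basic

namespace Pool.Agent.MP_3fce03_co

set_option linter.unusedVariables false
set_option linter.unusedSimpArgs false
set_option linter.unusedTactic false
set_option linter.style.longLine false

lemma patS5_raw (x1 y1 x2 y2 x3 y3 x4 y4 x5 y5 x6 y6 p2 q2 p3 q3 p6 q6 p9 q9 p10 q10 : ℝ)
    (F0 : 0 < x1 * y2 - y1 * x2)
    (F1 : 0 < x1 * y3 - y1 * x3)
    (F3 : 0 < x1 * y5 - y1 * x5)
    (F4 : 0 < x1 * y6 - y1 * x6)
    (F5 : 0 < x2 * y3 - y2 * x3)
    (F6 : 0 < x2 * y4 - y2 * x4)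
    (F10 : 0 < x3 * y5 - y3 * x5)
    (F11 : 0 < x3 * y6 - y3 * x6)
    (F14 : 0 < x5 * y6 - y5 * x6)
    (F17 : 0 < (x2 - x1) * (y5 - y1) - (y2 - y1) * (x5 - x1))
    (F18 : 0 < (x2 - x1) * (y6 - y1) - (y2 - y1) * (x6 - x1))
    (F21 : 0 < (x3 - x1) * (y6 - y1) - (y3 - y1) * (x6 - x1))
    (F24 : 0 < (x5 - x1) * (y6 - y1) - (y5 - y1) * (x6 - x1))
    (F25 : 0 < (x3 - x2) * (y4 - y2) - (y3 - y2) * (x4 - x2))
    (F26 : 0 < (x3 - x2) * (y5 - y2) - (y3 - y2) * (x5 - x2))
    (F57 : 0 < (x1 + x6) * q2 - (y1 + y6) * p2)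
    (F59 : 0 < (x6 - x3) * q2 - (y6 - y3) * p2)
    (F60 : 0 < (x1 + x6 - x2) * q2 - (y1 + y6 - y2) * p2)
    (F65 : 0 < (x6 - x5) * q2 - (y6 - y5) * p2)
    (F66 : 0 < (x1 - x3) * q2 - (y1 - y3) * p2)
    (F67 : 0 < x1 * q2 - y1 * p2)
    (F68 : 0 < (x1 - x6) * q2 - (y1 - y6) * p2)
    (F69 : 0 < (x1 + x3) * q3 - (y1 + y3) * p3)
    (F70 : 0 < (x1 - x3) * q3 - (y1 - y3) * p3)
    (F72 : 0 < (x1 + x3 - x2) * q3 - (y1 + y3 - y2) * p3)
    (F73 : 0 < (x1 - x2) * q3 - (y1 - y2) * p3)
    (F77 : 0 < (x3 - x5) * q3 - (y3 - y5) * p3)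
    (F78 : 0 < (x1 - x6) * q3 - (y1 - y6) * p3)
    (F103 : 0 < (x2 + x4 - 2*x3) * q6 - (y2 + y4 - 2*y3) * p6)
    (F108 : 0 < x2 * q6 - y2 * p6)
    (F113 : 0 < (x4 - x2) * q6 - (y4 - y2) * p6)
    (F137 : 0 < (x1 + x5) * q9 - (y1 + y5) * p9)
    (F145 : 0 < (x1 - x2) * q9 - (y1 - y2) * p9)
    (F146 : 0 < (x1 + x5 - x3 - x6) * q9 - (y1 + y5 - y3 - y6) * p9)
    (F147 : 0 < (x1 + x5 - x6) * q9 - (y1 + y5 - y6) * p9)
    (F148 : 0 < (x5 - x1) * q9 - (y5 - y1) * p9)
    (F150 : 0 < (x6 - x3) * q10 - (y6 - y3) * p10)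
    (F152 : 0 < (x6 - x1) * q10 - (y6 - y1) * p10)
    (F156 : 0 < (x3 + x6 - x4) * q10 - (y3 + y6 - y4) * p10)
    (F157 : 0 < (x3 + x6 - x2 - x5) * q10 - (y3 + y6 - y2 - y5) * p10)
    (F158 : 0 < (x3 + x6 - x1 - x5) * q10 - (y3 + y6 - y1 - y5) * p10)
    (F159 : 0 < x3 * q10 - y3 * p10) : False := by
  rcases lt_or_ge 0 ((x1 - x6) * (y3 - y5) - (y1 - y6) * (x3 - x5)) with hs0 | hs0
  · skip
    have F171 : 0 < (x2 - x1) * (-y1) - (y2 - y1) * (-x1) := by linarith only [F0]
    have F179 : 0 < (x3 - x1) * (-y1) - (y3 - y1) * (-x1) := by linarith only [F1]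
    have F189 : 0 < (x5 - x1) * (-y1) - (y5 - y1) * (-x1) := by linarith only [F3]
    have F193 : 0 < (x5 - x1) * (-y5) - (y5 - y1) * (-x5) := by linarith only [F3]
    have F194 : 0 < (-x1 - x6) * y1 - (-y1 - y6) * x1 := by linarith only [F4]
    have F200 : 0 < (x6 - x1) * (-y5) - (y6 - y1) * (-x5) := by linarith only [F3, F14]
    have F201 : 0 < (x6 - x1) * (-y6) - (y6 - y1) * (-x6) := by linarith only [F4]
    have F226 : 0 < (x4 - x2) * (-y2) - (y4 - y2) * (-x2) := by linarith only [F6]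
    have F254 : 0 < (x6 - x3) * (-y3) - (y6 - y3) * (-x3) := by linarith only [F11]
    have F257 : 0 < (x6 - x3) * (-y6) - (y6 - y3) * (-x6) := by linarith only [F11]
    have F274 : 0 < (2*x6 - x5) * (-y5) - (2*y6 - y5) * (-x5) := by linarith only [F14]
    have F300 : 0 < (x6 - x3) * (y1 - y3) - (y6 - y3) * (x1 - x3) := by linarith only [F21]
    have F303 : 0 < (x6 - x3) * (y1 - y6) - (y6 - y3) * (x1 - x6) := by linarith only [F21]
    have F315 : 0 < (x6 - x5) * (y1 - y5) - (y6 - y5) * (x1 - x5) := by linarith only [F24]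
    have F317 : 0 < (-x5) * (-q9) - (-y5) * (-p9) := by linarith only [F148, F137]
    have F318 : 0 < (x1 - x5) * q2 - (y1 - y5) * p2 := by linarith only [F68, F65]
    have F321 : 0 < (x2 + x4 - 2*x3) * (y2 - y3) - (y2 + y4 - 2*y3) * (x2 - x3) := by linarith only [F25]
    have F322 : 0 < (x2 + x4 - 2*x3) * (y2 - y4) - (y2 + y4 - 2*y3) * (x2 - x4) := by linarith only [F25]
    have F351 : 0 < (-x1) * (y6 - y3) - (-y1) * (x6 - x3) :=
      plk11 (x3 - x1) (y3 - y1) (-p2) (-q2) (-x1) (-y1) (x6 - x3) (y6 - y3) (by linarith only [F66]) (by linarith only [F179]) (by linarith only [F59]) (by linarith only [F300]) (by linarith only [F67])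
    have F352 : 0 < (-x1) * (y6 - y5) - (-y1) * (x6 - x5) :=
      plk11 (x5 - x1) (y5 - y1) (-p2) (-q2) (-x1) (-y1) (x6 - x5) (y6 - y5) (by linarith only [F318]) (by linarith only [F189]) (by linarith only [F65]) (by linarith only [F315]) (by linarith only [F67])
    have F356 : 0 < (-x1) * q9 - (-y1) * p9 :=
      plk01 (x2 - x1) (y2 - y1) (x5 - x1) (y5 - y1) (-x1) (-y1) p9 q9 (by linarith only [F17]) (by linarith only [F171]) (by linarith only [F148]) (by linarith only [F145]) (by linarith only [F189])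
    have F359 : 0 < (-x2) * (2*y3 - y2 - y4) - (-y2) * (2*x3 - x2 - x4) :=
      plk01 (x4 - x2) (y4 - y2) p6 q6 (-x2) (-y2) (2*x3 - x2 - x4) (2*y3 - y2 - y4) (by linarith only [F113]) (by linarith only [F226]) (by linarith only [F103]) (by linarith only [F322]) (by linarith only [F108])
    have F367 : 0 < (-x5) * (y2 - y1) - (-y5) * (x2 - x1) :=
      plk01 (x5 - x1) (y5 - y1) p9 q9 (-x5) (-y5) (x2 - x1) (y2 - y1) (by linarith only [F148]) (by linarith only [F193]) (by linarith only [F145]) (by linarith only [F17]) (by linarith only [F317])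
    have F374 : 0 < (-x6) * q2 - (-y6) * p2 :=
      plk01 (x6 - x1) (y6 - y1) (x6 - x3) (y6 - y3) (-x6) (-y6) p2 q2 (by linarith only [F303]) (by linarith only [F201]) (by linarith only [F59]) (by linarith only [F68]) (by linarith only [F257])
    have F421 : 0 < (x1 - x6) * (-q9) - (y1 - y6) * (-p9) :=
      plk01 (x1 - x2) (y1 - y2) (x1 - x5) (y1 - y5) (x1 - x6) (y1 - y6) (-p9) (-q9) (by linarith only [F17]) (by linarith only [F18]) (by linarith only [F148]) (by linarith only [F145]) (by linarith only [F24])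
    have F529 : 0 < (x6 - x1 - x5) * y1 - (y6 - y1 - y5) * x1 := by linarith only [F352]
    have F543 : 0 < (-x3) * (2*y3 - y2 - y4) - (-y3) * (2*x3 - x2 - x4) := by linarith only [F359, F321]
    have F642 : 0 < (x1 - x2) * q2 - (y1 - y2) * p2 := by linarith only [F374, F60]
    have F760 : 0 < (-x1) * q10 - (-y1) * p10 :=
      plk11 x3 y3 (x6 - x3) (y6 - y3) (-x1) (-y1) p10 q10 (by linarith only [F254]) (by linarith only [F1]) (by linarith only [F150]) (by linarith only [F159]) (by linarith only [F351])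
    have F782 : 0 < (x1 - x2) * (y1 + y6) - (y1 - y2) * (x1 + x6) :=
      plk01 (-x1) (-y1) (-p2) (-q2) (x1 - x2) (y1 - y2) (x1 + x6) (y1 + y6) (by linarith only [F67]) (by linarith only [F171]) (by linarith only [F57]) (by linarith only [F194]) (by linarith only [F642])
    have F788 : 0 < (x1 - x2) * (y6 - y1 - y5) - (y1 - y2) * (x6 - x1 - x5) :=
      plk11 (-x1) (-y1) p9 q9 (x1 - x2) (y1 - y2) (x6 - x1 - x5) (y6 - y1 - y5) (by linarith only [F356]) (by linarith only [F171]) (by linarith only [F147]) (by linarith only [F529]) (by linarith only [F145])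
    have F1119 : 0 < (x5 - 2*x6) * (y1 - y2) - (y5 - 2*y6) * (x1 - x2) := by linarith only [F782, F788]
    have F1159 : 0 < (-x1) * (2*y6 - y5) - (-y1) * (2*x6 - x5) :=
      plk11 x5 y5 (x1 - x2) (y1 - y2) (-x1) (-y1) (2*x6 - x5) (2*y6 - y5) (by linarith only [F367]) (by linarith only [F3]) (by linarith only [F1119]) (by linarith only [F274]) (by linarith only [F171])
    have F1169 : 0 < (x1 - x6) * (y5 - 2*y6) - (y1 - y6) * (x5 - 2*x6) :=
      plk11 (-x5) (-y5) (x2 - x1) (y2 - y1) (x1 - x6) (y1 - y6) (x5 - 2*x6) (y5 - 2*y6) (by linarith only [F367]) (by linarith only [F200]) (by linarith only [F1119]) (by linarith only [F274]) (by linarith only [F18])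
    have F1201 : 0 < (-x1 - x6) * (y6 - y1 - y5) - (-y1 - y6) * (x6 - x1 - x5) :=
      plk11 (-x1) (-y1) (x1 - x2) (y1 - y2) (-x1 - x6) (-y1 - y6) (x6 - x1 - x5) (y6 - y1 - y5) (by linarith only [F171]) (by linarith only [F194]) (by linarith only [F788]) (by linarith only [F529]) (by linarith only [F782])
    have F1204 : 0 < (-x1 - x6) * q9 - (-y1 - y6) * p9 :=
      plk11 (-x1) (-y1) (x1 - x2) (y1 - y2) (-x1 - x6) (-y1 - y6) p9 q9 (by linarith only [F171]) (by linarith only [F194]) (by linarith only [F145]) (by linarith only [F356]) (by linarith only [F782])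
    have F1334 : 0 < (x5 - 2*x6) * (y6 - y1 - y5) - (y5 - 2*y6) * (x6 - x1 - x5) := by linarith only [F1201]
    have F1335 : 0 < (x5 - 2*x6) * q9 - (y5 - 2*y6) * p9 := by linarith only [F1204, F147]
    have F1363 : 0 < (x1 - x6) * (y3 - y5) - (y1 - y6) * (x3 - x5) := by linarith only [hs0]
    have F1366 : 0 < (x1 + x5 - x3 - x6) * (y1 - y6) - (y1 + y5 - y3 - y6) * (x1 - x6) := by linarith only [F1363]
    have F1394 : 0 < (x1 + x5 - x3 - x6) * (2*y6 - y5) - (y1 + y5 - y3 - y6) * (2*x6 - x5) :=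
      plk11 (x6 - x1) (y6 - y1) p9 q9 (x1 + x5 - x3 - x6) (y1 + y5 - y3 - y6) (2*x6 - x5) (2*y6 - y5) (by linarith only [F421]) (by linarith only [F1366]) (by linarith only [F1335]) (by linarith only [F1169]) (by linarith only [F146])
    have F1424 : 0 < (-x3) * (2*y6 - y5) - (-y3) * (2*x6 - x5) := by linarith only [F1394, F1334]
    have F1475 : 0 < (x5 - 2*x6) * q10 - (y5 - 2*y6) * p10 :=
      plk01 x1 y1 x3 y3 (x5 - 2*x6) (y5 - 2*y6) p10 q10 (by linarith only [F1]) (by linarith only [F1159]) (by linarith only [F159]) (by linarith only [F760]) (by linarith only [F1424])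
    have F1482 : 0 < (x2 + x6 - x3) * (-q10) - (y2 + y6 - y3) * (-p10) := by linarith only [F157, F1475]
    have F1485 : 0 < x2 * (-q10) - y2 * (-p10) := by linarith only [F150, F1482]
    have F1487 : 0 < (x2 + x4 - 2*x3) * (-q10) - (y2 + y4 - 2*y3) * (-p10) := by linarith only [F156, F1482]
    have F1488 : 0 < (-x1) * (y2 + y4 - 2*y3) - (-y1) * (x2 + x4 - 2*x3) :=
      plk11 x3 y3 p10 q10 (-x1) (-y1) (x2 + x4 - 2*x3) (y2 + y4 - 2*y3) (by linarith only [F159]) (by linarith only [F1]) (by linarith only [F1487]) (by linarith only [F543]) (by linarith only [F760])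
    have F1489 : 0 < (-x1) * (2*y3 - y2 - y4) - (-y1) * (2*x3 - x2 - x4) :=
      plk01 x2 y2 (-p10) (-q10) (-x1) (-y1) (2*x3 - x2 - x4) (2*y3 - y2 - y4) (by linarith only [F1485]) (by linarith only [F0]) (by linarith only [F1487]) (by linarith only [F359]) (by linarith only [F760])
    linarith only [F1489, F1488]
  · skip
    have F171 : 0 < (x2 - x1) * (-y1) - (y2 - y1) * (-x1) := by linarith only [F0]
    have F189 : 0 < (x5 - x1) * (-y1) - (y5 - y1) * (-x1) := by linarith only [F3]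
    have F196 : 0 < (x6 - x1) * (-y1) - (y6 - y1) * (-x1) := by linarith only [F4]
    have F198 : 0 < (x6 - x1) * (-y3) - (y6 - y1) * (-x3) := by linarith only [F1, F11]
    have F201 : 0 < (x6 - x1) * (-y6) - (y6 - y1) * (-x6) := by linarith only [F4]
    have F217 : 0 < (x3 - x2) * (-y3) - (y3 - y2) * (-x3) := by linarith only [F5]
    have F247 : 0 < (x5 - x3) * (-y3) - (y5 - y3) * (-x3) := by linarith only [F10]
    have F265 : 0 < (-x6) * (-q10) - (-y6) * (-p10) := by linarith only [F159, F150]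
    have F308 : 0 < (x1 - x5) * q3 - (y1 - y5) * p3 := by linarith only [F70, F77]
    have F309 : 0 < x1 * q3 - y1 * p3 := by linarith only [F70, F69]
    have F323 : 0 < (x5 - x3) * (y2 - y3) - (y5 - y3) * (x2 - x3) := by linarith only [F26]
    have F356 : 0 < (-x1) * q9 - (-y1) * p9 :=
      plk01 (x2 - x1) (y2 - y1) (x5 - x1) (y5 - y1) (-x1) (-y1) p9 q9 (by linarith only [F17]) (by linarith only [F171]) (by linarith only [F148]) (by linarith only [F145]) (by linarith only [F189])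
    have F421 : 0 < (x1 - x6) * (-q9) - (y1 - y6) * (-p9) :=
      plk01 (x1 - x2) (y1 - y2) (x1 - x5) (y1 - y5) (x1 - x6) (y1 - y6) (-p9) (-q9) (by linarith only [F17]) (by linarith only [F18]) (by linarith only [F148]) (by linarith only [F145]) (by linarith only [F24])
    have F492 : 0 < p3 * (-q9) - q3 * (-p9) :=
      plk01 (x1 - x2) (y1 - y2) (x1 - x5) (y1 - y5) p3 q3 (-p9) (-q9) (by linarith only [F17]) (by linarith only [F73]) (by linarith only [F148]) (by linarith only [F145]) (by linarith only [F308])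
    have F1363 : 0 ≤ (x3 - x5) * (y1 - y6) - (y3 - y5) * (x1 - x6) := by linarith only [hs0]
    have F1366 : 0 ≤ (x1 + x5 - x3 - x6) * (y6 - y1) - (y1 + y5 - y3 - y6) * (x6 - x1) := by linarith only [F1363]
    have F1374 : 0 < (-x1) * (y3 + y6 - y1 - y5) - (-y1) * (x3 + x6 - x1 - x5) :=
      plk11 (x6 - x1) (y6 - y1) p9 q9 (-x1) (-y1) (x3 + x6 - x1 - x5) (y3 + y6 - y1 - y5) (by linarith only [F421]) (by linarith only [F196]) (by linarith only [F146]) (by linarith only [F1366]) (by linarith only [F356])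
    have F1380 : 0 < (-x3) * (y1 + y5 - y3 - y6) - (-y3) * (x1 + x5 - x3 - x6) :=
      plk01 (x6 - x1) (y6 - y1) p10 q10 (-x3) (-y3) (x1 + x5 - x3 - x6) (y1 + y5 - y3 - y6) (by linarith only [F152]) (by linarith only [F198]) (by linarith only [F158]) (by linarith only [F1366]) (by linarith only [F159])
    have F1388 : 0 < (-x6) * (y1 + y5 - y3 - y6) - (-y6) * (x1 + x5 - x3 - x6) :=
      plk01 (x6 - x1) (y6 - y1) p10 q10 (-x6) (-y6) (x1 + x5 - x3 - x6) (y1 + y5 - y3 - y6) (by linarith only [F152]) (by linarith only [F201]) (by linarith only [F158]) (by linarith only [F1366]) (by linarith only [F265])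
    have F1389 : 0 < (x1 - x2) * (y3 + y6 - y1 - y5) - (y1 - y2) * (x3 + x6 - x1 - x5) :=
      plk11 (x6 - x1) (y6 - y1) p9 q9 (x1 - x2) (y1 - y2) (x3 + x6 - x1 - x5) (y3 + y6 - y1 - y5) (by linarith only [F421]) (by linarith only [F18]) (by linarith only [F146]) (by linarith only [F1366]) (by linarith only [F145])
    have F1399 : 0 < (x1 - x6) * (y3 - y2) - (y1 - y6) * (x3 - x2) :=
      plk01 (-x3) (-y3) (x3 - x5) (y3 - y5) (x1 - x6) (y1 - y6) (x3 - x2) (y3 - y2) (by linarith only [F247]) (by linarith only [F198]) (by linarith only [F323]) (by linarith only [F217]) (by linarith only [F1363])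
    have F1494 : 0 < (x1 + x5 - x3 - x6) * (-q3) - (y1 + y5 - y3 - y6) * (-p3) :=
      plk00 (x1 - x6) (y1 - y6) (-p9) (-q9) (x1 + x5 - x3 - x6) (y1 + y5 - y3 - y6) (-p3) (-q3) (by linarith only [F421]) (by linarith only [F1366]) (by linarith only [F492]) (by linarith only [F78]) (by linarith only [F146])
    have F1500 : 0 < (x6 - x1) * (y3 + y6 - y1 - y5) - (y6 - y1) * (x3 + x6 - x1 - x5) := by linarith only [F1374, F1388]
    have F1501 : 0 < (x2 - x1 - x3) * (y1 - y6) - (y2 - y1 - y3) * (x1 - x6) := by linarith only [F196, F1399]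
    have F1511 : 0 < (x2 - x1 - x3) * (y1 + y5 - y3 - y6) - (y2 - y1 - y3) * (x1 + x5 - x3 - x6) := by linarith only [F1380, F1389]
    have F1638 : 0 < (-x1) * (y2 - y1 - y3) - (-y1) * (x2 - x1 - x3) :=
      plk11 (x6 - x1) (y6 - y1) (x3 + x6 - x1 - x5) (y3 + y6 - y1 - y5) (-x1) (-y1) (x2 - x1 - x3) (y2 - y1 - y3) (by linarith only [F1500]) (by linarith only [F196]) (by linarith only [F1511]) (by linarith only [F1501]) (by linarith only [F1374])
    have F1639 : 0 < (-x1) * (y1 + y3 - y2) - (-y1) * (x1 + x3 - x2) :=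
      plk11 (x1 + x5 - x3 - x6) (y1 + y5 - y3 - y6) (-p3) (-q3) (-x1) (-y1) (x1 + x3 - x2) (y1 + y3 - y2) (by linarith only [F1494]) (by linarith only [F1374]) (by linarith only [F72]) (by linarith only [F1511]) (by linarith only [F309])
    linarith only [F1639, F1638]

lemma patS5 (S : Sys 7) (e0 : S.adj 0 0) (e1 : S.adj 3 3) (e2 : (1, 6) ∈ S.E) (e3 : (1, 3) ∈ S.E) (e4 : S.adj 2 0) (e5 : S.adj 2 3) (e6 : (4, 2) ∈ S.E) (e7 : S.adj 4 0) (e8 : S.adj 5 2) (e9 : (5, 1) ∈ S.E) (e10 : (6, 3) ∈ S.E) (e11 : S.adj 6 0) : False := by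
  refine patS5_raw ((S.a 1).1 - (S.a 0).1) ((S.a 1).2 - (S.a 0).2) ((S.a 2).1 - (S.a 0).1) ((S.a 2).2 - (S.a 0).2) ((S.a 3).1 - (S.a 0).1) ((S.a 3).2 - (S.a 0).2) ((S.a 4).1 - (S.a 0).1) ((S.a 4).2 - (S.a 0).2) ((S.a 5).1 - (S.a 0).1) ((S.a 5).2 - (S.a 0).2) ((S.a 6).1 - (S.a 0).1) ((S.a 6).2 - (S.a 0).2) (S.τ (1, 6)).1 (S.τ (1, 6)).2 (S.τ (1, 3)).1 (S.τ (1, 3)).2 (S.τ (4, 2)).1 (S.τ (4, 2)).2 (S.τ (5, 1)).1 (S.τ (5, 1)).2 (S.τ (6, 3)).1 (S.τ (6, 3)).2 ?_ ?_ ?_ ?_ ?_ ?_ ?_ ?_ ?_ ?_ ?_ ?_ ?_ ?_ ?_ ?_ ?_ ?_ ?_ ?_ ?_ ?_ ?_ ?_ ?_ ?_ ?_ ?_ ?_ ?_ ?_ ?_ ?_ ?_ ?_ ?_ ?_ ?_ ?_ ?_ ?_ ?_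
  · have h := S.ccw 0 1 2 (by decide) (by decide) (by decide)
    simp only [dt, Prod.fst_sub, Prod.snd_sub, Prod.fst_add, Prod.snd_add] at h
    linarith only [h]
  · have h := S.ccw 0 1 3 (by decide) (by decide) (by decide)
    simp only [dt, Prod.fst_sub, Prod.snd_sub, Prod.fst_add, Prod.snd_add] at h
    linarith only [h]
  · have h := S.ccw 0 1 5 (by decide) (by decide) (by decide)
    simp only [dt, Prod.fst_sub, Prod.snd_sub, Prod.fst_add, Prod.snd_add] at h
    linarith only [h]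
  · have h := S.ccw 0 1 6 (by decide) (by decide) (by decide)
    simp only [dt, Prod.fst_sub, Prod.snd_sub, Prod.fst_add, Prod.snd_add] at h
    linarith only [h]
  · have h := S.ccw 0 2 3 (by decide) (by decide) (by decide)
    simp only [dt, Prod.fst_sub, Prod.snd_sub, Prod.fst_add, Prod.snd_add] at h
    linarith only [h]
  · have h := S.ccw 0 2 4 (by decide) (by decide) (by decide)
    simp only [dt, Prod.fst_sub, Prod.snd_sub, Prod.fst_add, Prod.snd_add] at h
    linarith only [h]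
  · have h := S.ccw 0 3 5 (by decide) (by decide) (by decide)
    simp only [dt, Prod.fst_sub, Prod.snd_sub, Prod.fst_add, Prod.snd_add] at h
    linarith only [h]
  · have h := S.ccw 0 3 6 (by decide) (by decide) (by decide)
    simp only [dt, Prod.fst_sub, Prod.snd_sub, Prod.fst_add, Prod.snd_add] at h
    linarith only [h]
  · have h := S.ccw 0 5 6 (by decide) (by decide) (by decide)
    simp only [dt, Prod.fst_sub, Prod.snd_sub, Prod.fst_add, Prod.snd_add] at h
    linarith only [h]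
  · have h := S.ccw 1 2 5 (by decide) (by decide) (by decide)
    simp only [dt, Prod.fst_sub, Prod.snd_sub, Prod.fst_add, Prod.snd_add] at h
    linarith only [h]
  · have h := S.ccw 1 2 6 (by decide) (by decide) (by decide)
    simp only [dt, Prod.fst_sub, Prod.snd_sub, Prod.fst_add, Prod.snd_add] at h
    linarith only [h]
  · have h := S.ccw 1 3 6 (by decide) (by decide) (by decide)
    simp only [dt, Prod.fst_sub, Prod.snd_sub, Prod.fst_add, Prod.snd_add] at h
    linarith only [h]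
  · have h := S.ccw 1 5 6 (by decide) (by decide) (by decide)
    simp only [dt, Prod.fst_sub, Prod.snd_sub, Prod.fst_add, Prod.snd_add] at h
    linarith only [h]
  · have h := S.ccw 2 3 4 (by decide) (by decide) (by decide)
    simp only [dt, Prod.fst_sub, Prod.snd_sub, Prod.fst_add, Prod.snd_add] at h
    linarith only [h]
  · have h := S.ccw 2 3 5 (by decide) (by decide) (by decide)
    simp only [dt, Prod.fst_sub, Prod.snd_sub, Prod.fst_add, Prod.snd_add] at h
    linarith only [h]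
  · have h := S.sepA e2 e0 (by decide) (by decide)
    simp only [dt, Prod.fst_sub, Prod.snd_sub, Prod.fst_add, Prod.snd_add] at h
    linarith only [h]
  · have h := S.sepA e2 (Or.inl e3) (by decide) (by decide)
    simp only [dt, Prod.fst_sub, Prod.snd_sub, Prod.fst_add, Prod.snd_add] at h
    linarith only [h]
  · have h := S.sepA e2 e4 (by decide) (by decide)
    simp only [dt, Prod.fst_sub, Prod.snd_sub, Prod.fst_add, Prod.snd_add] at h
    linarith only [h]
  · have h := S.sepA e2 (Or.inl e9) (by decide) (by decide)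
    simp only [dt, Prod.fst_sub, Prod.snd_sub, Prod.fst_add, Prod.snd_add] at h
    linarith only [h]
  · have h := S.sepA e2 (Or.inl e10) (by decide) (by decide)
    simp only [dt, Prod.fst_sub, Prod.snd_sub, Prod.fst_add, Prod.snd_add] at h
    linarith only [h]
  · have h := S.sepA e2 e11 (by decide) (by decide)
    simp only [dt, Prod.fst_sub, Prod.snd_sub, Prod.fst_add, Prod.snd_add] at h
    linarith only [h]
  · have h := S.hdA e2 (by decide)
    simp only [dt, Prod.fst_sub, Prod.snd_sub, Prod.fst_add, Prod.snd_add] at h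
    linarith only [h]
  · have h := S.sepA e3 e0 (by decide) (by decide)
    simp only [dt, Prod.fst_sub, Prod.snd_sub, Prod.fst_add, Prod.snd_add] at h
    linarith only [h]
  · have h := S.sepA e3 e1 (by decide) (by decide)
    simp only [dt, Prod.fst_sub, Prod.snd_sub, Prod.fst_add, Prod.snd_add] at h
    linarith only [h]
  · have h := S.sepA e3 e4 (by decide) (by decide)
    simp only [dt, Prod.fst_sub, Prod.snd_sub, Prod.fst_add, Prod.snd_add] at h
    linarith only [h]
  · have h := S.sepA e3 e5 (by decide) (by decide)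
    simp only [dt, Prod.fst_sub, Prod.snd_sub, Prod.fst_add, Prod.snd_add] at h
    linarith only [h]
  · have h := S.sepA e3 (Or.inl e9) (by decide) (by decide)
    simp only [dt, Prod.fst_sub, Prod.snd_sub, Prod.fst_add, Prod.snd_add] at h
    linarith only [h]
  · have h := S.sepA e3 (Or.inl e10) (by decide) (by decide)
    simp only [dt, Prod.fst_sub, Prod.snd_sub, Prod.fst_add, Prod.snd_add] at h
    linarith only [h]
  · have h := S.sepA e6 e1 (by decide) (by decide)
    simp only [dt, Prod.fst_sub, Prod.snd_sub, Prod.fst_add, Prod.snd_add] at h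
    linarith only [h]
  · have h := S.sepA e6 e7 (by decide) (by decide)
    simp only [dt, Prod.fst_sub, Prod.snd_sub, Prod.fst_add, Prod.snd_add] at h
    linarith only [h]
  · have h := S.hdA e6 (by decide)
    simp only [dt, Prod.fst_sub, Prod.snd_sub, Prod.fst_add, Prod.snd_add] at h
    linarith only [h]
  · have h := S.sepA e9 e0 (by decide) (by decide)
    simp only [dt, Prod.fst_sub, Prod.snd_sub, Prod.fst_add, Prod.snd_add] at h
    linarith only [h]
  · have h := S.sepA e9 e8 (by decide) (by decide)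
    simp only [dt, Prod.fst_sub, Prod.snd_sub, Prod.fst_add, Prod.snd_add] at h
    linarith only [h]
  · have h := S.sepA e9 (Or.inl e10) (by decide) (by decide)
    simp only [dt, Prod.fst_sub, Prod.snd_sub, Prod.fst_add, Prod.snd_add] at h
    linarith only [h]
  · have h := S.sepA e9 e11 (by decide) (by decide)
    simp only [dt, Prod.fst_sub, Prod.snd_sub, Prod.fst_add, Prod.snd_add] at h
    linarith only [h]
  · have h := S.hdA e9 (by decide)
    simp only [dt, Prod.fst_sub, Prod.snd_sub, Prod.fst_add, Prod.snd_add] at h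
    linarith only [h]
  · have h := S.sepA e10 e1 (by decide) (by decide)
    simp only [dt, Prod.fst_sub, Prod.snd_sub, Prod.fst_add, Prod.snd_add] at h
    linarith only [h]
  · have h := S.sepA e10 (Or.inl e3) (by decide) (by decide)
    simp only [dt, Prod.fst_sub, Prod.snd_sub, Prod.fst_add, Prod.snd_add] at h
    linarith only [h]
  · have h := S.sepA e10 e7 (by decide) (by decide)
    simp only [dt, Prod.fst_sub, Prod.snd_sub, Prod.fst_add, Prod.snd_add] at h
    linarith only [h]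
  · have h := S.sepA e10 e8 (by decide) (by decide)
    simp only [dt, Prod.fst_sub, Prod.snd_sub, Prod.fst_add, Prod.snd_add] at h
    linarith only [h]
  · have h := S.sepA e10 (Or.inl e9) (by decide) (by decide)
    simp only [dt, Prod.fst_sub, Prod.snd_sub, Prod.fst_add, Prod.snd_add] at h
    linarith only [h]
  · have h := S.sepA e10 e11 (by decide) (by decide)
    simp only [dt, Prod.fst_sub, Prod.snd_sub, Prod.fst_add, Prod.snd_add] at h
    linarith only [h]

lemma patS5m_raw (x1 y1 x2 y2 x3 y3 x4 y4 x5 y5 x6 y6 p2 q2 p4 q4 p6 q6 p9 q9 p10 q10 : ℝ)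
    (F0 : 0 < x1 * y2 - y1 * x2)
    (F1 : 0 < x1 * y3 - y1 * x3)
    (F2 : 0 < x1 * y4 - y1 * x4)
    (F3 : 0 < x1 * y5 - y1 * x5)
    (F4 : 0 < x1 * y6 - y1 * x6)
    (F7 : 0 < x2 * y5 - y2 * x5)
    (F8 : 0 < x2 * y6 - y2 * x6)
    (F9 : 0 < x3 * y4 - y3 * x4)
    (F10 : 0 < x3 * y5 - y3 * x5)
    (F12 : 0 < x4 * y5 - y4 * x5)
    (F13 : 0 < x4 * y6 - y4 * x6)
    (F14 : 0 < x5 * y6 - y5 * x6)
    (F18 : 0 < (x2 - x1) * (y6 - y1) - (y2 - y1) * (x6 - x1))
    (F22 : 0 < (x4 - x1) * (y5 - y1) - (y4 - y1) * (x5 - x1))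
    (F23 : 0 < (x4 - x1) * (y6 - y1) - (y4 - y1) * (x6 - x1))
    (F30 : 0 < (x5 - x2) * (y6 - y2) - (y5 - y2) * (x6 - x2))
    (F31 : 0 < (x4 - x3) * (y5 - y3) - (y4 - y3) * (x5 - x3))
    (F34 : 0 < (x5 - x4) * (y6 - y4) - (y5 - y4) * (x6 - x4))
    (F57 : 0 < (x1 + x6) * q2 - (y1 + y6) * p2)
    (F59 : 0 < (x1 - x4) * q2 - (y1 - y4) * p2)
    (F60 : 0 < (x1 + x6 - x5) * q2 - (y1 + y6 - y5) * p2)
    (F65 : 0 < (x1 - x2) * q2 - (y1 - y2) * p2)
    (F66 : 0 < (x6 - x4) * q2 - (y6 - y4) * p2)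
    (F67 : 0 < x6 * q2 - y6 * p2)
    (F68 : 0 < (x6 - x1) * q2 - (y6 - y1) * p2)
    (F80 : 0 < x5 * q4 - y5 * p4)
    (F82 : 0 < (x5 - x1 - x6) * q4 - (y5 - y1 - y6) * p4)
    (F83 : 0 < (x5 - x4 - x6) * q4 - (y5 - y4 - y6) * p4)
    (F85 : 0 < (-x3) * q4 - (-y3) * p4)
    (F87 : 0 < (-x2) * q4 - (-y2) * p4)
    (F103 : 0 < (x3 + x5 - 2*x4) * q6 - (y3 + y5 - 2*y4) * p6)
    (F106 : 0 < x3 * q6 - y3 * p6)
    (F107 : 0 < (x3 - x4) * q6 - (y3 - y4) * p6)
    (F108 : 0 < x5 * q6 - y5 * p6)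
    (F111 : 0 < (x3 + x5 - x1 - x4) * q6 - (y3 + y5 - y1 - y4) * p6)
    (F113 : 0 < (x3 - x5) * q6 - (y3 - y5) * p6)
    (F137 : 0 < (x2 + x6) * q9 - (y2 + y6) * p9)
    (F145 : 0 < (x6 - x5) * q9 - (y6 - y5) * p9)
    (F147 : 0 < (x2 + x6 - x1) * q9 - (y2 + y6 - y1) * p9)
    (F148 : 0 < (x2 - x6) * q9 - (y2 - y6) * p9)
    (F150 : 0 < (x1 - x4) * q10 - (y1 - y4) * p10)
    (F152 : 0 < (x1 - x6) * q10 - (y1 - y6) * p10)
    (F156 : 0 < (x1 + x4 - x3) * q10 - (y1 + y4 - y3) * p10)
    (F157 : 0 < (x1 + x4 - x2 - x5) * q10 - (y1 + y4 - y2 - y5) * p10)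
    (F159 : 0 < x4 * q10 - y4 * p10) : False := by
  rcases lt_or_ge 0 ((-x3) * (y4 - y5) - (-y3) * (x4 - x5)) with hs0 | hs0
  · skip
    have F171 : 0 < (x2 - x1) * (-y1) - (y2 - y1) * (-x1) := by linarith only [F0]
    have F173 : 0 < (x2 - 2*x1) * (-y1) - (y2 - 2*y1) * (-x1) := by linarith only [F0]
    have F177 : 0 < (x3 - x1) * (-y3) - (y3 - y1) * (-x3) := by linarith only [F1]
    have F184 : 0 < (x4 - x1) * (-y3) - (y4 - y1) * (-x3) := by linarith only [F1, F9]
    have F196 : 0 < (-x1 - x6) * y1 - (-y1 - y6) * x1 := by linarith only [F4]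
    have F197 : 0 < (-x1 - x6) * (-y6) - (-y1 - y6) * (-x6) := by linarith only [F4]
    have F198 : 0 < (x6 - x1) * (-y1) - (y6 - y1) * (-x1) := by linarith only [F4]
    have F221 : 0 < (x5 - x2) * (-y2) - (y5 - y2) * (-x2) := by linarith only [F7]
    have F227 : 0 < (-x2 - x6) * y2 - (-y2 - y6) * x2 := by linarith only [F8]
    have F234 : 0 < (x4 - x3) * (-y3) - (y4 - y3) * (-x3) := by linarith only [F9]
    have F271 : 0 < (-x1) * (-q10) - (-y1) * (-p10) := by linarith only [F159, F150]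
    have F274 : 0 < (x6 - x5) * (-y5) - (y6 - y5) * (-x5) := by linarith only [F14]
    have F275 : 0 < (x6 - x5) * (-y6) - (y6 - y5) * (-x6) := by linarith only [F14]
    have F331 : 0 < (x6 - x5) * (y2 - y5) - (y6 - y5) * (x2 - x5) := by linarith only [F30]
    have F334 : 0 < (x2 - x5) * q9 - (y2 - y5) * p9 := by linarith only [F148, F145]
    have F335 : 0 < x2 * q9 - y2 * p9 := by linarith only [F148, F137]
    have F338 : 0 < (x3 + x5 - 2*x4) * (y3 - y4) - (y3 + y5 - 2*y4) * (x3 - x4) := by linarith only [F31]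
    have F349 : 0 < (-x1) * q2 - (-y1) * p2 :=
      plk01 (x2 - x1) (y2 - y1) (x6 - x1) (y6 - y1) (-x1) (-y1) p2 q2 (by linarith only [F18]) (by linarith only [F171]) (by linarith only [F68]) (by linarith only [F65]) (by linarith only [F198])
    have F352 : 0 < (-x2) * (y6 - y5) - (-y2) * (x6 - x5) :=
      plk11 (x5 - x2) (y5 - y2) (-p9) (-q9) (-x2) (-y2) (x6 - x5) (y6 - y5) (by linarith only [F334]) (by linarith only [F221]) (by linarith only [F145]) (by linarith only [F331]) (by linarith only [F335])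
    have F359 : 0 < (-x3) * (y3 + y5 - 2*y4) - (-y3) * (x3 + x5 - 2*x4) :=
      plk11 (x4 - x3) (y4 - y3) (-p6) (-q6) (-x3) (-y3) (x3 + x5 - 2*x4) (y3 + y5 - 2*y4) (by linarith only [F107]) (by linarith only [F234]) (by linarith only [F103]) (by linarith only [F338]) (by linarith only [F106])
    have F361 : 0 < (-x3) * (-q10) - (-y3) * (-p10) :=
      plk11 (-x1) (-y1) (-x4) (-y4) (-x3) (-y3) (-p10) (-q10) (by linarith only [F2]) (by linarith only [F1]) (by linarith only [F159]) (by linarith only [F271]) (by linarith only [F9])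
    have F486 : 0 < p2 * q10 - q2 * p10 :=
      plk11 (x1 - x4) (y1 - y4) (x1 - x6) (y1 - y6) p2 q2 p10 q10 (by linarith only [F23]) (by linarith only [F59]) (by linarith only [F152]) (by linarith only [F150]) (by linarith only [F68])
    have F540 : 0 < (x2 + x6 - x1) * (-y2) - (y2 + y6 - y1) * (-x2) := by linarith only [F0, F227]
    have F542 : 0 < (x6 - x5) * q2 - (y6 - y5) * p2 := by linarith only [F349, F60]
    have F751 : 0 < (-x1) * (y6 - y5) - (-y1) * (x6 - x5) :=
      plk01 x2 y2 x5 y5 (-x1) (-y1) (x6 - x5) (y6 - y5) (by linarith only [F7]) (by linarith only [F0]) (by linarith only [F274]) (by linarith only [F352]) (by linarith only [F3])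
    have F834 : 0 < (x5 - x6) * (y1 + y6) - (y5 - y6) * (x1 + x6) :=
      plk11 (-x6) (-y6) (-p2) (-q2) (x5 - x6) (y5 - y6) (x1 + x6) (y1 + y6) (by linarith only [F67]) (by linarith only [F275]) (by linarith only [F57]) (by linarith only [F197]) (by linarith only [F542])
    have F840 : 0 < (x5 - x6) * (y1 - y2 - y6) - (y5 - y6) * (x1 - x2 - x6) :=
      plk01 x2 y2 p9 q9 (x5 - x6) (y5 - y6) (x1 - x2 - x6) (y1 - y2 - y6) (by linarith only [F335]) (by linarith only [F352]) (by linarith only [F147]) (by linarith only [F540]) (by linarith only [F145])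
    have F850 : 0 < (-x1 - x6) * q10 - (-y1 - y6) * p10 :=
      plk01 (-x1) (-y1) p2 q2 (-x1 - x6) (-y1 - y6) p10 q10 (by linarith only [F349]) (by linarith only [F196]) (by linarith only [F486]) (by linarith only [F271]) (by linarith only [F57])
    have F1118 : 0 < (x2 - 2*x1) * (y5 - y6) - (y2 - 2*y1) * (x5 - x6) := by linarith only [F834, F840]
    have F1363 : 0 < (-x3) * (y4 - y5) - (-y3) * (x4 - x5) := by linarith only [hs0]
    have F1368 : 0 < (x1 + x4 - x3 - x5) * y3 - (y1 + y4 - y3 - y5) * x3 := by linarith only [F177, F1363]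
    have F1383 : 0 < (x3 + x5 - 2*x4) * (y3 + y5 - y1 - y4) - (y3 + y5 - 2*y4) * (x3 + x5 - x1 - x4) :=
      plk01 (-x3) (-y3) (-p6) (-q6) (x3 + x5 - 2*x4) (y3 + y5 - 2*y4) (x3 + x5 - x1 - x4) (y3 + y5 - y1 - y4) (by linarith only [F106]) (by linarith only [F359]) (by linarith only [F111]) (by linarith only [F1368]) (by linarith only [F103])
    have F1402 : 0 < (x1 - x4) * (y3 + y5 - 2*y4) - (y1 - y4) * (x3 + x5 - 2*x4) := by linarith only [F1383]
    have F1432 : 0 < (x3 + x5 - 2*x4) * q10 - (y3 + y5 - 2*y4) * p10 :=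
      plk01 (-x3) (-y3) (x1 - x4) (y1 - y4) (x3 + x5 - 2*x4) (y3 + y5 - 2*y4) p10 q10 (by linarith only [F184]) (by linarith only [F359]) (by linarith only [F150]) (by linarith only [F361]) (by linarith only [F1402])
    have F1455 : 0 < (x1 + x5 - x4) * q10 - (y1 + y5 - y4) * p10 := by linarith only [F1432, F156]
    have F1456 : 0 < (x5 - x4 - x6) * q10 - (y5 - y4 - y6) * p10 := by linarith only [F850, F1455]
    have F1457 : 0 < (2*x1 - x2) * q10 - (2*y1 - y2) * p10 := by linarith only [F157, F1455]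
    have F1467 : 0 < (x5 - x6) * (-q10) - (y5 - y6) * (-p10) :=
      plk01 x1 y1 (x2 - 2*x1) (y2 - 2*y1) (x5 - x6) (y5 - y6) (-p10) (-q10) (by linarith only [F173]) (by linarith only [F751]) (by linarith only [F1457]) (by linarith only [F271]) (by linarith only [F1118])
    have F1504 : 0 < (x5 - x4 - x6) * (-q10) - (y5 - y4 - y6) * (-p10) := by linarith only [F159, F1467]
    linarith only [F1504, F1456]
  · skip
    have F171 : 0 < (x2 - x1) * (-y1) - (y2 - y1) * (-x1) := by linarith only [F0]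
    have F172 : 0 < (x2 - x1) * (-y2) - (y2 - y1) * (-x2) := by linarith only [F0]
    have F179 : 0 < (-x1 - x4) * (-y4) - (-y1 - y4) * (-x4) := by linarith only [F2]
    have F185 : 0 < (x4 - x1) * (-y4) - (y4 - y1) * (-x4) := by linarith only [F2]
    have F196 : 0 < (-x1 - x6) * y1 - (-y1 - y6) * x1 := by linarith only [F4]
    have F197 : 0 < (-x1 - x6) * (-y6) - (-y1 - y6) * (-x6) := by linarith only [F4]
    have F198 : 0 < (x6 - x1) * (-y1) - (y6 - y1) * (-x1) := by linarith only [F4]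
    have F199 : 0 < (x6 - x1) * (-y2) - (y6 - y1) * (-x2) := by linarith only [F0, F8]
    have F221 : 0 < (x5 - x2) * (-y2) - (y5 - y2) * (-x2) := by linarith only [F7]
    have F236 : 0 < (2*x4 - x3) * (-y3) - (2*y4 - y3) * (-x3) := by linarith only [F9]
    have F245 : 0 < (x5 - x3) * (-y5) - (y5 - y3) * (-x5) := by linarith only [F10]
    have F257 : 0 < (x5 - x4) * (-y4) - (y5 - y4) * (-x4) := by linarith only [F12]
    have F268 : 0 < (x6 - x4) * (-y4) - (y6 - y4) * (-x4) := by linarith only [F13]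
    have F270 : 0 < (x6 - x4) * (-y6) - (y6 - y4) * (-x6) := by linarith only [F13]
    have F300 : 0 < (x5 - x4) * (y1 - y4) - (y5 - y4) * (x1 - x4) := by linarith only [F22]
    have F331 : 0 < (x6 - x5) * (y2 - y5) - (y6 - y5) * (x2 - x5) := by linarith only [F30]
    have F334 : 0 < (x2 - x5) * q9 - (y2 - y5) * p9 := by linarith only [F148, F145]
    have F335 : 0 < x2 * q9 - y2 * p9 := by linarith only [F148, F137]
    have F339 : 0 < (x3 + x5 - 2*x4) * (y3 - y5) - (y3 + y5 - 2*y4) * (x3 - x5) := by linarith only [F31]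
    have F349 : 0 < (-x1) * q2 - (-y1) * p2 :=
      plk01 (x2 - x1) (y2 - y1) (x6 - x1) (y6 - y1) (-x1) (-y1) p2 q2 (by linarith only [F18]) (by linarith only [F171]) (by linarith only [F68]) (by linarith only [F65]) (by linarith only [F198])
    have F350 : 0 < (-x1) * q4 - (-y1) * p4 :=
      plk01 x2 y2 x5 y5 (-x1) (-y1) p4 q4 (by linarith only [F7]) (by linarith only [F0]) (by linarith only [F80]) (by linarith only [F87]) (by linarith only [F3])
    have F352 : 0 < (-x2) * (y6 - y5) - (-y2) * (x6 - x5) :=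
      plk11 (x5 - x2) (y5 - y2) (-p9) (-q9) (-x2) (-y2) (x6 - x5) (y6 - y5) (by linarith only [F334]) (by linarith only [F221]) (by linarith only [F145]) (by linarith only [F331]) (by linarith only [F335])
    have F356 : 0 < (-x2) * q2 - (-y2) * p2 :=
      plk01 (x2 - x1) (y2 - y1) (x6 - x1) (y6 - y1) (-x2) (-y2) p2 q2 (by linarith only [F18]) (by linarith only [F172]) (by linarith only [F68]) (by linarith only [F65]) (by linarith only [F199])
    have F366 : 0 < (-x5) * (y3 + y5 - 2*y4) - (-y5) * (x3 + x5 - 2*x4) :=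
      plk11 (x5 - x3) (y5 - y3) (-p6) (-q6) (-x5) (-y5) (x3 + x5 - 2*x4) (y3 + y5 - 2*y4) (by linarith only [F113]) (by linarith only [F245]) (by linarith only [F103]) (by linarith only [F339]) (by linarith only [F108])
    have F449 : 0 < (x4 - x5) * q10 - (y4 - y5) * p10 :=
      plk01 (-x4) (-y4) (x1 - x4) (y1 - y4) (x4 - x5) (y4 - y5) p10 q10 (by linarith only [F185]) (by linarith only [F257]) (by linarith only [F150]) (by linarith only [F159]) (by linarith only [F300])
    have F450 : 0 < (x4 - x6) * (y1 + y6) - (y4 - y6) * (x1 + x6) :=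
      plk11 (-x6) (-y6) (-p2) (-q2) (x4 - x6) (y4 - y6) (x1 + x6) (y1 + y6) (by linarith only [F67]) (by linarith only [F270]) (by linarith only [F57]) (by linarith only [F197]) (by linarith only [F66])
    have F518 : 0 < (x5 - x1 - x6) * (-y2) - (y5 - y1 - y6) * (-x2) := by linarith only [F0, F352]
    have F621 : 0 < (x3 - 2*x4) * y5 - (y3 - 2*y4) * x5 := by linarith only [F366]
    have F742 : 0 < (x1 + x4) * (y6 - y4) - (y1 + y4) * (x6 - x4) := by linarith only [F450]
    have F829 : 0 < (x4 - x5) * (y1 + y4) - (y4 - y5) * (x1 + x4) :=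
      plk11 (-x4) (-y4) (x4 - x6) (y4 - y6) (x4 - x5) (y4 - y5) (x1 + x4) (y1 + y4) (by linarith only [F268]) (by linarith only [F257]) (by linarith only [F742]) (by linarith only [F179]) (by linarith only [F34])
    have F909 : 0 < (x3 - 2*x4) * (-q4) - (y3 - 2*y4) * (-p4) :=
      plk01 (-x3) (-y3) (-x5) (-y5) (x3 - 2*x4) (y3 - 2*y4) (-p4) (-q4) (by linarith only [F10]) (by linarith only [F236]) (by linarith only [F80]) (by linarith only [F85]) (by linarith only [F621])
    have F971 : 0 < p2 * (-q4) - q2 * (-p4) :=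
      plk01 (-x2) (-y2) (x1 + x6 - x5) (y1 + y6 - y5) p2 q2 (-p4) (-q4) (by linarith only [F518]) (by linarith only [F356]) (by linarith only [F82]) (by linarith only [F87]) (by linarith only [F60])
    have F1201 : 0 < (-x1 - x6) * (-q4) - (-y1 - y6) * (-p4) :=
      plk01 (-x1) (-y1) p2 q2 (-x1 - x6) (-y1 - y6) (-p4) (-q4) (by linarith only [F349]) (by linarith only [F196]) (by linarith only [F971]) (by linarith only [F350]) (by linarith only [F57])
    have F1330 : 0 < (x4 - x1 - x5) * (-q4) - (y4 - y1 - y5) * (-p4) := by linarith only [F1201, F83]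
    have F1363 : 0 ≤ (x4 - x5) * (-y3) - (y4 - y5) * (-x3) := by linarith only [hs0]
    have F1364 : 0 < (x4 - x1 - x5) * (-y3) - (y4 - y1 - y5) * (-x3) := by linarith only [F1, F1363]
    have F1367 : 0 < (x1 + x4 - x3) * (y5 - y4) - (y1 + y4 - y3) * (x5 - x4) := by linarith only [F1363, F829]
    have F1396 : 0 < (x1 - x4) * (y1 + y4 - y3) - (y1 - y4) * (x1 + x4 - x3) :=
      plk01 (x5 - x4) (y5 - y4) (-p10) (-q10) (x1 - x4) (y1 - y4) (x1 + x4 - x3) (y1 + y4 - y3) (by linarith only [F449]) (by linarith only [F300]) (by linarith only [F156]) (by linarith only [F1367]) (by linarith only [F150])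
    have F1440 : 0 < (x3 - 2*x4) * (y4 - y1 - y5) - (y3 - 2*y4) * (x4 - x1 - x5) :=
      plk01 (-x3) (-y3) p4 q4 (x3 - 2*x4) (y3 - 2*y4) (x4 - x1 - x5) (y4 - y1 - y5) (by linarith only [F85]) (by linarith only [F236]) (by linarith only [F1330]) (by linarith only [F1364]) (by linarith only [F909])
    have F1504 : 0 < (x1 - x4) * (y3 - 2*y4) - (y1 - y4) * (x3 - 2*x4) := by linarith only [F621, F1440]
    have F1515 : 0 < (x3 - 2*x4) * (y1 - y4) - (y3 - 2*y4) * (x1 - x4) := by linarith only [F1396]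
    linarith only [F1515, F1504]

lemma patS5m (S : Sys 7) (e0 : S.adj 0 0) (e1 : S.adj 4 4) (e2 : (6, 1) ∈ S.E) (e3 : S.adj 6 4) (e4 : (5, 0) ∈ S.E) (e5 : S.adj 5 4) (e6 : (3, 5) ∈ S.E) (e7 : S.adj 3 0) (e8 : S.adj 2 5) (e9 : (2, 6) ∈ S.E) (e10 : (1, 4) ∈ S.E) (e11 : S.adj 1 0) : False := by
  refine patS5m_raw ((S.a 1).1 - (S.a 0).1) ((S.a 1).2 - (S.a 0).2) ((S.a 2).1 - (S.a 0).1) ((S.a 2).2 - (S.a 0).2) ((S.a 3).1 - (S.a 0).1) ((S.a 3).2 - (S.a 0).2) ((S.a 4).1 - (S.a 0).1) ((S.a 4).2 - (S.a 0).2) ((S.a 5).1 - (S.a 0).1) ((S.a 5).2 - (S.a 0).2) ((S.a 6).1 - (S.a 0).1) ((S.a 6).2 - (S.a 0).2) (S.τ (6, 1)).1 (S.τ (6, 1)).2 (S.τ (5, 0)).1 (S.τ (5, 0)).2 (S.τ (3, 5)).1 (S.τ (3, 5)).2 (S.τ (2, 6)).1 (S.τ (2, 6)).2 (S.τ (1, 4)).1 (S.τ (1, 4)).2 ?_ ?_ ?_ ?_ ?_ ?_ ?_ ?_ ?_ ?_ ?_ ?_ ?_ ?_ ?_ ?_ ?_ ?_ ?_ ?_ ?_ ?_ ?_ ?_ ?_ ?_ ?_ ?_ ?_ ?_ ?_ ?_ ?_ ?_ ?_ ?_ ?_ ?_ ?_ ?_ ?_ ?_ ?_ ?_ ?_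
  · have h := S.ccw 0 1 2 (by decide) (by decide) (by decide)
    simp only [dt, Prod.fst_sub, Prod.snd_sub, Prod.fst_add, Prod.snd_add] at h
    linarith only [h]
  · have h := S.ccw 0 1 3 (by decide) (by decide) (by decide)
    simp only [dt, Prod.fst_sub, Prod.snd_sub, Prod.fst_add, Prod.snd_add] at h
    linarith only [h]
  · have h := S.ccw 0 1 4 (by decide) (by decide) (by decide)
    simp only [dt, Prod.fst_sub, Prod.snd_sub, Prod.fst_add, Prod.snd_add] at h
    linarith only [h]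
  · have h := S.ccw 0 1 5 (by decide) (by decide) (by decide)
    simp only [dt, Prod.fst_sub, Prod.snd_sub, Prod.fst_add, Prod.snd_add] at h
    linarith only [h]
  · have h := S.ccw 0 1 6 (by decide) (by decide) (by decide)
    simp only [dt, Prod.fst_sub, Prod.snd_sub, Prod.fst_add, Prod.snd_add] at h
    linarith only [h]
  · have h := S.ccw 0 2 5 (by decide) (by decide) (by decide)
    simp only [dt, Prod.fst_sub, Prod.snd_sub, Prod.fst_add, Prod.snd_add] at h
    linarith only [h]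
  · have h := S.ccw 0 2 6 (by decide) (by decide) (by decide)
    simp only [dt, Prod.fst_sub, Prod.snd_sub, Prod.fst_add, Prod.snd_add] at h
    linarith only [h]
  · have h := S.ccw 0 3 4 (by decide) (by decide) (by decide)
    simp only [dt, Prod.fst_sub, Prod.snd_sub, Prod.fst_add, Prod.snd_add] at h
    linarith only [h]
  · have h := S.ccw 0 3 5 (by decide) (by decide) (by decide)
    simp only [dt, Prod.fst_sub, Prod.snd_sub, Prod.fst_add, Prod.snd_add] at h
    linarith only [h]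
  · have h := S.ccw 0 4 5 (by decide) (by decide) (by decide)
    simp only [dt, Prod.fst_sub, Prod.snd_sub, Prod.fst_add, Prod.snd_add] at h
    linarith only [h]
  · have h := S.ccw 0 4 6 (by decide) (by decide) (by decide)
    simp only [dt, Prod.fst_sub, Prod.snd_sub, Prod.fst_add, Prod.snd_add] at h
    linarith only [h]
  · have h := S.ccw 0 5 6 (by decide) (by decide) (by decide)
    simp only [dt, Prod.fst_sub, Prod.snd_sub, Prod.fst_add, Prod.snd_add] at h
    linarith only [h]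
  · have h := S.ccw 1 2 6 (by decide) (by decide) (by decide)
    simp only [dt, Prod.fst_sub, Prod.snd_sub, Prod.fst_add, Prod.snd_add] at h
    linarith only [h]
  · have h := S.ccw 1 4 5 (by decide) (by decide) (by decide)
    simp only [dt, Prod.fst_sub, Prod.snd_sub, Prod.fst_add, Prod.snd_add] at h
    linarith only [h]
  · have h := S.ccw 1 4 6 (by decide) (by decide) (by decide)
    simp only [dt, Prod.fst_sub, Prod.snd_sub, Prod.fst_add, Prod.snd_add] at h
    linarith only [h]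
  · have h := S.ccw 2 5 6 (by decide) (by decide) (by decide)
    simp only [dt, Prod.fst_sub, Prod.snd_sub, Prod.fst_add, Prod.snd_add] at h
    linarith only [h]
  · have h := S.ccw 3 4 5 (by decide) (by decide) (by decide)
    simp only [dt, Prod.fst_sub, Prod.snd_sub, Prod.fst_add, Prod.snd_add] at h
    linarith only [h]
  · have h := S.ccw 4 5 6 (by decide) (by decide) (by decide)
    simp only [dt, Prod.fst_sub, Prod.snd_sub, Prod.fst_add, Prod.snd_add] at h
    linarith only [h]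
  · have h := S.sepA e2 e0 (by decide) (by decide)
    simp only [dt, Prod.fst_sub, Prod.snd_sub, Prod.fst_add, Prod.snd_add] at h
    linarith only [h]
  · have h := S.sepA e2 e3 (by decide) (by decide)
    simp only [dt, Prod.fst_sub, Prod.snd_sub, Prod.fst_add, Prod.snd_add] at h
    linarith only [h]
  · have h := S.sepA e2 (Or.inl e4) (by decide) (by decide)
    simp only [dt, Prod.fst_sub, Prod.snd_sub, Prod.fst_add, Prod.snd_add] at h
    linarith only [h]
  · have h := S.sepA e2 (Or.inl e9) (by decide) (by decide)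
    simp only [dt, Prod.fst_sub, Prod.snd_sub, Prod.fst_add, Prod.snd_add] at h
    linarith only [h]
  · have h := S.sepA e2 (Or.inl e10) (by decide) (by decide)
    simp only [dt, Prod.fst_sub, Prod.snd_sub, Prod.fst_add, Prod.snd_add] at h
    linarith only [h]
  · have h := S.sepA e2 e11 (by decide) (by decide)
    simp only [dt, Prod.fst_sub, Prod.snd_sub, Prod.fst_add, Prod.snd_add] at h
    linarith only [h]
  · have h := S.hdA e2 (by decide)
    simp only [dt, Prod.fst_sub, Prod.snd_sub, Prod.fst_add, Prod.snd_add] at h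
    linarith only [h]
  · have h := S.sepA e4 e0 (by decide) (by decide)
    simp only [dt, Prod.fst_sub, Prod.snd_sub, Prod.fst_add, Prod.snd_add] at h
    linarith only [h]
  · have h := S.sepA e4 (Or.inl e2) (by decide) (by decide)
    simp only [dt, Prod.fst_sub, Prod.snd_sub, Prod.fst_add, Prod.snd_add] at h
    linarith only [h]
  · have h := S.sepA e4 e3 (by decide) (by decide)
    simp only [dt, Prod.fst_sub, Prod.snd_sub, Prod.fst_add, Prod.snd_add] at h
    linarith only [h]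
  · have h := S.sepA e4 (Or.inl e6) (by decide) (by decide)
    simp only [dt, Prod.fst_sub, Prod.snd_sub, Prod.fst_add, Prod.snd_add] at h
    linarith only [h]
  · have h := S.sepA e4 e8 (by decide) (by decide)
    simp only [dt, Prod.fst_sub, Prod.snd_sub, Prod.fst_add, Prod.snd_add] at h
    linarith only [h]
  · have h := S.sepA e6 e1 (by decide) (by decide)
    simp only [dt, Prod.fst_sub, Prod.snd_sub, Prod.fst_add, Prod.snd_add] at h
    linarith only [h]
  · have h := S.sepA e6 (Or.inl e4) (by decide) (by decide)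
    simp only [dt, Prod.fst_sub, Prod.snd_sub, Prod.fst_add, Prod.snd_add] at h
    linarith only [h]
  · have h := S.sepA e6 e5 (by decide) (by decide)
    simp only [dt, Prod.fst_sub, Prod.snd_sub, Prod.fst_add, Prod.snd_add] at h
    linarith only [h]
  · have h := S.sepA e6 e7 (by decide) (by decide)
    simp only [dt, Prod.fst_sub, Prod.snd_sub, Prod.fst_add, Prod.snd_add] at h
    linarith only [h]
  · have h := S.sepA e6 (Or.inl e10) (by decide) (by decide)
    simp only [dt, Prod.fst_sub, Prod.snd_sub, Prod.fst_add, Prod.snd_add] at h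
    linarith only [h]
  · have h := S.hdA e6 (by decide)
    simp only [dt, Prod.fst_sub, Prod.snd_sub, Prod.fst_add, Prod.snd_add] at h
    linarith only [h]
  · have h := S.sepA e9 e0 (by decide) (by decide)
    simp only [dt, Prod.fst_sub, Prod.snd_sub, Prod.fst_add, Prod.snd_add] at h
    linarith only [h]
  · have h := S.sepA e9 e8 (by decide) (by decide)
    simp only [dt, Prod.fst_sub, Prod.snd_sub, Prod.fst_add, Prod.snd_add] at h
    linarith only [h]
  · have h := S.sepA e9 e11 (by decide) (by decide)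
    simp only [dt, Prod.fst_sub, Prod.snd_sub, Prod.fst_add, Prod.snd_add] at h
    linarith only [h]
  · have h := S.hdA e9 (by decide)
    simp only [dt, Prod.fst_sub, Prod.snd_sub, Prod.fst_add, Prod.snd_add] at h
    linarith only [h]
  · have h := S.sepA e10 e1 (by decide) (by decide)
    simp only [dt, Prod.fst_sub, Prod.snd_sub, Prod.fst_add, Prod.snd_add] at h
    linarith only [h]
  · have h := S.sepA e10 e3 (by decide) (by decide)
    simp only [dt, Prod.fst_sub, Prod.snd_sub, Prod.fst_add, Prod.snd_add] at h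
    linarith only [h]
  · have h := S.sepA e10 e7 (by decide) (by decide)
    simp only [dt, Prod.fst_sub, Prod.snd_sub, Prod.fst_add, Prod.snd_add] at h
    linarith only [h]
  · have h := S.sepA e10 e8 (by decide) (by decide)
    simp only [dt, Prod.fst_sub, Prod.snd_sub, Prod.fst_add, Prod.snd_add] at h
    linarith only [h]
  · have h := S.sepA e10 e11 (by decide) (by decide)
    simp only [dt, Prod.fst_sub, Prod.snd_sub, Prod.fst_add, Prod.snd_add] at h
    linarith only [h]

end Pool.Agent.MP_3fce03_co
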