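import Pool.Agent.MP_3fce03_co.Res
import Pool.Agent.MP_3fce03_co.PatB
import Pool.Agent.MP_3fce03_co.PatC

namespace Pool.Agent.MP_3fce03_co

set_option linter.unusedVariables false
set_option linter.unusedSimpArgs false

lemma H_raw (x1 y1 x2 y2 x3 y3 p q : ℝ) (F1 : 0 < x1 * y3 - y1 * x3)
    (F3 : 0 < (x2 - x1) * (y3 - y1) - (y2 - y1) * (x3 - x1))
    (h1 : 0 < (x1 * q - y1 * p) + (x3 * q - y3 * p))
    (h2 : 0 < (x1 * q - y1 * p) + (x3 * q - y3 * p) - 2 * (x2 * q - y2 * p)) :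
    ((x1 * y2 - y1 * x2) - (x2 * y3 - y2 * x3)) * ((x3 * q - y3 * p) - (x1 * q - y1 * p)) < 0 := by
  have := mul_pos F3 h1
  have := mul_pos F1 h2
  linarith

namespace Sys
variable {n : ℕ} (S : Sys n)

/-- distance-like height over the chord from vertex `0` to vertex `k` -/
noncomputable def ht (k w : ℕ) : ℝ := |dt (S.a k - S.a 0) (S.a w - S.a 0)|

lemma H {k v t : ℕ} (e0 : (0, 0) ∈ S.E) (ek : (k, k) ∈ S.E) (hk : 0 < k) (e : (v, t) ∈ S.E)
    (hv : v ≠ t) (c : t = 0 ∨ t = k ∨ (0 < t ∧ t < k ∧ k < v) ∨ (0 < v ∧ v < k ∧ k < t)) :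
    S.ht k t < S.ht k v := by
  have l1 := S.lt _ e
  have l2 := S.lt _ ek
  simp only at l1 l2
  have v0 : v ≠ 0 := by
    rintro rfl
    exact hv (S.loop_head e0 e).symm
  have vk : v ≠ k := by
    rintro rfl
    exact hv (S.loop_head ek e).symm
  have hpos : 0 < S.ht k v := by
    unfold ht
    rw [abs_pos]
    rcases lt_or_gt_of_ne vk with h | h
    · have := S.ccw 0 v k (by omega) h l2.1
      simp only [dt, Prod.fst_sub, Prod.snd_sub] at *
      linarith
    · exact (S.ccw 0 k v hk h l1.1).ne'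
  have p1 := S.hdB e hv
  have p2 := S.sepB e (Or.inl e0) (by omega) (by omega)
  have p3 := S.sepB e (Or.inl ek) (by omega) (by omega)
  rcases c with c | c | ⟨c1, c2, c3⟩ | ⟨c1, c2, c3⟩
  · subst c
    have : S.ht k 0 = 0 := by simp [ht, dt]
    linarith
  · subst c
    have : S.ht t t = 0 := by
      simp only [ht, dt, abs_eq_zero]
      ring
    linarith
  · have A1 := S.ccw 0 t k c1 c2 l2.1
    have A2 := S.ccw 0 k v hk c3 l1.1
    have A3 := S.ccw 0 t v c1 (by omega) l1.1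
    have A4 := S.ccw t k v c2 c3 l1.1
    unfold ht
    rw [abs_of_pos A2, abs_of_neg (by simp only [dt, Prod.fst_sub, Prod.snd_sub] at *; linarith)]
    simp only [dt, Prod.fst_sub, Prod.snd_sub] at *
    have B := H_raw ((S.a t).1 - (S.a 0).1) ((S.a t).2 - (S.a 0).2) ((S.a k).1 - (S.a 0).1)
      ((S.a k).2 - (S.a 0).2) ((S.a v).1 - (S.a 0).1) ((S.a v).2 - (S.a 0).2)
      (S.τ (v, t)).1 (S.τ (v, t)).2 (by linarith only [A3]) (by linarith only [A4])
      (by linarith only [p2]) (by linarith only [p3])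
    have := neg_of_mul_neg_left B (by linarith only [p1])
    linarith only [this]
  · have A1 := S.ccw 0 v k c1 c2 l2.1
    have A2 := S.ccw 0 k t hk c3 l1.2
    have A3 := S.ccw 0 v t c1 (by omega) l1.2
    have A4 := S.ccw v k t c2 c3 l1.2
    unfold ht
    rw [abs_of_pos A2, abs_of_neg (by simp only [dt, Prod.fst_sub, Prod.snd_sub] at *; linarith)]
    simp only [dt, Prod.fst_sub, Prod.snd_sub] at *
    have B := H_raw ((S.a v).1 - (S.a 0).1) ((S.a v).2 - (S.a 0).2) ((S.a k).1 - (S.a 0).1)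
      ((S.a k).2 - (S.a 0).2) ((S.a t).1 - (S.a 0).1) ((S.a t).2 - (S.a 0).2)
      (S.τ (v, t)).1 (S.τ (v, t)).2 (by linarith only [A3]) (by linarith only [A4])
      (by linarith only [p2]) (by linarith only [p3])
    have := pos_of_mul_neg_left B (by linarith only [p1])
    linarith only [this]

end Sys

lemma low_closed (D : Finset ℕ) (g : ℕ → ℝ) : ∀ m, m ≤ D.card →
    ∃ W ⊆ D, W.card = m ∧ ∀ v ∈ W, ∀ t ∈ D, g t < g v → t ∈ W := by
  intro m
  induction m with
  | zero => intro _; exact ⟨∅, by simp, rfl, by simp⟩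
  | succ m ih =>
    intro hm
    obtain ⟨W, hW, hc, hcl⟩ := ih (by omega)
    have hne : (D \ W).Nonempty := by
      rw [← Finset.card_pos, Finset.card_sdiff_of_subset hW]
      omega
    obtain ⟨x, hx, hmin⟩ := Finset.exists_min_image (D \ W) g hne
    rw [Finset.mem_sdiff] at hx
    refine ⟨insert x W, Finset.insert_subset hx.1 hW, by rw [Finset.card_insert_of_notMem hx.2, hc], ?_⟩
    intro v hv t ht hlt
    rw [Finset.mem_insert] at hv ⊢
    rcases hv with rfl | hv
    · by_contra hh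
      push Not at hh
      have := hmin t (Finset.mem_sdiff.2 ⟨ht, hh.2⟩)
      linarith
    · exact Or.inr (hcl v hv t ht hlt)

/-- constraint on one vertex -/
def ok1 (k v r l : ℕ) : Prop :=
  cyc v r l ∧ (r = 0 ∨ (v < k ∧ k ≤ r) ∨ (r ≤ k ∧ k < v)) ∧
    (l = 0 ∨ (v < k ∧ k ≤ l) ∨ (l ≤ k ∧ k < v))

/-- constraint on two vertices `b < c` -/
def ok2 (k b rb lb c rc lc : ℕ) : Prop :=
  ((c < k ∨ k < b) → ¬ ((rc = rb ∨ cyc b rc rb) ∧ (lc = lb ∨ cyc c lc lb))) ∧
  ((b < k ∧ k < c) → ¬ ((lc = b ∨ cyc c lc b) ∧ (rb = c ∨ cyc b c rb)) ∧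
    ¬ ((lb = c ∨ cyc b lb c) ∧ (rc = b ∨ cyc c b rc)) ∧ ¬ ((c = rb ∨ c = lb) ∧ (b = rc ∨ b = lc)))

instance (k v r l : ℕ) : Decidable (ok1 k v r l) := by unfold ok1; infer_instance
instance (k b rb lb c rc lc : ℕ) : Decidable (ok2 k b rb lb c rc lc) := by
  unfold ok2; infer_instance

/-- exhaustive search over the tails of the non-loop vertices -/
def srch (k : ℕ) (L : List (List (ℕ × ℕ × ℕ))) : List ℕ → List (ℕ × ℕ × ℕ) → Bool
  | [], cur => decide (cur ∈ L)
  | v :: vs, cur => (List.range 7).all fun r => (List.range 7).all fun l =>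
      !(decide (ok1 k v r l) && cur.all (fun x => decide (ok2 k x.1 x.2.1 x.2.2 v r l))) ||
        srch k L vs ((v, r, l) :: cur)

lemma srch_sound (k : ℕ) (L : List (List (ℕ × ℕ × ℕ))) (r l : ℕ → ℕ) :
    ∀ (vs : List ℕ) (cur : List (ℕ × ℕ × ℕ)), srch k L vs cur = true →
      (∀ v ∈ vs, r v < 7 ∧ l v < 7 ∧ ok1 k v (r v) (l v)) →
      (∀ v ∈ vs, ∀ x ∈ cur, ok2 k x.1 x.2.1 x.2.2 v (r v) (l v)) →
      vs.Pairwise (fun b c => ok2 k b (r b) (l b) c (r c) (l c)) →
      (vs.reverse.map (fun v => (v, r v, l v)) ++ cur) ∈ L := by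
  intro vs
  induction vs with
  | nil =>
    intro cur h _ _ _
    simpa [srch] using h
  | cons v vs ih =>
    intro cur h h1 h2 h3
    simp only [srch, List.all_eq_true, List.mem_range, Bool.or_eq_true, Bool.not_eq_true',
      Bool.and_eq_false_iff, decide_eq_false_iff_not] at h
    have hv := h1 v (by simp)
    have h4 := h (r v) hv.1 (l v) hv.2.1
    rw [List.pairwise_cons] at h3
    rcases h4 with (h4 | h4) | h4
    · exact absurd hv.2.2 h4
    · exfalso
      rw [← Bool.not_eq_true, List.all_eq_true] at h4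
      apply h4
      intro x hx
      simpa using h2 v (by simp) x hx
    · have := ih _ h4 (fun w hw => h1 w (by simp [hw])) (by
        intro w hw x hx
        rcases List.mem_cons.1 hx with rfl | hx
        · exact h3.1 w hw
        · exact h2 w (by simp [hw]) x hx) h3.2
      simpa using this

lemma fin7_1 : srch 1
    []
    [2, 3, 4, 5, 6] [] = true := by decide +kernel

lemma fin7_2 : srch 2
    []
    [1, 3, 4, 5, 6] [] = true := by decide +kernel

lemma fin7_3 : srch 3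
    [[(6, 1, 3), (5, 1, 2), (4, 0, 3), (2, 4, 0), (1, 3, 0)], [(6, 2, 3), (5, 1, 2), (4, 0, 3), (2, 4, 0), (1, 3, 0)], [(6, 2, 3), (5, 1, 3), (4, 0, 3), (2, 4, 0), (1, 3, 0)], [(6, 1, 3), (5, 1, 2), (4, 0, 3), (2, 4, 6), (1, 3, 0)], [(6, 2, 3), (5, 1, 3), (4, 0, 3), (2, 5, 0), (1, 3, 0)], [(6, 0, 3), (5, 0, 2), (4, 0, 1), (2, 3, 0), (1, 3, 5)], [(6, 0, 3), (5, 0, 2), (4, 0, 1), (2, 3, 6), (1, 3, 5)], [(6, 0, 3), (5, 0, 2), (4, 0, 1), (2, 3, 0), (1, 3, 6)], [(6, 0, 3), (5, 1, 2), (4, 0, 1), (2, 3, 0), (1, 3, 6)], [(6, 0, 3), (5, 1, 2), (4, 0, 2), (2, 3, 0), (1, 3, 6)], [(6, 2, 3), (5, 1, 3), (4, 0, 3), (2, 5, 0), (1, 4, 0)], [(6, 0, 3), (5, 1, 2), (4, 0, 2), (2, 3, 0), (1, 4, 6)]]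
    [1, 2, 4, 5, 6] [] = true := by decide +kernel

lemma fin7_4 : srch 4
    [[(6, 1, 4), (5, 0, 4), (3, 6, 0), (2, 5, 0), (1, 4, 0)], [(6, 2, 4), (5, 0, 4), (3, 6, 0), (2, 5, 0), (1, 4, 0)], [(6, 2, 4), (5, 1, 4), (3, 6, 0), (2, 5, 0), (1, 4, 0)], [(6, 1, 3), (5, 0, 4), (3, 5, 0), (2, 5, 6), (1, 4, 0)], [(6, 1, 4), (5, 0, 4), (3, 5, 0), (2, 5, 6), (1, 4, 0)], [(6, 1, 4), (5, 0, 4), (3, 6, 0), (2, 5, 6), (1, 4, 0)], [(6, 0, 3), (5, 0, 2), (3, 4, 0), (2, 4, 6), (1, 4, 5)], [(6, 0, 4), (5, 0, 2), (3, 4, 0), (2, 4, 6), (1, 4, 5)], [(6, 0, 4), (5, 0, 3), (3, 4, 0), (2, 4, 6), (1, 4, 5)], [(6, 0, 4), (5, 0, 3), (3, 4, 0), (2, 5, 6), (1, 4, 5)], [(6, 0, 4), (5, 0, 3), (3, 4, 0), (2, 5, 6), (1, 4, 6)], [(6, 0, 4), (5, 1, 3), (3, 4, 0), (2, 5, 6), (1, 4, 6)]]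
    [1, 2, 3, 5, 6] [] = true := by decide +kernel

lemma fin7_5 : srch 5
    []
    [1, 2, 3, 4, 6] [] = true := by decide +kernel

lemma fin7_6 : srch 6
    []
    [1, 2, 3, 4, 5] [] = true := by decide +kernel

lemma end7_3 (S : Sys 7) (r1 l1 r2 l2 r4 l4 r5 l5 r6 l6 : ℕ) (e0 : (0, 0) ∈ S.E) (ek : (3, 3) ∈ S.E)
    (a1 : (1, r1) ∈ S.E) (b1 : (1, l1) ∈ S.E)
    (a2 : (2, r2) ∈ S.E) (b2 : (2, l2) ∈ S.E)
    (a4 : (4, r4) ∈ S.E) (b4 : (4, l4) ∈ S.E)
    (a5 : (5, r5) ∈ S.E) (b5 : (5, l5) ∈ S.E)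
    (a6 : (6, r6) ∈ S.E) (b6 : (6, l6) ∈ S.E)
    (hm : [(6, r6, l6), (5, r5, l5), (4, r4, l4), (2, r2, l2), (1, r1, l1)] ∈
    [[(6, 1, 3), (5, 1, 2), (4, 0, 3), (2, 4, 0), (1, 3, 0)], [(6, 2, 3), (5, 1, 2), (4, 0, 3), (2, 4, 0), (1, 3, 0)], [(6, 2, 3), (5, 1, 3), (4, 0, 3), (2, 4, 0), (1, 3, 0)], [(6, 1, 3), (5, 1, 2), (4, 0, 3), (2, 4, 6), (1, 3, 0)], [(6, 2, 3), (5, 1, 3), (4, 0, 3), (2, 5, 0), (1, 3, 0)], [(6, 0, 3), (5, 0, 2), (4, 0, 1), (2, 3, 0), (1, 3, 5)], [(6, 0, 3), (5, 0, 2), (4, 0, 1), (2, 3, 6), (1, 3, 5)], [(6, 0, 3), (5, 0, 2), (4, 0, 1), (2, 3, 0), (1, 3, 6)], [(6, 0, 3), (5, 1, 2), (4, 0, 1), (2, 3, 0), (1, 3, 6)], [(6, 0, 3), (5, 1, 2), (4, 0, 2), (2, 3, 0), (1, 3, 6)], [(6, 2, 3), (5, 1, 3), (4, 0, 3), (2, 5, 0), (1, 4, 0)], [(6, 0, 3), (5, 1, 2), (4, 0, 2), (2, 3, 0), (1, 4, 6)]]) : False := by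
  simp only [List.mem_cons, List.cons.injEq, Prod.mk.injEq, true_and, and_true, List.not_mem_nil, or_false] at hm
  rcases hm with ⟨⟨rfl, rfl⟩, ⟨rfl, rfl⟩, ⟨rfl, rfl⟩, ⟨rfl, rfl⟩, ⟨rfl, rfl⟩⟩ | ⟨⟨rfl, rfl⟩, ⟨rfl, rfl⟩, ⟨rfl, rfl⟩, ⟨rfl, rfl⟩, ⟨rfl, rfl⟩⟩ | ⟨⟨rfl, rfl⟩, ⟨rfl, rfl⟩, ⟨rfl, rfl⟩, ⟨rfl, rfl⟩, ⟨rfl, rfl⟩⟩ | ⟨⟨rfl, rfl⟩, ⟨rfl, rfl⟩, ⟨rfl, rfl⟩, ⟨rfl, rfl⟩, ⟨rfl, rfl⟩⟩ | ⟨⟨rfl, rfl⟩, ⟨rfl, rfl⟩, ⟨rfl, rfl⟩, ⟨rfl, rfl⟩, ⟨rfl, rfl⟩⟩ | ⟨⟨rfl, rfl⟩, ⟨rfl, rfl⟩, ⟨rfl, rfl⟩, ⟨rfl, rfl⟩, ⟨rfl, rfl⟩⟩ | ⟨⟨rfl, rfl⟩, ⟨rfl, rfl⟩, ⟨rfl, rfl⟩, ⟨rfl, rfl⟩, ⟨rfl, rfl⟩⟩ | ⟨⟨rfl, rfl⟩, ⟨rfl, rfl⟩, ⟨rfl, rfl⟩, ⟨rfl, rfl⟩, ⟨rfl, rfl⟩⟩ | ⟨⟨rfl, rfl⟩, ⟨rfl, rfl⟩, ⟨rfl, rfl⟩, ⟨rfl, rfl⟩, ⟨rfl, rfl⟩⟩ | ⟨⟨rfl, rfl⟩, ⟨rfl, rfl⟩, ⟨rfl, rfl⟩, ⟨rfl, rfl⟩, ⟨rfl, rfl⟩⟩ | ⟨⟨rfl, rfl⟩, ⟨rfl, rfl⟩, ⟨rfl, rfl⟩, ⟨rfl, rfl⟩, ⟨rfl, rfl⟩⟩ | ⟨⟨rfl, rfl⟩, ⟨rfl, rfl⟩, ⟨rfl, rfl⟩, ⟨rfl, rfl⟩, ⟨rfl, rfl⟩⟩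
  · exact patS5m (S.res 7 (fun i => [3, 4, 5, 6, 0, 1, 2].getD i 0) (by decide) (by decide) (by decide))
      (S.adj_res' (by decide) (by decide) (Or.inl ek))
      (S.adj_res' (by decide) (by decide) (Or.inl e0))
      (S.mem_res' (by decide) (by decide) a2)
      (S.adj_res' (by decide) (by decide) (Or.inl b2))
      (S.mem_res' (by decide) (by decide) a1)
      (S.adj_res' (by decide) (by decide) (Or.inl b1))
      (S.mem_res' (by decide) (by decide) a6)
      (S.adj_res' (by decide) (by decide) (Or.inl b6))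
      (S.adj_res' (by decide) (by decide) (Or.inl a5))
      (S.mem_res' (by decide) (by decide) b5)
      (S.mem_res' (by decide) (by decide) a4)
      (S.adj_res' (by decide) (by decide) (Or.inl b4))
  · exact patP1m (S.res 5 (fun i => [3, 4, 6, 0, 2].getD i 0) (by decide) (by decide) (by decide))
      (S.adj_res' (by decide) (by decide) (Or.inl ek))
      (S.adj_res' (by decide) (by decide) (Or.inl e0))
      (S.mem_res' (by decide) (by decide) a2)
      (S.adj_res' (by decide) (by decide) (Or.inl b2))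
      (S.mem_res' (by decide) (by decide) a6)
      (S.adj_res' (by decide) (by decide) (Or.inl b6))
      (S.mem_res' (by decide) (by decide) a4)
      (S.adj_res' (by decide) (by decide) (Or.inl b4))
  · exact patP1m (S.res 5 (fun i => [3, 4, 6, 0, 2].getD i 0) (by decide) (by decide) (by decide))
      (S.adj_res' (by decide) (by decide) (Or.inl ek))
      (S.adj_res' (by decide) (by decide) (Or.inl e0))
      (S.mem_res' (by decide) (by decide) a2)
      (S.adj_res' (by decide) (by decide) (Or.inl b2))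
      (S.mem_res' (by decide) (by decide) a6)
      (S.adj_res' (by decide) (by decide) (Or.inl b6))
      (S.mem_res' (by decide) (by decide) a4)
      (S.adj_res' (by decide) (by decide) (Or.inl b4))
  · exact patS6 (S.res 7 (fun i => [0, 1, 2, 3, 4, 5, 6].getD i 0) (by decide) (by decide) (by decide))
      (S.adj_res' (by decide) (by decide) (Or.inl e0))
      (S.adj_res' (by decide) (by decide) (Or.inl ek))
      (S.adj_res' (by decide) (by decide) (Or.inl b1))
      (S.adj_res' (by decide) (by decide) (Or.inl a1))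
      (S.mem_res' (by decide) (by decide) b2)
      (S.mem_res' (by decide) (by decide) a2)
      (S.adj_res' (by decide) (by decide) (Or.inl b4))
      (S.mem_res' (by decide) (by decide) a4)
      (S.mem_res' (by decide) (by decide) b5)
      (S.mem_res' (by decide) (by decide) a5)
      (S.mem_res' (by decide) (by decide) b6)
      (S.mem_res' (by decide) (by decide) a6)
  · exact patP1m (S.res 5 (fun i => [0, 1, 2, 3, 5].getD i 0) (by decide) (by decide) (by decide))
      (S.adj_res' (by decide) (by decide) (Or.inl e0))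
      (S.adj_res' (by decide) (by decide) (Or.inl ek))
      (S.mem_res' (by decide) (by decide) a5)
      (S.adj_res' (by decide) (by decide) (Or.inl b5))
      (S.mem_res' (by decide) (by decide) a2)
      (S.adj_res' (by decide) (by decide) (Or.inl b2))
      (S.mem_res' (by decide) (by decide) a1)
      (S.adj_res' (by decide) (by decide) (Or.inl b1))
  · exact patP1 (S.res 5 (fun i => [3, 5, 0, 1, 2].getD i 0) (by decide) (by decide) (by decide))
      (S.adj_res' (by decide) (by decide) (Or.inl ek))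
      (S.adj_res' (by decide) (by decide) (Or.inl e0))
      (S.mem_res' (by decide) (by decide) b5)
      (S.adj_res' (by decide) (by decide) (Or.inl a5))
      (S.mem_res' (by decide) (by decide) b1)
      (S.mem_res' (by decide) (by decide) a1)
      (S.mem_res' (by decide) (by decide) b2)
      (S.adj_res' (by decide) (by decide) (Or.inl a2))
  · exact patP1 (S.res 5 (fun i => [0, 2, 3, 5, 6].getD i 0) (by decide) (by decide) (by decide))
      (S.adj_res' (by decide) (by decide) (Or.inl e0))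
      (S.adj_res' (by decide) (by decide) (Or.inl ek))
      (S.mem_res' (by decide) (by decide) b2)
      (S.adj_res' (by decide) (by decide) (Or.inl a2))
      (S.mem_res' (by decide) (by decide) b5)
      (S.mem_res' (by decide) (by decide) a5)
      (S.mem_res' (by decide) (by decide) b6)
      (S.adj_res' (by decide) (by decide) (Or.inl a6))
  · exact patP1 (S.res 5 (fun i => [0, 1, 3, 4, 6].getD i 0) (by decide) (by decide) (by decide))
      (S.adj_res' (by decide) (by decide) (Or.inl e0))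
      (S.adj_res' (by decide) (by decide) (Or.inl ek))
      (S.mem_res' (by decide) (by decide) b1)
      (S.adj_res' (by decide) (by decide) (Or.inl a1))
      (S.mem_res' (by decide) (by decide) b4)
      (S.mem_res' (by decide) (by decide) a4)
      (S.mem_res' (by decide) (by decide) b6)
      (S.adj_res' (by decide) (by decide) (Or.inl a6))
  · exact patP1 (S.res 5 (fun i => [0, 1, 3, 4, 6].getD i 0) (by decide) (by decide) (by decide))
      (S.adj_res' (by decide) (by decide) (Or.inl e0))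
      (S.adj_res' (by decide) (by decide) (Or.inl ek))
      (S.mem_res' (by decide) (by decide) b1)
      (S.adj_res' (by decide) (by decide) (Or.inl a1))
      (S.mem_res' (by decide) (by decide) b4)
      (S.mem_res' (by decide) (by decide) a4)
      (S.mem_res' (by decide) (by decide) b6)
      (S.adj_res' (by decide) (by decide) (Or.inl a6))
  · exact patS5 (S.res 7 (fun i => [0, 1, 2, 3, 4, 5, 6].getD i 0) (by decide) (by decide) (by decide))
      (S.adj_res' (by decide) (by decide) (Or.inl e0))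
      (S.adj_res' (by decide) (by decide) (Or.inl ek))
      (S.mem_res' (by decide) (by decide) b1)
      (S.mem_res' (by decide) (by decide) a1)
      (S.adj_res' (by decide) (by decide) (Or.inl b2))
      (S.adj_res' (by decide) (by decide) (Or.inl a2))
      (S.mem_res' (by decide) (by decide) b4)
      (S.adj_res' (by decide) (by decide) (Or.inl a4))
      (S.adj_res' (by decide) (by decide) (Or.inl b5))
      (S.mem_res' (by decide) (by decide) a5)
      (S.mem_res' (by decide) (by decide) b6)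
      (S.adj_res' (by decide) (by decide) (Or.inl a6))
  · exact patP1m (S.res 5 (fun i => [3, 4, 5, 0, 1].getD i 0) (by decide) (by decide) (by decide))
      (S.adj_res' (by decide) (by decide) (Or.inl ek))
      (S.adj_res' (by decide) (by decide) (Or.inl e0))
      (S.mem_res' (by decide) (by decide) a1)
      (S.adj_res' (by decide) (by decide) (Or.inl b1))
      (S.mem_res' (by decide) (by decide) a5)
      (S.adj_res' (by decide) (by decide) (Or.inl b5))
      (S.mem_res' (by decide) (by decide) a4)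
      (S.adj_res' (by decide) (by decide) (Or.inl b4))
  · exact patS6m (S.res 7 (fun i => [3, 4, 5, 6, 0, 1, 2].getD i 0) (by decide) (by decide) (by decide))
      (S.adj_res' (by decide) (by decide) (Or.inl ek))
      (S.adj_res' (by decide) (by decide) (Or.inl e0))
      (S.adj_res' (by decide) (by decide) (Or.inl a2))
      (S.adj_res' (by decide) (by decide) (Or.inl b2))
      (S.mem_res' (by decide) (by decide) a1)
      (S.mem_res' (by decide) (by decide) b1)
      (S.adj_res' (by decide) (by decide) (Or.inl a6))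
      (S.mem_res' (by decide) (by decide) b6)
      (S.mem_res' (by decide) (by decide) a5)
      (S.mem_res' (by decide) (by decide) b5)
      (S.mem_res' (by decide) (by decide) a4)
      (S.mem_res' (by decide) (by decide) b4)

lemma end7_4 (S : Sys 7) (r1 l1 r2 l2 r3 l3 r5 l5 r6 l6 : ℕ) (e0 : (0, 0) ∈ S.E) (ek : (4, 4) ∈ S.E)
    (a1 : (1, r1) ∈ S.E) (b1 : (1, l1) ∈ S.E)
    (a2 : (2, r2) ∈ S.E) (b2 : (2, l2) ∈ S.E)
    (a3 : (3, r3) ∈ S.E) (b3 : (3, l3) ∈ S.E)
    (a5 : (5, r5) ∈ S.E) (b5 : (5, l5) ∈ S.E)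
    (a6 : (6, r6) ∈ S.E) (b6 : (6, l6) ∈ S.E)
    (hm : [(6, r6, l6), (5, r5, l5), (3, r3, l3), (2, r2, l2), (1, r1, l1)] ∈
    [[(6, 1, 4), (5, 0, 4), (3, 6, 0), (2, 5, 0), (1, 4, 0)], [(6, 2, 4), (5, 0, 4), (3, 6, 0), (2, 5, 0), (1, 4, 0)], [(6, 2, 4), (5, 1, 4), (3, 6, 0), (2, 5, 0), (1, 4, 0)], [(6, 1, 3), (5, 0, 4), (3, 5, 0), (2, 5, 6), (1, 4, 0)], [(6, 1, 4), (5, 0, 4), (3, 5, 0), (2, 5, 6), (1, 4, 0)], [(6, 1, 4), (5, 0, 4), (3, 6, 0), (2, 5, 6), (1, 4, 0)], [(6, 0, 3), (5, 0, 2), (3, 4, 0), (2, 4, 6), (1, 4, 5)], [(6, 0, 4), (5, 0, 2), (3, 4, 0), (2, 4, 6), (1, 4, 5)], [(6, 0, 4), (5, 0, 3), (3, 4, 0), (2, 4, 6), (1, 4, 5)], [(6, 0, 4), (5, 0, 3), (3, 4, 0), (2, 5, 6), (1, 4, 5)], [(6, 0, 4), (5, 0, 3), (3, 4, 0), (2, 5, 6), (1, 4, 6)], [(6, 0, 4), (5, 1, 3), (3, 4, 0), (2, 5, 6), (1, 4, 6)]]) : False := by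
  simp only [List.mem_cons, List.cons.injEq, Prod.mk.injEq, true_and, and_true, List.not_mem_nil, or_false] at hm
  rcases hm with ⟨⟨rfl, rfl⟩, ⟨rfl, rfl⟩, ⟨rfl, rfl⟩, ⟨rfl, rfl⟩, ⟨rfl, rfl⟩⟩ | ⟨⟨rfl, rfl⟩, ⟨rfl, rfl⟩, ⟨rfl, rfl⟩, ⟨rfl, rfl⟩, ⟨rfl, rfl⟩⟩ | ⟨⟨rfl, rfl⟩, ⟨rfl, rfl⟩, ⟨rfl, rfl⟩, ⟨rfl, rfl⟩, ⟨rfl, rfl⟩⟩ | ⟨⟨rfl, rfl⟩, ⟨rfl, rfl⟩, ⟨rfl, rfl⟩, ⟨rfl, rfl⟩, ⟨rfl, rfl⟩⟩ | ⟨⟨rfl, rfl⟩, ⟨rfl, rfl⟩, ⟨rfl, rfl⟩, ⟨rfl, rfl⟩, ⟨rfl, rfl⟩⟩ | ⟨⟨rfl, rfl⟩, ⟨rfl, rfl⟩, ⟨rfl, rfl⟩, ⟨rfl, rfl⟩, ⟨rfl, rfl⟩⟩ | ⟨⟨rfl, rfl⟩, ⟨rfl, rfl⟩, ⟨rfl, rfl⟩, ⟨rfl, rfl⟩, ⟨rfl, rfl⟩⟩ | ⟨⟨rfl, rfl⟩, ⟨rfl, rfl⟩, ⟨rfl, rfl⟩, ⟨rfl, rfl⟩, ⟨rfl, rfl⟩⟩ | ⟨⟨rfl, rfl⟩, ⟨rfl, rfl⟩, ⟨rfl, rfl⟩, ⟨rfl, rfl⟩, ⟨rfl, rfl⟩⟩ | ⟨⟨rfl, rfl⟩, ⟨rfl, rfl⟩, ⟨rfl, rfl⟩, ⟨rfl, rfl⟩, ⟨rfl, rfl⟩⟩ | ⟨⟨rfl, rfl⟩, ⟨rfl, rfl⟩, ⟨rfl, rfl⟩, ⟨rfl, rfl⟩, ⟨rfl, rfl⟩⟩ | ⟨⟨rfl, rfl⟩, ⟨rfl, rfl⟩, ⟨rfl, rfl⟩, ⟨rfl, rfl⟩, ⟨rfl, rfl⟩⟩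
  · exact patP1m (S.res 5 (fun i => [0, 1, 3, 4, 6].getD i 0) (by decide) (by decide) (by decide))
      (S.adj_res' (by decide) (by decide) (Or.inl e0))
      (S.adj_res' (by decide) (by decide) (Or.inl ek))
      (S.mem_res' (by decide) (by decide) a6)
      (S.adj_res' (by decide) (by decide) (Or.inl b6))
      (S.mem_res' (by decide) (by decide) a3)
      (S.adj_res' (by decide) (by decide) (Or.inl b3))
      (S.mem_res' (by decide) (by decide) a1)
      (S.adj_res' (by decide) (by decide) (Or.inl b1))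
  · exact patP1m (S.res 5 (fun i => [4, 5, 6, 0, 2].getD i 0) (by decide) (by decide) (by decide))
      (S.adj_res' (by decide) (by decide) (Or.inl ek))
      (S.adj_res' (by decide) (by decide) (Or.inl e0))
      (S.mem_res' (by decide) (by decide) a2)
      (S.adj_res' (by decide) (by decide) (Or.inl b2))
      (S.mem_res' (by decide) (by decide) a6)
      (S.adj_res' (by decide) (by decide) (Or.inl b6))
      (S.mem_res' (by decide) (by decide) a5)
      (S.adj_res' (by decide) (by decide) (Or.inl b5))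
  · exact patP1m (S.res 5 (fun i => [0, 1, 2, 4, 5].getD i 0) (by decide) (by decide) (by decide))
      (S.adj_res' (by decide) (by decide) (Or.inl e0))
      (S.adj_res' (by decide) (by decide) (Or.inl ek))
      (S.mem_res' (by decide) (by decide) a5)
      (S.adj_res' (by decide) (by decide) (Or.inl b5))
      (S.mem_res' (by decide) (by decide) a2)
      (S.adj_res' (by decide) (by decide) (Or.inl b2))
      (S.mem_res' (by decide) (by decide) a1)
      (S.adj_res' (by decide) (by decide) (Or.inl b1))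
  · exact patS6 (S.res 7 (fun i => [4, 5, 6, 0, 1, 2, 3].getD i 0) (by decide) (by decide) (by decide))
      (S.adj_res' (by decide) (by decide) (Or.inl ek))
      (S.adj_res' (by decide) (by decide) (Or.inl e0))
      (S.adj_res' (by decide) (by decide) (Or.inl b5))
      (S.adj_res' (by decide) (by decide) (Or.inl a5))
      (S.mem_res' (by decide) (by decide) b6)
      (S.mem_res' (by decide) (by decide) a6)
      (S.adj_res' (by decide) (by decide) (Or.inl b1))
      (S.mem_res' (by decide) (by decide) a1)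
      (S.mem_res' (by decide) (by decide) b2)
      (S.mem_res' (by decide) (by decide) a2)
      (S.mem_res' (by decide) (by decide) b3)
      (S.mem_res' (by decide) (by decide) a3)
  · exact patS5m (S.res 7 (fun i => [0, 1, 2, 3, 4, 5, 6].getD i 0) (by decide) (by decide) (by decide))
      (S.adj_res' (by decide) (by decide) (Or.inl e0))
      (S.adj_res' (by decide) (by decide) (Or.inl ek))
      (S.mem_res' (by decide) (by decide) a6)
      (S.adj_res' (by decide) (by decide) (Or.inl b6))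
      (S.mem_res' (by decide) (by decide) a5)
      (S.adj_res' (by decide) (by decide) (Or.inl b5))
      (S.mem_res' (by decide) (by decide) a3)
      (S.adj_res' (by decide) (by decide) (Or.inl b3))
      (S.adj_res' (by decide) (by decide) (Or.inl a2))
      (S.mem_res' (by decide) (by decide) b2)
      (S.mem_res' (by decide) (by decide) a1)
      (S.adj_res' (by decide) (by decide) (Or.inl b1))
  · exact patP1m (S.res 5 (fun i => [0, 1, 3, 4, 6].getD i 0) (by decide) (by decide) (by decide))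
      (S.adj_res' (by decide) (by decide) (Or.inl e0))
      (S.adj_res' (by decide) (by decide) (Or.inl ek))
      (S.mem_res' (by decide) (by decide) a6)
      (S.adj_res' (by decide) (by decide) (Or.inl b6))
      (S.mem_res' (by decide) (by decide) a3)
      (S.adj_res' (by decide) (by decide) (Or.inl b3))
      (S.mem_res' (by decide) (by decide) a1)
      (S.adj_res' (by decide) (by decide) (Or.inl b1))
  · exact patP1 (S.res 5 (fun i => [4, 6, 0, 2, 3].getD i 0) (by decide) (by decide) (by decide))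
      (S.adj_res' (by decide) (by decide) (Or.inl ek))
      (S.adj_res' (by decide) (by decide) (Or.inl e0))
      (S.mem_res' (by decide) (by decide) b6)
      (S.adj_res' (by decide) (by decide) (Or.inl a6))
      (S.mem_res' (by decide) (by decide) b2)
      (S.mem_res' (by decide) (by decide) a2)
      (S.mem_res' (by decide) (by decide) b3)
      (S.adj_res' (by decide) (by decide) (Or.inl a3))
  · exact patP1 (S.res 5 (fun i => [0, 2, 4, 5, 6].getD i 0) (by decide) (by decide) (by decide))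
      (S.adj_res' (by decide) (by decide) (Or.inl e0))
      (S.adj_res' (by decide) (by decide) (Or.inl ek))
      (S.mem_res' (by decide) (by decide) b2)
      (S.adj_res' (by decide) (by decide) (Or.inl a2))
      (S.mem_res' (by decide) (by decide) b5)
      (S.mem_res' (by decide) (by decide) a5)
      (S.mem_res' (by decide) (by decide) b6)
      (S.adj_res' (by decide) (by decide) (Or.inl a6))
  · exact patP1 (S.res 5 (fun i => [4, 5, 0, 1, 3].getD i 0) (by decide) (by decide) (by decide))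
      (S.adj_res' (by decide) (by decide) (Or.inl ek))
      (S.adj_res' (by decide) (by decide) (Or.inl e0))
      (S.mem_res' (by decide) (by decide) b5)
      (S.adj_res' (by decide) (by decide) (Or.inl a5))
      (S.mem_res' (by decide) (by decide) b1)
      (S.mem_res' (by decide) (by decide) a1)
      (S.mem_res' (by decide) (by decide) b3)
      (S.adj_res' (by decide) (by decide) (Or.inl a3))
  · exact patP1 (S.res 5 (fun i => [4, 5, 0, 1, 3].getD i 0) (by decide) (by decide) (by decide))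
      (S.adj_res' (by decide) (by decide) (Or.inl ek))
      (S.adj_res' (by decide) (by decide) (Or.inl e0))
      (S.mem_res' (by decide) (by decide) b5)
      (S.adj_res' (by decide) (by decide) (Or.inl a5))
      (S.mem_res' (by decide) (by decide) b1)
      (S.mem_res' (by decide) (by decide) a1)
      (S.mem_res' (by decide) (by decide) b3)
      (S.adj_res' (by decide) (by decide) (Or.inl a3))
  · exact patS5 (S.res 7 (fun i => [4, 5, 6, 0, 1, 2, 3].getD i 0) (by decide) (by decide) (by decide))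
      (S.adj_res' (by decide) (by decide) (Or.inl ek))
      (S.adj_res' (by decide) (by decide) (Or.inl e0))
      (S.mem_res' (by decide) (by decide) b5)
      (S.mem_res' (by decide) (by decide) a5)
      (S.adj_res' (by decide) (by decide) (Or.inl b6))
      (S.adj_res' (by decide) (by decide) (Or.inl a6))
      (S.mem_res' (by decide) (by decide) b1)
      (S.adj_res' (by decide) (by decide) (Or.inl a1))
      (S.adj_res' (by decide) (by decide) (Or.inl b2))
      (S.mem_res' (by decide) (by decide) a2)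
      (S.mem_res' (by decide) (by decide) b3)
      (S.adj_res' (by decide) (by decide) (Or.inl a3))
  · exact patS6m (S.res 7 (fun i => [0, 1, 2, 3, 4, 5, 6].getD i 0) (by decide) (by decide) (by decide))
      (S.adj_res' (by decide) (by decide) (Or.inl e0))
      (S.adj_res' (by decide) (by decide) (Or.inl ek))
      (S.adj_res' (by decide) (by decide) (Or.inl a6))
      (S.adj_res' (by decide) (by decide) (Or.inl b6))
      (S.mem_res' (by decide) (by decide) a5)
      (S.mem_res' (by decide) (by decide) b5)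
      (S.adj_res' (by decide) (by decide) (Or.inl a3))
      (S.mem_res' (by decide) (by decide) b3)
      (S.mem_res' (by decide) (by decide) a2)
      (S.mem_res' (by decide) (by decide) b2)
      (S.mem_res' (by decide) (by decide) a1)
      (S.mem_res' (by decide) (by decide) b1)

lemma caseA7 (S : Sys 7) (k : ℕ) (e0 : (0, 0) ∈ S.E) (ek : (k, k) ∈ S.E) (hk : 0 < k)
    (two : ∀ v, v < 7 → v ≠ 0 → v ≠ k → ∃ r l, (v, r) ∈ S.E ∧ (v, l) ∈ S.E ∧ cyc v r l)
    (crs : ∀ i j, i < j → S.adj i j → i = 0 ∨ (i ≤ k ∧ k ≤ j)) : False := by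
  choose! r l hr hl hc using two
  have k7 : k < 7 := (S.lt _ ek).1
  have o1 : ∀ v, v < 7 → v ≠ 0 → v ≠ k → r v < 7 ∧ l v < 7 ∧ ok1 k v (r v) (l v) := by
    intro v h1 h2 h3
    have a := hr v h1 h2 h3
    have b := hl v h1 h2 h3
    have c := hc v h1 h2 h3
    have a1 := crs v (r v)
    have a2 := crs (r v) v
    have b1 := crs v (l v)
    have b2 := crs (l v) v
    have a3 : S.adj v (r v) := Or.inl a
    have a4 : S.adj (r v) v := Or.inr a
    have b3 : S.adj v (l v) := Or.inl b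
    have b4 : S.adj (l v) v := Or.inr b
    simp only [a3, a4, b3, b4, forall_const] at a1 a2 b1 b2
    refine ⟨(S.lt _ a).2, (S.lt _ b).2, c, ?_, ?_⟩
    · unfold cyc at c
      omega
    · unfold cyc at c
      omega
  have o2 : ∀ b c, b < c → c < 7 → b ≠ 0 → b ≠ k → c ≠ k →
      ok2 k b (r b) (l b) c (r c) (l c) := by
    intro b c h1 h2 h3 h4 h5
    have hb := (o1 b (by omega) h3 h4).2.2
    have hc := (o1 c h2 (by omega) h5).2.2
    have rb := hr b (by omega) h3 h4
    have lb := hl b (by omega) h3 h4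
    have rc := hr c h2 (by omega) h5
    have lc := hl c h2 (by omega) h5
    obtain ⟨b1, b2, b3⟩ := hb
    obtain ⟨c1, c2, c3⟩ := hc
    refine ⟨?_, fun h => ⟨?_, ?_, ?_⟩⟩
    · rintro h ⟨d1, d2⟩
      exact S.L1 rb (Or.inl lb) lc (Or.inl rc) (by unfold cyc at *; omega)
        (by unfold cyc at *; omega) b1 c1 d1 d2
    · rintro ⟨d1, d2⟩
      exact S.N ek rb (Or.inl lb) lc (Or.inl rc) (by unfold cyc at *; omega) b1 c1
        (by unfold cyc at *; omega) d2 d1
    · rintro ⟨d1, d2⟩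
      exact S.N e0 rc (Or.inl lc) lb (Or.inl rb) (by unfold cyc at *; omega) c1 b1
        (by unfold cyc at *; omega) d2 d1
    · rintro ⟨d1, d2⟩
      have f1 : (b, c) ∈ S.E := by
        rcases d1 with d1 | d1
        · rw [d1]; exact rb
        · rw [d1]; exact lb
      have f2 : (c, b) ∈ S.E := by
        rcases d2 with d2 | d2
        · rw [d2]; exact rc
        · rw [d2]; exact lc
      have := S.not_both f1 f2
      omega
  have main : ∀ (L : List (List (ℕ × ℕ × ℕ))) (vs : List ℕ), srch k L vs [] = true →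
      (∀ v ∈ vs, v < 7 ∧ v ≠ 0 ∧ v ≠ k) → vs.Pairwise (· < ·) →
      vs.reverse.map (fun v => (v, r v, l v)) ∈ L := by
    intro L vs h h1 h2
    have := srch_sound k L r l vs [] h (fun v hv => o1 v (h1 v hv).1 (h1 v hv).2.1 (h1 v hv).2.2)
      (by simp) (List.Pairwise.imp_of_mem (fun {b c} hb hc hbc =>
        o2 b c hbc (h1 c hc).1 (h1 b hb).2.1 (h1 b hb).2.2 (h1 c hc).2.2) h2)
    simpa using this
  interval_cases k
  · simpa using main _ _ fin7_1 (by decide) (by decide)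
  · simpa using main _ _ fin7_2 (by decide) (by decide)
  · exact end7_3 S (r 1) (l 1) (r 2) (l 2) (r 4) (l 4) (r 5) (l 5) (r 6) (l 6) e0 ek
      (hr 1 (by decide) (by decide) (by decide)) (hl 1 (by decide) (by decide) (by decide))
      (hr 2 (by decide) (by decide) (by decide)) (hl 2 (by decide) (by decide) (by decide))
      (hr 4 (by decide) (by decide) (by decide)) (hl 4 (by decide) (by decide) (by decide))
      (hr 5 (by decide) (by decide) (by decide)) (hl 5 (by decide) (by decide) (by decide))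
      (hr 6 (by decide) (by decide) (by decide)) (hl 6 (by decide) (by decide) (by decide))
      (main _ _ fin7_3 (by decide) (by decide))
  · exact end7_4 S (r 1) (l 1) (r 2) (l 2) (r 3) (l 3) (r 5) (l 5) (r 6) (l 6) e0 ek
      (hr 1 (by decide) (by decide) (by decide)) (hl 1 (by decide) (by decide) (by decide))
      (hr 2 (by decide) (by decide) (by decide)) (hl 2 (by decide) (by decide) (by decide))
      (hr 3 (by decide) (by decide) (by decide)) (hl 3 (by decide) (by decide) (by decide))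
      (hr 5 (by decide) (by decide) (by decide)) (hl 5 (by decide) (by decide) (by decide))
      (hr 6 (by decide) (by decide) (by decide)) (hl 6 (by decide) (by decide) (by decide))
      (main _ _ fin7_4 (by decide) (by decide))
  · simpa using main _ _ fin7_5 (by decide) (by decide)
  · simpa using main _ _ fin7_6 (by decide) (by decide)

lemma caseA {n : ℕ} (hn : 7 ≤ n) (S : Sys n) (k : ℕ) (e0 : (0, 0) ∈ S.E) (ek : (k, k) ∈ S.E)
    (hk : 0 < k)
    (two : ∀ v, v < n → v ≠ 0 → v ≠ k → ∃ r l, (v, r) ∈ S.E ∧ (v, l) ∈ S.E ∧ cyc v r l)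
    (crs : ∀ i j, i < j → S.adj i j → i = 0 ∨ (i ≤ k ∧ k ≤ j)) : False := by
  have kn : k < n := (S.lt _ ek).1
  set D := ((Finset.range n).erase 0).erase k with hD
  have mD : ∀ v, v ∈ D ↔ v < n ∧ v ≠ 0 ∧ v ≠ k := by
    intro v
    simp only [hD, Finset.mem_erase, Finset.mem_range]
    tauto
  have cD : D.card = n - 2 := by
    rw [hD, Finset.card_erase_of_mem (by simp; omega), Finset.card_erase_of_mem (by simp; omega),
      Finset.card_range]
    omega
  obtain ⟨W, hW, cW, clW⟩ := low_closed D (S.ht k) 5 (by omega)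
  set V := insert 0 (insert k W) with hV
  have k0 : k ∉ W := fun h => ((mD k).1 (hW h)).2.2 rfl
  have z0 : 0 ∉ insert k W := by
    rw [Finset.mem_insert]
    rintro (h | h)
    · omega
    · exact ((mD 0).1 (hW h)).2.1 rfl
  have cV : V.card = 7 := by
    rw [hV, Finset.card_insert_of_notMem z0, Finset.card_insert_of_notMem k0, cW]
  have mV : ∀ v, v ∈ V ↔ v = 0 ∨ v = k ∨ v ∈ W := by
    intro v
    simp only [hV, Finset.mem_insert]
  have ltV : ∀ v ∈ V, v < n := by
    intro v hv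
    rcases (mV v).1 hv with h | h | h
    · omega
    · omega
    · exact ((mD v).1 (hW h)).1
  have clV : ∀ v ∈ W, ∀ t, (v, t) ∈ S.E → v ≠ t → t ∈ V := by
    intro v hv t e hne
    have hv' := (mD v).1 (hW hv)
    by_cases t0 : t = 0
    · exact (mV t).2 (Or.inl t0)
    by_cases tk : t = k
    · exact (mV t).2 (Or.inr (Or.inl tk))
    refine (mV t).2 (Or.inr (Or.inr (clW v hv t ((mD t).2 ⟨(S.lt _ e).2, t0, tk⟩) ?_)))
    refine S.H e0 ek hk e hne ?_
    have a1 := crs v t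
    have a2 := crs t v
    have a3 : S.adj v t := Or.inl e
    have a4 : S.adj t v := Or.inr e
    simp only [a3, a4, forall_const] at a1 a2
    omega
  let g := V.orderEmbOfFin cV
  let f : ℕ → ℕ := fun i => if h : i < 7 then g ⟨i, h⟩ else 0
  have fm : ∀ i j, i < j → j < 7 → f i < f j := by
    intro i j h1 h2
    simp only [f, dif_pos h2, dif_pos (show i < 7 by omega)]
    exact g.strictMono (by simpa using h1)
  have fV : ∀ i, i < 7 → f i ∈ V := by
    intro i h
    simp only [f, dif_pos h]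
    exact Finset.orderEmbOfFin_mem V cV _
  have fs : ∀ v ∈ V, ∃ i, i < 7 ∧ f i = v := by
    intro v hv
    have : v ∈ Set.range g := by
      rw [Finset.range_orderEmbOfFin]
      exact hv
    obtain ⟨i, hi⟩ := this
    exact ⟨i, i.2, by simp only [f, dif_pos i.2]; exact hi⟩
  have fle : ∀ i j, i < 7 → j < 7 → (i ≤ j ↔ f i ≤ f j) := by
    intro i j hi hj
    constructor
    · intro h
      rcases h.lt_or_eq with h | h
      · exact (fm i j h hj).le
      · rw [h]
    · intro h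
      by_contra hh
      have := fm j i (by omega) hi
      omega
  have f0 : f 0 = 0 := by
    obtain ⟨i, hi, h⟩ := fs 0 ((mV 0).2 (Or.inl rfl))
    have := (fle 0 i (by omega) hi).1 (by omega)
    omega
  obtain ⟨k', hk', fk⟩ := fs k ((mV k).2 (Or.inr (Or.inl rfl)))
  have hlt : ∀ i < 7, f i < n := fun i hi => ltV _ (fV i hi)
  have hcy : ∀ i < 7, 0 < i → i + 1 < 7 → cyc (f 0) (f i) (f (i + 1)) := fun i h1 h2 h3 =>
    Or.inl ⟨fm 0 i h2 h1, fm i (i + 1) (by omega) h3⟩
  refine caseA7 (S.res 7 f (by decide) hlt hcy) k' (S.mem_res' (by decide) (by decide) (by rwa [f0]))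
    (S.mem_res' hk' hk' (by rwa [fk])) ?_ ?_ ?_
  · rcases Nat.eq_zero_or_pos k' with h | h
    · rw [h, f0] at fk
      omega
    · exact h
  · intro v h1 h2 h3
    have v0 : f v ≠ 0 := by
      have := fm 0 v (by omega) h1
      omega
    have vk : f v ≠ k := by
      intro h
      have a1 := (fle v k' h1 hk').2 (by omega)
      have a2 := (fle k' v hk' h1).2 (by omega)
      omega
    have vW : f v ∈ W := by
      rcases (mV _).1 (fV v h1) with h | h | h
      · exact absurd h v0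
      · exact absurd h vk
      · exact h
    obtain ⟨r, l, er, el, c⟩ := two (f v) (hlt v h1) v0 vk
    obtain ⟨r', hr', fr⟩ := fs r (clV _ vW r er (by unfold cyc at c; omega))
    obtain ⟨l', hl', fl⟩ := fs l (clV _ vW l el (by unfold cyc at c; omega))
    refine ⟨r', l', S.mem_res' h1 hr' (by rwa [fr]), S.mem_res' h1 hl' (by rwa [fl]), ?_⟩
    have a1 := fle v r' h1 hr'
    have a2 := fle r' v hr' h1
    have a3 := fle v l' h1 hl'
    have a4 := fle l' v hl' h1
    have a5 := fle r' l' hr' hl'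
    have a6 := fle l' r' hl' hr'
    rw [fr] at a1 a2 a5 a6
    rw [fl] at a3 a4 a5 a6
    unfold cyc at *
    omega
  · intro i j hij ha
    have hh := Sys.adj_lt _ ha
    have ha' : S.adj (f i) (f j) := by
      rcases ha with h | h
      · exact Or.inl (S.mem_res.1 h).2
      · exact Or.inr (S.mem_res.1 h).2
    have a0 := crs (f i) (f j) (fm i j hij hh.2) ha'
    have a1 := fle i k' hh.1 hk'
    have a2 := fle k' j hk' hh.2
    have a3 := fle i 0 hh.1 (by omega)
    rw [fk] at a1 a2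
    rw [f0] at a3
    omega

end Pool.Agent.MP_3fce03_co
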