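import Pool.Agent.MP_3fce03_co.Bridge

namespace Pool.Agent.MP_3fce03_co

set_option linter.unusedVariables false
set_option linter.unusedSimpArgs false

lemma conv_of_fun {ι : Type} (I : Finset ι) (P ρ : ι → ℝ × ℝ)
    (h : ∀ e ∈ I, ∀ f ∈ I, e ≠ f → 0 < dt (P e - P f) (ρ e)) :
    (I.image P).card = I.card ∧
      ∀ x ∈ I.image P, x ∉ convexHull ℝ (((I.image P : Finset (ℝ × ℝ)) : Set (ℝ × ℝ)) \ {x}) := by
  constructor
  · refine Finset.card_image_of_injOn ?_
    intro e he f hf hp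
    by_contra hne
    have := h e he f hf hne
    rw [hp] at this
    simp [dt] at this
  · intro x hx
    obtain ⟨e, he, rfl⟩ := Finset.mem_image.1 hx
    refine hull_of_fun _ _ (ρ e) ?_
    intro y hy hne
    obtain ⟨f, hf, rfl⟩ := Finset.mem_image.1 hy
    exact h e he f hf (by rintro rfl; exact hne rfl)

lemma lower_gen {ι : Type} (n : ℕ) (v σ : ℕ → ℝ × ℝ) (I : Finset ι) (p q : ι → ℕ)
    (ρ : ι → ℝ × ℝ) (hp : ∀ e ∈ I, p e < n) (hq : ∀ e ∈ I, q e < n)
    (hA : ∀ i < n, ∀ j < n, i ≠ j → 0 < dt (v i - v j) (σ i))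
    (hX : ∀ e ∈ I, ∀ f ∈ I, e ≠ f → 0 < dt (v (p e) + v (q e) - (v (p f) + v (q f))) (ρ e)) :
    ∃ A X : Finset (ℝ × ℝ), A.card = n ∧
      (∀ x ∈ A, x ∉ convexHull ℝ ((A : Set (ℝ × ℝ)) \ {x})) ∧
      (∀ x ∈ X, ∃ a ∈ A, ∃ b ∈ A, x = a + b) ∧
      (∀ x ∈ X, x ∉ convexHull ℝ ((X : Set (ℝ × ℝ)) \ {x})) ∧ X.card = I.card := by
  have h1 := conv_of_fun (Finset.range n) v σ
    (fun i hi j hj => hA i (Finset.mem_range.1 hi) j (Finset.mem_range.1 hj))
  have h2 := conv_of_fun I (fun e => v (p e) + v (q e)) ρ hX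
  refine ⟨(Finset.range n).image v, I.image (fun e => v (p e) + v (q e)), ?_, h1.2, ?_, h2.2, h2.1⟩
  · rw [h1.1, Finset.card_range]
  · intro x hx
    obtain ⟨e, he, rfl⟩ := Finset.mem_image.1 hx
    exact ⟨_, Finset.mem_image_of_mem v (Finset.mem_range.2 (hp e he)), _,
      Finset.mem_image_of_mem v (Finset.mem_range.2 (hq e he)), rfl⟩

/-- cast of an integer point -/
def cz (p : ℤ × ℤ) : ℝ × ℝ := ((p.1 : ℝ), (p.2 : ℝ))

/-- small example: vertices -/
def sv (i : ℕ) : ℤ × ℤ := [(-1, 1), (1, 1), (0, 0), (0, 20), (8, 16), (-8, 16)].getD i (0, 0)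
/-- small example: functionals for the vertices -/
def ss (i : ℕ) : ℤ × ℤ := [(8, -16), (8, 16), (2, 0), (-16, 0), (-1, 19), (-1, -19)].getD i (0, 0)
/-- small example: heads -/
def sp (i : ℕ) : ℕ := [0, 1, 2, 2, 3, 3, 4, 4, 5, 5].getD i 0
/-- small example: tails -/
def sq (i : ℕ) : ℕ := [0, 1, 0, 1, 0, 1, 0, 2, 2, 1].getD i 0
/-- small example: functionals for the sums -/
def sr (i : ℕ) : ℤ × ℤ := [(7, -15), (7, 15), (3, -1), (3, 1), (-8, -4), (-8, 4), (-7, 5), (5, 15), (5, -15),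
    (-7, -5)].getD i (0, 0)

lemma small_A : ∀ i < 6, ∀ j < 6, i ≠ j →
    0 < ((sv i).1 - (sv j).1) * (ss i).2 - ((sv i).2 - (sv j).2) * (ss i).1 := by decide +kernel

lemma small_X : ∀ i < 10, ∀ j < 10, i ≠ j →
    0 < ((sv (sp i)).1 + (sv (sq i)).1 - ((sv (sp j)).1 + (sv (sq j)).1)) * (sr i).2 -
      ((sv (sp i)).2 + (sv (sq i)).2 - ((sv (sp j)).2 + (sv (sq j)).2)) * (sr i).1 := by
  decide +kernel

lemma small_pq : ∀ n < 7, 3 ≤ n → ∀ e < 10, e < 2 * n - 2 → sp e < n ∧ sq e < n := by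
  decide +kernel

lemma lower_small (n : ℕ) (h3 : 3 ≤ n) (h6 : n ≤ 6) :
    ∃ A X : Finset (ℝ × ℝ), A.card = n ∧
      (∀ x ∈ A, x ∉ convexHull ℝ ((A : Set (ℝ × ℝ)) \ {x})) ∧
      (∀ x ∈ X, ∃ a ∈ A, ∃ b ∈ A, x = a + b) ∧
      (∀ x ∈ X, x ∉ convexHull ℝ ((X : Set (ℝ × ℝ)) \ {x})) ∧ X.card = 2 * n - 2 := by
  have := lower_gen n (fun i => cz (sv i)) (fun i => cz (ss i)) (Finset.range (2 * n - 2)) sp sq
    (fun i => cz (sr i))
    (fun e he => (small_pq n (by omega) h3 e (by rw [Finset.mem_range] at he; omega)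
      (Finset.mem_range.1 he)).1)
    (fun e he => (small_pq n (by omega) h3 e (by rw [Finset.mem_range] at he; omega)
      (Finset.mem_range.1 he)).2)
    (by
      intro i hi j hj hne
      have := small_A i (by omega) j (by omega) hne
      simp only [dt, cz, Prod.fst_sub, Prod.snd_sub]
      exact_mod_cast this)
    (by
      intro i hi j hj hne
      rw [Finset.mem_range] at hi hj
      have := small_X i (by omega) j (by omega) hne
      simp only [dt, cz, Prod.fst_sub, Prod.snd_sub, Prod.fst_add, Prod.snd_add]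
      exact_mod_cast this)
  rwa [Finset.card_range] at this

/-- powers of a linear map of order three and determinant one -/
def rot (i : ℕ) (p : ℝ × ℝ) : ℝ × ℝ :=
  if i = 0 then p else if i = 1 then (-p.2, p.1 - p.2) else (p.2 - p.1, -p.1)

/-- the parabolic arc carrying one third of the vertices -/
def bb (t : ℝ) : ℝ × ℝ := (32 - 32 * t, -32 - 2 * t + t ^ 2)

/-- the two parabolic arcs carrying one third of the sums -/
noncomputable def px (f : Bool) (t : ℝ) : ℝ × ℝ :=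
  if f then (64 - 6 * t - t ^ 2, 32 - 61 / 2 * t - 15 / 16 * t ^ 2)
  else (32 - 32 * t, -65 - 2 * t + t ^ 2)

/-- tangent vectors -/
noncomputable def tx (f : Bool) (t : ℝ) : ℝ × ℝ :=
  if f then (6 + 2 * t, 61 / 2 + 15 / 8 * t) else (32, 2 - 2 * t)

lemma arcA (i j : ℕ) (hi : i < 3) (hj : j < 3) (s t : ℝ) (s0 : 0 < s) (s1 : s ≤ 1) (t0 : 0 < t)
    (t1 : t ≤ 1) (hne : i = j → s ≠ t) :
    0 < dt (rot i (bb s) - rot j (bb t)) (rot i (tx false s)) := by
  have m1 : 0 ≤ s * t := by positivity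
  have m2 : s * t ≤ t := by nlinarith
  have m3 : 0 ≤ t * t := by positivity
  have m4 : t * t ≤ t := by nlinarith
  have m5 : 0 ≤ s * s := by positivity
  have m6 : 0 ≤ s * (t * t) := by positivity
  have m7 : s * (t * t) ≤ t * t := by nlinarith
  by_cases h : i = j
  · have h1 : 0 < (s - t) ^ 2 := by
      have := sub_ne_zero.2 (hne h)
      positivity
    subst h
    interval_cases i <;> simp [dt, rot, bb, tx] <;> nlinarith
  · interval_cases i <;> interval_cases j <;> first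
      | exact absurd rfl h
      | (simp [dt, rot, bb, tx]; nlinarith)

lemma arcX (i j : ℕ) (hi : i < 3) (hj : j < 3) (f g : Bool) (s t : ℝ) (s0 : 0 < s) (s1 : s ≤ 1)
    (t0 : 0 < t) (t1 : t ≤ 1) (hne : i = j → f = g → s ≠ t) :
    0 < dt (rot i (px f s) - rot j (px g t)) (rot i (tx f s)) := by
  have m1 : 0 ≤ s * t := by positivity
  have m2 : s * t ≤ t := by nlinarith
  have m3 : 0 ≤ t * t := by positivity
  have m4 : t * t ≤ t := by nlinarith
  have m5 : 0 ≤ s * s := by positivity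
  have m6 : 0 ≤ s * (t * t) := by positivity
  have m7 : s * (t * t) ≤ t * t := by nlinarith
  by_cases h : i = j ∧ f = g
  · have h1 : 0 < (s - t) ^ 2 := by
      have := sub_ne_zero.2 (hne h.1 h.2)
      positivity
    obtain ⟨rfl, rfl⟩ := h
    interval_cases i <;> cases f <;> simp [dt, rot, px, tx] <;> nlinarith
  · interval_cases i <;> interval_cases j <;> cases f <;> cases g <;> first
      | exact absurd ⟨rfl, rfl⟩ h
      | (simp [dt, rot, px, tx]; nlinarith)

lemma lower_big (n : ℕ) (h3 : 3 ≤ n) :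
    ∃ A X : Finset (ℝ × ℝ), A.card = n ∧
      (∀ x ∈ A, x ∉ convexHull ℝ ((A : Set (ℝ × ℝ)) \ {x})) ∧
      (∀ x ∈ X, ∃ a ∈ A, ∃ b ∈ A, x = a + b) ∧
      (∀ x ∈ X, x ∉ convexHull ℝ ((X : Set (ℝ × ℝ)) \ {x})) ∧ X.card = 2 * n - 3 := by
  have q0 : ∀ k : ℕ, (0 : ℝ) < (1 / 4) ^ k := fun k => by positivity
  have q1 : ∀ k : ℕ, ((1 : ℝ) / 4) ^ k ≤ 1 := fun k => pow_le_one₀ (by norm_num) (by norm_num)
  have qi : ∀ k l : ℕ, ((1 : ℝ) / 4) ^ k = (1 / 4) ^ l → k = l := fun k l h =>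
    pow_right_injective₀ (by norm_num) (by norm_num) h
  let v : ℕ → ℝ × ℝ := fun m => rot (m % 3) (bb ((1 / 4) ^ (m / 3)))
  let I : Finset (ℕ × Bool) := (Finset.range n ×ˢ {false}) ∪ (Finset.Ico 3 n ×ˢ {true})
  let q : ℕ × Bool → ℕ := fun e => if e.2 then 3 * (e.1 / 3 - 1) + (e.1 % 3 + 1) % 3 else e.1 % 3
  let ex : ℕ × Bool → ℕ := fun e => if e.2 then e.1 / 3 - 1 else e.1 / 3
  have mI : ∀ m b, (m, b) ∈ I ↔ m < n ∧ (b = true → 3 ≤ m) := by
    intro m b
    cases b <;> simp [I]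
    tauto
  have cI : I.card = 2 * n - 3 := by
    simp only [I]
    rw [Finset.card_union_of_disjoint, Finset.card_product, Finset.card_product]
    · simp
      omega
    · rw [Finset.disjoint_left]
      rintro ⟨m, b⟩ h1 h2
      simp at h1 h2
      simp_all
  have key : ∀ e ∈ I, v e.1 + v (q e) = rot (e.1 % 3) (px e.2 ((1 / 4) ^ ex e)) := by
    rintro ⟨m, b⟩ he
    rw [mI] at he
    cases b
    · simp only [v, q, ex, Bool.false_eq_true, if_false]
      rw [Nat.mod_mod, show m % 3 / 3 = 0 by omega, pow_zero]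
      have : m % 3 < 3 := by omega
      generalize m % 3 = i at *
      generalize ((1 : ℝ) / 4) ^ (m / 3) = t
      interval_cases i <;> ext <;> simp [rot, bb, px] <;> ring
    · simp only [v, q, ex, if_true]
      have h1 := he.2 rfl
      obtain ⟨k, hk⟩ : ∃ k, m / 3 = k + 1 := ⟨m / 3 - 1, by omega⟩
      rw [hk, Nat.add_sub_cancel, show (3 * k + (m % 3 + 1) % 3) % 3 = (m % 3 + 1) % 3 by omega,
        show (3 * k + (m % 3 + 1) % 3) / 3 = k by omega, pow_succ]
      have : m % 3 < 3 := by omega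
      generalize m % 3 = i at *
      generalize ((1 : ℝ) / 4) ^ k = t
      interval_cases i <;> ext <;> simp [rot, bb, px] <;> ring
  have := lower_gen n v (fun m => rot (m % 3) (tx false ((1 / 4) ^ (m / 3)))) I Prod.fst q
    (fun e => rot (e.1 % 3) (tx e.2 ((1 / 4) ^ ex e)))
    (by
      rintro ⟨m, b⟩ he
      exact ((mI m b).1 he).1)
    (by
      rintro ⟨m, b⟩ he
      rw [mI] at he
      cases b
      · simp only [q, Bool.false_eq_true, if_false]
        omega
      · simp only [q, if_true]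
        have := he.2 rfl
        omega)
    (by
      intro i hi j hj hne
      refine arcA _ _ (by omega) (by omega) _ _ (q0 _) (q1 _) (q0 _) (q1 _) ?_
      intro h1 h2
      have := qi _ _ h2
      omega)
    (by
      intro e he f hf hne
      rw [key e he, key f hf]
      refine arcX _ _ (by omega) (by omega) _ _ _ _ (q0 _) (q1 _) (q0 _) (q1 _) ?_
      intro h1 h2 h3
      have h4 := qi _ _ h3
      obtain ⟨m, b⟩ := e
      obtain ⟨m', b'⟩ := f
      rw [mI] at he hf
      simp only at h1 h2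
      subst h2
      apply hne
      cases b
      · simp only [ex, Bool.false_eq_true, if_false] at h4
        rw [show m = m' by omega]
      · simp only [ex, if_true] at h4
        have := he.2 rfl
        have := hf.2 rfl
        rw [show m = m' by omega])
  rwa [cI] at this

end Pool.Agent.MP_3fce03_co
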