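import Pool.Agent.MP_3fce03_co.Basic

namespace Pool.Agent.MP_3fce03_co

set_option linter.unusedVariables false
set_option linter.unusedSimpArgs false
set_option linter.unusedTactic false
set_option linter.style.longLine false

lemma patQ_raw (x1 y1 x2 y2 x3 y3 p0 q0 p2 q2 : ℝ)
    (F0 : 0 < x1 * y2 - y1 * x2)
    (F1 : 0 < x1 * y3 - y1 * x3)
    (F2 : 0 < x2 * y3 - y2 * x3)
    (F4 : 0 < x3 * q0 - y3 * p0)
    (F6 : 0 < (x1 - x2) * q0 - (y1 - y2) * p0)
    (F7 : 0 < (x1 - x3) * q0 - (y1 - y3) * p0)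
    (F13 : 0 < (x2 - x1) * q2 - (y2 - y1) * p2)
    (F14 : 0 < (-x3) * q2 - (-y3) * p2)
    (F15 : 0 < x2 * q2 - y2 * p2) : False := by
  have F20 : 0 < (x2 - x1) * (-y1) - (y2 - y1) * (-x1) := by linarith only [F0]
  have F21 : 0 < (x2 - x1) * (-y2) - (y2 - y1) * (-x2) := by linarith only [F0]
  have F29 : 0 < (-x1) * (-q0) - (-y1) * (-p0) := by linarith only [F4, F7]
  have F35 : 0 < (-x3) * (y1 - y2) - (-y3) * (x1 - x2) :=
    plk11 (-x1) (-y1) (-p0) (-q0) (-x3) (-y3) (x1 - x2) (y1 - y2) (by linarith only [F29]) (by linarith only [F1]) (by linarith only [F6]) (by linarith only [F20]) (by linarith only [F4])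
  have F36 : 0 < (-x3) * (y2 - y1) - (-y3) * (x2 - x1) :=
    plk01 (-x2) (-y2) (-p2) (-q2) (-x3) (-y3) (x2 - x1) (y2 - y1) (by linarith only [F15]) (by linarith only [F2]) (by linarith only [F13]) (by linarith only [F21]) (by linarith only [F14])
  linarith only [F36, F35]

lemma patQ (S : Sys 4) (e0 : (1, 3) ∈ S.E) (e1 : S.adj 1 0) (e2 : (2, 0) ∈ S.E) (e3 : S.adj 2 3) : False := by
  refine patQ_raw ((S.a 1).1 - (S.a 0).1) ((S.a 1).2 - (S.a 0).2) ((S.a 2).1 - (S.a 0).1) ((S.a 2).2 - (S.a 0).2) ((S.a 3).1 - (S.a 0).1) ((S.a 3).2 - (S.a 0).2) (S.τ (1, 3)).1 (S.τ (1, 3)).2 (S.τ (2, 0)).1 (S.τ (2, 0)).2 ?_ ?_ ?_ ?_ ?_ ?_ ?_ ?_ ?_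
  · have h := S.ccw 0 1 2 (by decide) (by decide) (by decide)
    simp only [dt, Prod.fst_sub, Prod.snd_sub, Prod.fst_add, Prod.snd_add] at h
    linarith only [h]
  · have h := S.ccw 0 1 3 (by decide) (by decide) (by decide)
    simp only [dt, Prod.fst_sub, Prod.snd_sub, Prod.fst_add, Prod.snd_add] at h
    linarith only [h]
  · have h := S.ccw 0 2 3 (by decide) (by decide) (by decide)
    simp only [dt, Prod.fst_sub, Prod.snd_sub, Prod.fst_add, Prod.snd_add] at h
    linarith only [h]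
  · have h := S.sepA e0 e1 (by decide) (by decide)
    simp only [dt, Prod.fst_sub, Prod.snd_sub, Prod.fst_add, Prod.snd_add] at h
    linarith only [h]
  · have h := S.sepA e0 e3 (by decide) (by decide)
    simp only [dt, Prod.fst_sub, Prod.snd_sub, Prod.fst_add, Prod.snd_add] at h
    linarith only [h]
  · have h := S.hdA e0 (by decide)
    simp only [dt, Prod.fst_sub, Prod.snd_sub, Prod.fst_add, Prod.snd_add] at h
    linarith only [h]
  · have h := S.sepA e2 e1 (by decide) (by decide)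
    simp only [dt, Prod.fst_sub, Prod.snd_sub, Prod.fst_add, Prod.snd_add] at h
    linarith only [h]
  · have h := S.sepA e2 e3 (by decide) (by decide)
    simp only [dt, Prod.fst_sub, Prod.snd_sub, Prod.fst_add, Prod.snd_add] at h
    linarith only [h]
  · have h := S.hdA e2 (by decide)
    simp only [dt, Prod.fst_sub, Prod.snd_sub, Prod.fst_add, Prod.snd_add] at h
    linarith only [h]

lemma patB3_raw (x1 y1 x2 y2 x3 y3 p0 q0 : ℝ)
    (F0 : 0 < x1 * y2 - y1 * x2)
    (F2 : 0 < x2 * y3 - y2 * x3)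
    (F3 : 0 < (x2 - x1) * (y3 - y1) - (y2 - y1) * (x3 - x1))
    (F4 : 0 < (x2 - x1) * q0 - (y2 - y1) * p0)
    (F5 : 0 < (x2 - x3) * q0 - (y2 - y3) * p0)
    (F6 : 0 < (-x2) * q0 - (-y2) * p0) : False := by
  have F13 : 0 < (x2 - x1) * (-y1) - (y2 - y1) * (-x1) := by linarith only [F0]
  have F20 : 0 < (x3 - x2) * (-y2) - (y3 - y2) * (-x2) := by linarith only [F2]
  have F22 : 0 < (-x1) * q0 - (-y1) * p0 := by linarith only [F6, F4]
  have F26 : 0 < (x3 - x2) * (y1 - y2) - (y3 - y2) * (x1 - x2) := by linarith only [F3]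
  have F28 : 0 < (-x1) * (y2 - y3) - (-y1) * (x2 - x3) :=
    plk01 x2 y2 (-p0) (-q0) (-x1) (-y1) (x2 - x3) (y2 - y3) (by linarith only [F6]) (by linarith only [F0]) (by linarith only [F5]) (by linarith only [F20]) (by linarith only [F22])
  have F29 : 0 < (-x1) * (y3 - y2) - (-y1) * (x3 - x2) :=
    plk11 (x2 - x1) (y2 - y1) p0 q0 (-x1) (-y1) (x3 - x2) (y3 - y2) (by linarith only [F4]) (by linarith only [F13]) (by linarith only [F5]) (by linarith only [F26]) (by linarith only [F22])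
  linarith only [F29, F28]

lemma patB3 (S : Sys 4) (e0 : (0, 2) ∈ S.E) (e1 : S.adj 0 1) (e2 : S.adj 0 3) : False := by
  refine patB3_raw ((S.a 1).1 - (S.a 0).1) ((S.a 1).2 - (S.a 0).2) ((S.a 2).1 - (S.a 0).1) ((S.a 2).2 - (S.a 0).2) ((S.a 3).1 - (S.a 0).1) ((S.a 3).2 - (S.a 0).2) (S.τ (0, 2)).1 (S.τ (0, 2)).2 ?_ ?_ ?_ ?_ ?_ ?_
  · have h := S.ccw 0 1 2 (by decide) (by decide) (by decide)
    simp only [dt, Prod.fst_sub, Prod.snd_sub, Prod.fst_add, Prod.snd_add] at h
    linarith only [h]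
  · have h := S.ccw 0 2 3 (by decide) (by decide) (by decide)
    simp only [dt, Prod.fst_sub, Prod.snd_sub, Prod.fst_add, Prod.snd_add] at h
    linarith only [h]
  · have h := S.ccw 1 2 3 (by decide) (by decide) (by decide)
    simp only [dt, Prod.fst_sub, Prod.snd_sub, Prod.fst_add, Prod.snd_add] at h
    linarith only [h]
  · have h := S.sepA e0 e1 (by decide) (by decide)
    simp only [dt, Prod.fst_sub, Prod.snd_sub, Prod.fst_add, Prod.snd_add] at h
    linarith only [h]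
  · have h := S.sepA e0 e2 (by decide) (by decide)
    simp only [dt, Prod.fst_sub, Prod.snd_sub, Prod.fst_add, Prod.snd_add] at h
    linarith only [h]
  · have h := S.hdA e0 (by decide)
    simp only [dt, Prod.fst_sub, Prod.snd_sub, Prod.fst_add, Prod.snd_add] at h
    linarith only [h]

lemma patN7_raw (x1 y1 x2 y2 x3 y3 x4 y4 x5 y5 x6 y6 p1 q1 p3 q3 : ℝ)
    (F0 : 0 < x1 * y2 - y1 * x2)
    (F4 : 0 < x1 * y6 - y1 * x6)
    (F8 : 0 < x2 * y6 - y2 * x6)
    (F15 : 0 < (x2 - x1) * (y3 - y1) - (y2 - y1) * (x3 - x1))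
    (F18 : 0 < (x2 - x1) * (y6 - y1) - (y2 - y1) * (x6 - x1))
    (F22 : 0 < (x4 - x1) * (y5 - y1) - (y4 - y1) * (x5 - x1))
    (F24 : 0 < (x5 - x1) * (y6 - y1) - (y5 - y1) * (x6 - x1))
    (F27 : 0 < (x3 - x2) * (y6 - y2) - (y3 - y2) * (x6 - x2))
    (F34 : 0 < (x5 - x4) * (y6 - y4) - (y5 - y4) * (x6 - x4))
    (F39 : 0 < (x2 + x6) * q1 - (y2 + y6) * p1)
    (F40 : 0 < (x2 - x3) * q1 - (y2 - y3) * p1)
    (F43 : 0 < (x6 - x2) * q1 - (y6 - y2) * p1)
    (F49 : 0 < (x1 + x5) * q3 - (y1 + y5) * p3)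
    (F50 : 0 < (x1 + x5 - x2 - x6) * q3 - (y1 + y5 - y2 - y6) * p3)
    (F52 : 0 < (x5 - x4) * q3 - (y5 - y4) * p3)
    (F53 : 0 < (x1 - x5) * q3 - (y1 - y5) * p3) : False := by
  have F59 : 0 < (x2 - x1) * (-y1) - (y2 - y1) * (-x1) := by linarith only [F0]
  have F80 : 0 < (-x1 - x6) * y1 - (-y1 - y6) * x1 := by linarith only [F4]
  have F81 : 0 < (-x1 - x6) * (-y6) - (-y1 - y6) * (-x6) := by linarith only [F4]
  have F82 : 0 < (x6 - x1) * (-y1) - (y6 - y1) * (-x1) := by linarith only [F4]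
  have F87 : 0 < (x6 - x1) * (-y6) - (y6 - y1) * (-x6) := by linarith only [F4]
  have F104 : 0 < (x6 - x2) * (-y6) - (y6 - y2) * (-x6) := by linarith only [F8]
  have F125 : 0 < (x3 - x2) * (y1 - y2) - (y3 - y2) * (x1 - x2) := by linarith only [F15]
  have F134 : 0 < (x6 - x2) * (y1 - y2) - (y6 - y2) * (x1 - x2) := by linarith only [F18]
  have F138 : 0 < (x6 - x2) * (y1 - y6) - (y6 - y2) * (x1 - x6) := by linarith only [F18]
  have F149 : 0 < (x5 - x4) * (y1 - y5) - (y5 - y4) * (x1 - x5) := by linarith only [F22]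
  have F155 : 0 < (x6 - x5) * (y1 - y5) - (y6 - y5) * (x1 - x5) := by linarith only [F24]
  have F158 : 0 < x1 * q3 - y1 * p3 := by linarith only [F53, F49]
  have F177 : 0 < (-x6) * (-q1) - (-y6) * (-p1) := by linarith only [F43, F39]
  have F186 : 0 < (x6 - x5) * (y4 - y5) - (y6 - y5) * (x4 - x5) := by linarith only [F34]
  have F194 : 0 < (x1 - x2) * q1 - (y1 - y2) * p1 :=
    plk01 (x3 - x2) (y3 - y2) (x6 - x2) (y6 - y2) (x1 - x2) (y1 - y2) p1 q1 (by linarith only [F27]) (by linarith only [F125]) (by linarith only [F43]) (by linarith only [F40]) (by linarith only [F134])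
  have F204 : 0 < (x1 - x6) * (y1 + y6) - (y1 - y6) * (x1 + x6) :=
    plk01 (-x1) (-y1) (-x6) (-y6) (x1 - x6) (y1 - y6) (x1 + x6) (y1 + y6) (by linarith only [F4]) (by linarith only [F82]) (by linarith only [F81]) (by linarith only [F80]) (by linarith only [F87])
  have F205 : 0 < (x1 - x6) * (-q1) - (y1 - y6) * (-p1) :=
    plk11 (-x6) (-y6) (x2 - x6) (y2 - y6) (x1 - x6) (y1 - y6) (-p1) (-q1) (by linarith only [F104]) (by linarith only [F87]) (by linarith only [F43]) (by linarith only [F177]) (by linarith only [F138])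
  have F222 : 0 < (x5 - x6) * (-q3) - (y5 - y6) * (-p3) :=
    plk01 (x1 - x5) (y1 - y5) (x4 - x5) (y4 - y5) (x5 - x6) (y5 - y6) (-p3) (-q3) (by linarith only [F149]) (by linarith only [F155]) (by linarith only [F52]) (by linarith only [F53]) (by linarith only [F186])
  have F225 : 0 < (x1 + x6) * q1 - (y1 + y6) * p1 := by linarith only [F194, F39]
  have F228 : 0 < (-x1 - x6) * (-q3) - (-y1 - y6) * (-p3) := by linarith only [F222, F49]
  have F229 : 0 < (x2 - x1) * (-q3) - (y2 - y1) * (-p3) := by linarith only [F222, F50]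
  have F247 : 0 < (x1 - x2) * (-y1 - y6) - (y1 - y2) * (-x1 - x6) :=
    plk11 (x6 - x1) (y6 - y1) p1 q1 (x1 - x2) (y1 - y2) (-x1 - x6) (-y1 - y6) (by linarith only [F205]) (by linarith only [F18]) (by linarith only [F225]) (by linarith only [F204]) (by linarith only [F194])
  have F248 : 0 < (x1 - x2) * (y1 + y6) - (y1 - y2) * (x1 + x6) :=
    plk01 (-x1) (-y1) (-p3) (-q3) (x1 - x2) (y1 - y2) (x1 + x6) (y1 + y6) (by linarith only [F158]) (by linarith only [F59]) (by linarith only [F228]) (by linarith only [F80]) (by linarith only [F229])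
  linarith only [F248, F247]

lemma patN7 (S : Sys 7) (e0 : S.adj 0 0) (e1 : (6, 2) ∈ S.E) (e2 : S.adj 6 3) (e3 : (1, 5) ∈ S.E) (e4 : S.adj 1 4) : False := by
  refine patN7_raw ((S.a 1).1 - (S.a 0).1) ((S.a 1).2 - (S.a 0).2) ((S.a 2).1 - (S.a 0).1) ((S.a 2).2 - (S.a 0).2) ((S.a 3).1 - (S.a 0).1) ((S.a 3).2 - (S.a 0).2) ((S.a 4).1 - (S.a 0).1) ((S.a 4).2 - (S.a 0).2) ((S.a 5).1 - (S.a 0).1) ((S.a 5).2 - (S.a 0).2) ((S.a 6).1 - (S.a 0).1) ((S.a 6).2 - (S.a 0).2) (S.τ (6, 2)).1 (S.τ (6, 2)).2 (S.τ (1, 5)).1 (S.τ (1, 5)).2 ?_ ?_ ?_ ?_ ?_ ?_ ?_ ?_ ?_ ?_ ?_ ?_ ?_ ?_ ?_ ?_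
  · have h := S.ccw 0 1 2 (by decide) (by decide) (by decide)
    simp only [dt, Prod.fst_sub, Prod.snd_sub, Prod.fst_add, Prod.snd_add] at h
    linarith only [h]
  · have h := S.ccw 0 1 6 (by decide) (by decide) (by decide)
    simp only [dt, Prod.fst_sub, Prod.snd_sub, Prod.fst_add, Prod.snd_add] at h
    linarith only [h]
  · have h := S.ccw 0 2 6 (by decide) (by decide) (by decide)
    simp only [dt, Prod.fst_sub, Prod.snd_sub, Prod.fst_add, Prod.snd_add] at h
    linarith only [h]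
  · have h := S.ccw 1 2 3 (by decide) (by decide) (by decide)
    simp only [dt, Prod.fst_sub, Prod.snd_sub, Prod.fst_add, Prod.snd_add] at h
    linarith only [h]
  · have h := S.ccw 1 2 6 (by decide) (by decide) (by decide)
    simp only [dt, Prod.fst_sub, Prod.snd_sub, Prod.fst_add, Prod.snd_add] at h
    linarith only [h]
  · have h := S.ccw 1 4 5 (by decide) (by decide) (by decide)
    simp only [dt, Prod.fst_sub, Prod.snd_sub, Prod.fst_add, Prod.snd_add] at h
    linarith only [h]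
  · have h := S.ccw 1 5 6 (by decide) (by decide) (by decide)
    simp only [dt, Prod.fst_sub, Prod.snd_sub, Prod.fst_add, Prod.snd_add] at h
    linarith only [h]
  · have h := S.ccw 2 3 6 (by decide) (by decide) (by decide)
    simp only [dt, Prod.fst_sub, Prod.snd_sub, Prod.fst_add, Prod.snd_add] at h
    linarith only [h]
  · have h := S.ccw 4 5 6 (by decide) (by decide) (by decide)
    simp only [dt, Prod.fst_sub, Prod.snd_sub, Prod.fst_add, Prod.snd_add] at h
    linarith only [h]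
  · have h := S.sepA e1 e0 (by decide) (by decide)
    simp only [dt, Prod.fst_sub, Prod.snd_sub, Prod.fst_add, Prod.snd_add] at h
    linarith only [h]
  · have h := S.sepA e1 e2 (by decide) (by decide)
    simp only [dt, Prod.fst_sub, Prod.snd_sub, Prod.fst_add, Prod.snd_add] at h
    linarith only [h]
  · have h := S.hdA e1 (by decide)
    simp only [dt, Prod.fst_sub, Prod.snd_sub, Prod.fst_add, Prod.snd_add] at h
    linarith only [h]
  · have h := S.sepA e3 e0 (by decide) (by decide)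
    simp only [dt, Prod.fst_sub, Prod.snd_sub, Prod.fst_add, Prod.snd_add] at h
    linarith only [h]
  · have h := S.sepA e3 (Or.inl e1) (by decide) (by decide)
    simp only [dt, Prod.fst_sub, Prod.snd_sub, Prod.fst_add, Prod.snd_add] at h
    linarith only [h]
  · have h := S.sepA e3 e4 (by decide) (by decide)
    simp only [dt, Prod.fst_sub, Prod.snd_sub, Prod.fst_add, Prod.snd_add] at h
    linarith only [h]
  · have h := S.hdA e3 (by decide)
    simp only [dt, Prod.fst_sub, Prod.snd_sub, Prod.fst_add, Prod.snd_add] at h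
    linarith only [h]

lemma patN6_raw (x1 y1 x2 y2 x3 y3 x4 y4 x5 y5 p1 q1 p3 q3 : ℝ)
    (F1 : 0 < x1 * y3 - y1 * x3)
    (F3 : 0 < x1 * y5 - y1 * x5)
    (F4 : 0 < x2 * y3 - y2 * x3)
    (F7 : 0 < x3 * y4 - y3 * x4)
    (F8 : 0 < x3 * y5 - y3 * x5)
    (F10 : 0 < (x2 - x1) * (y3 - y1) - (y2 - y1) * (x3 - x1))
    (F12 : 0 < (x2 - x1) * (y5 - y1) - (y2 - y1) * (x5 - x1))
    (F13 : 0 < (x3 - x1) * (y4 - y1) - (y3 - y1) * (x4 - x1))
    (F15 : 0 < (x4 - x1) * (y5 - y1) - (y4 - y1) * (x5 - x1))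
    (F17 : 0 < (x3 - x2) * (y5 - y2) - (y3 - y2) * (x5 - x2))
    (F19 : 0 < (x4 - x3) * (y5 - y3) - (y4 - y3) * (x5 - x3))
    (F24 : 0 < (x2 + x5) * q1 - (y2 + y5) * p1)
    (F25 : 0 < (x2 - x3) * q1 - (y2 - y3) * p1)
    (F28 : 0 < (x5 - x2) * q1 - (y5 - y2) * p1)
    (F34 : 0 < (x1 + x4) * q3 - (y1 + y4) * p3)
    (F37 : 0 < (x4 - x3) * q3 - (y4 - y3) * p3)
    (F38 : 0 < (x1 - x4) * q3 - (y1 - y4) * p3) : False := by
  have F52 : 0 < (x3 - x1) * (-y3) - (y3 - y1) * (-x3) := by linarith only [F1]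
  have F60 : 0 < (-x1 - x5) * y1 - (-y1 - y5) * x1 := by linarith only [F3]
  have F61 : 0 < (-x1 - x5) * (-y5) - (-y1 - y5) * (-x5) := by linarith only [F3]
  have F68 : 0 < (x3 - x2) * (-y3) - (y3 - y2) * (-x3) := by linarith only [F4]
  have F76 : 0 < (x5 - x2) * (-y3) - (y5 - y2) * (-x3) := by linarith only [F4, F8]
  have F79 : 0 < (x4 - x3) * (-y3) - (y4 - y3) * (-x3) := by linarith only [F7]
  have F90 : 0 < (x3 - x2) * (y1 - y2) - (y3 - y2) * (x1 - x2) := by linarith only [F10]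
  have F95 : 0 < (x5 - x2) * (y1 - y2) - (y5 - y2) * (x1 - x2) := by linarith only [F12]
  have F99 : 0 < (x4 - x3) * (y1 - y3) - (y4 - y3) * (x1 - x3) := by linarith only [F13]
  have F100 : 0 < (x4 - x3) * (y1 - y4) - (y4 - y3) * (x1 - x4) := by linarith only [F13]
  have F106 : 0 < (x5 - x4) * (y1 - y4) - (y5 - y4) * (x1 - x4) := by linarith only [F15]
  have F108 : 0 < (x1 - x3) * q3 - (y1 - y3) * p3 := by linarith only [F38, F37]
  have F109 : 0 < x1 * q3 - y1 * p3 := by linarith only [F38, F34]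
  have F119 : 0 < (-x5) * (-q1) - (-y5) * (-p1) := by linarith only [F28, F24]
  have F120 : 0 < (x5 - x4) * (y3 - y4) - (y5 - y4) * (x3 - x4) := by linarith only [F19]
  have F125 : 0 < (-x3) * q1 - (-y3) * p1 :=
    plk01 (x3 - x2) (y3 - y2) (x5 - x2) (y5 - y2) (-x3) (-y3) p1 q1 (by linarith only [F17]) (by linarith only [F68]) (by linarith only [F28]) (by linarith only [F25]) (by linarith only [F76])
  have F126 : 0 < (-x3) * q3 - (-y3) * p3 :=
    plk01 (x3 - x1) (y3 - y1) (x4 - x3) (y4 - y3) (-x3) (-y3) p3 q3 (by linarith only [F99]) (by linarith only [F52]) (by linarith only [F37]) (by linarith only [F108]) (by linarith only [F79])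
  have F129 : 0 < (x1 - x2) * q1 - (y1 - y2) * p1 :=
    plk01 (x3 - x2) (y3 - y2) (x5 - x2) (y5 - y2) (x1 - x2) (y1 - y2) p1 q1 (by linarith only [F17]) (by linarith only [F90]) (by linarith only [F28]) (by linarith only [F25]) (by linarith only [F95])
  have F151 : 0 < (x4 - x5) * (-q3) - (y4 - y5) * (-p3) :=
    plk01 (x1 - x4) (y1 - y4) (x3 - x4) (y3 - y4) (x4 - x5) (y4 - y5) (-p3) (-q3) (by linarith only [F100]) (by linarith only [F106]) (by linarith only [F37]) (by linarith only [F38]) (by linarith only [F120])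
  have F155 : 0 < (x1 + x5) * q1 - (y1 + y5) * p1 := by linarith only [F129, F24]
  have F159 : 0 < (-x1 - x5) * (-q3) - (-y1 - y5) * (-p3) := by linarith only [F151, F34]
  have F168 : 0 < (-x3) * (-y1 - y5) - (-y3) * (-x1 - x5) :=
    plk11 x5 y5 p1 q1 (-x3) (-y3) (-x1 - x5) (-y1 - y5) (by linarith only [F119]) (by linarith only [F8]) (by linarith only [F155]) (by linarith only [F61]) (by linarith only [F125])
  have F169 : 0 < (-x3) * (y1 + y5) - (-y3) * (x1 + x5) :=
    plk01 (-x1) (-y1) (-p3) (-q3) (-x3) (-y3) (x1 + x5) (y1 + y5) (by linarith only [F109]) (by linarith only [F1]) (by linarith only [F159]) (by linarith only [F60]) (by linarith only [F126])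
  linarith only [F169, F168]

lemma patN6 (S : Sys 6) (e0 : S.adj 0 0) (e1 : (5, 2) ∈ S.E) (e2 : S.adj 5 3) (e3 : (1, 4) ∈ S.E) (e4 : S.adj 1 3) : False := by
  refine patN6_raw ((S.a 1).1 - (S.a 0).1) ((S.a 1).2 - (S.a 0).2) ((S.a 2).1 - (S.a 0).1) ((S.a 2).2 - (S.a 0).2) ((S.a 3).1 - (S.a 0).1) ((S.a 3).2 - (S.a 0).2) ((S.a 4).1 - (S.a 0).1) ((S.a 4).2 - (S.a 0).2) ((S.a 5).1 - (S.a 0).1) ((S.a 5).2 - (S.a 0).2) (S.τ (5, 2)).1 (S.τ (5, 2)).2 (S.τ (1, 4)).1 (S.τ (1, 4)).2 ?_ ?_ ?_ ?_ ?_ ?_ ?_ ?_ ?_ ?_ ?_ ?_ ?_ ?_ ?_ ?_ ?_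
  · have h := S.ccw 0 1 3 (by decide) (by decide) (by decide)
    simp only [dt, Prod.fst_sub, Prod.snd_sub, Prod.fst_add, Prod.snd_add] at h
    linarith only [h]
  · have h := S.ccw 0 1 5 (by decide) (by decide) (by decide)
    simp only [dt, Prod.fst_sub, Prod.snd_sub, Prod.fst_add, Prod.snd_add] at h
    linarith only [h]
  · have h := S.ccw 0 2 3 (by decide) (by decide) (by decide)
    simp only [dt, Prod.fst_sub, Prod.snd_sub, Prod.fst_add, Prod.snd_add] at h
    linarith only [h]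
  · have h := S.ccw 0 3 4 (by decide) (by decide) (by decide)
    simp only [dt, Prod.fst_sub, Prod.snd_sub, Prod.fst_add, Prod.snd_add] at h
    linarith only [h]
  · have h := S.ccw 0 3 5 (by decide) (by decide) (by decide)
    simp only [dt, Prod.fst_sub, Prod.snd_sub, Prod.fst_add, Prod.snd_add] at h
    linarith only [h]
  · have h := S.ccw 1 2 3 (by decide) (by decide) (by decide)
    simp only [dt, Prod.fst_sub, Prod.snd_sub, Prod.fst_add, Prod.snd_add] at h
    linarith only [h]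
  · have h := S.ccw 1 2 5 (by decide) (by decide) (by decide)
    simp only [dt, Prod.fst_sub, Prod.snd_sub, Prod.fst_add, Prod.snd_add] at h
    linarith only [h]
  · have h := S.ccw 1 3 4 (by decide) (by decide) (by decide)
    simp only [dt, Prod.fst_sub, Prod.snd_sub, Prod.fst_add, Prod.snd_add] at h
    linarith only [h]
  · have h := S.ccw 1 4 5 (by decide) (by decide) (by decide)
    simp only [dt, Prod.fst_sub, Prod.snd_sub, Prod.fst_add, Prod.snd_add] at h
    linarith only [h]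
  · have h := S.ccw 2 3 5 (by decide) (by decide) (by decide)
    simp only [dt, Prod.fst_sub, Prod.snd_sub, Prod.fst_add, Prod.snd_add] at h
    linarith only [h]
  · have h := S.ccw 3 4 5 (by decide) (by decide) (by decide)
    simp only [dt, Prod.fst_sub, Prod.snd_sub, Prod.fst_add, Prod.snd_add] at h
    linarith only [h]
  · have h := S.sepA e1 e0 (by decide) (by decide)
    simp only [dt, Prod.fst_sub, Prod.snd_sub, Prod.fst_add, Prod.snd_add] at h
    linarith only [h]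
  · have h := S.sepA e1 e2 (by decide) (by decide)
    simp only [dt, Prod.fst_sub, Prod.snd_sub, Prod.fst_add, Prod.snd_add] at h
    linarith only [h]
  · have h := S.hdA e1 (by decide)
    simp only [dt, Prod.fst_sub, Prod.snd_sub, Prod.fst_add, Prod.snd_add] at h
    linarith only [h]
  · have h := S.sepA e3 e0 (by decide) (by decide)
    simp only [dt, Prod.fst_sub, Prod.snd_sub, Prod.fst_add, Prod.snd_add] at h
    linarith only [h]
  · have h := S.sepA e3 e4 (by decide) (by decide)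
    simp only [dt, Prod.fst_sub, Prod.snd_sub, Prod.fst_add, Prod.snd_add] at h
    linarith only [h]
  · have h := S.hdA e3 (by decide)
    simp only [dt, Prod.fst_sub, Prod.snd_sub, Prod.fst_add, Prod.snd_add] at h
    linarith only [h]

lemma patP1_raw (x1 y1 x2 y2 x3 y3 x4 y4 p2 q2 p4 q4 p5 q5 p6 q6 : ℝ)
    (F0 : 0 < x1 * y2 - y1 * x2)
    (F1 : 0 < x1 * y3 - y1 * x3)
    (F2 : 0 < x1 * y4 - y1 * x4)
    (F4 : 0 < x2 * y4 - y2 * x4)
    (F5 : 0 < x3 * y4 - y3 * x4)
    (F6 : 0 < (x2 - x1) * (y3 - y1) - (y2 - y1) * (x3 - x1))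
    (F7 : 0 < (x2 - x1) * (y4 - y1) - (y2 - y1) * (x4 - x1))
    (F8 : 0 < (x3 - x1) * (y4 - y1) - (y3 - y1) * (x4 - x1))
    (F24 : 0 < (x1 + x4) * q2 - (y1 + y4) * p2)
    (F26 : 0 < (x4 - x2) * q2 - (y4 - y2) * p2)
    (F27 : 0 < (x4 - x3) * q2 - (y4 - y3) * p2)
    (F29 : 0 < (x1 - x2) * q2 - (y1 - y2) * p2)
    (F30 : 0 < x1 * q2 - y1 * p2)
    (F40 : 0 < (x1 + x3 - 2*x2) * q4 - (y1 + y3 - 2*y2) * p4)
    (F41 : 0 < (x3 - x4) * q4 - (y3 - y4) * p4)
    (F43 : 0 < x1 * q4 - y1 * p4)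
    (F46 : 0 < (x3 - x1) * q4 - (y3 - y1) * p4)
    (F47 : 0 < x3 * q5 - y3 * p5)
    (F51 : 0 < (-x1) * q5 - (-y1) * p5)
    (F53 : 0 < (x3 - x4) * q5 - (y3 - y4) * p5)
    (F55 : 0 < (x4 - x2) * q6 - (y4 - y2) * p6)
    (F59 : 0 < (x2 + x4 - x3) * q6 - (y2 + y4 - y3) * p6)
    (F60 : 0 < x2 * q6 - y2 * p6) : False := by
  have F73 : 0 < (x2 - x1) * (-y1) - (y2 - y1) * (-x1) := by linarith only [F0]
  have F78 : 0 < (x3 - x1) * (-y1) - (y3 - y1) * (-x1) := by linarith only [F1]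
  have F82 : 0 < (-x1 - x4) * y1 - (-y1 - y4) * x1 := by linarith only [F2]
  have F97 : 0 < (x4 - x2) * (-y2) - (y4 - y2) * (-x2) := by linarith only [F4]
  have F105 : 0 < (x4 - x3) * (-y3) - (y4 - y3) * (-x3) := by linarith only [F5]
  have F111 : 0 < (x1 + x3 - 2*x2) * (y1 - y3) - (y1 + y3 - 2*y2) * (x1 - x3) := by linarith only [F6]
  have F112 : 0 < (x4 - x2) * (y1 - y2) - (y4 - y2) * (x1 - x2) := by linarith only [F7]
  have F120 : 0 < (x4 - x3) * (y1 - y3) - (y4 - y3) * (x1 - x3) := by linarith only [F8]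
  have F126 : 0 < (-x1) * (y4 - y2) - (-y1) * (x4 - x2) :=
    plk11 (x2 - x1) (y2 - y1) (-p2) (-q2) (-x1) (-y1) (x4 - x2) (y4 - y2) (by linarith only [F29]) (by linarith only [F73]) (by linarith only [F26]) (by linarith only [F112]) (by linarith only [F30])
  have F127 : 0 < (-x1) * (y4 - y3) - (-y1) * (x4 - x3) :=
    plk11 x3 y3 p5 q5 (-x1) (-y1) (x4 - x3) (y4 - y3) (by linarith only [F47]) (by linarith only [F1]) (by linarith only [F53]) (by linarith only [F105]) (by linarith only [F51])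
  have F129 : 0 < (-x1) * (2*y2 - y1 - y3) - (-y1) * (2*x2 - x1 - x3) :=
    plk01 (x3 - x1) (y3 - y1) p4 q4 (-x1) (-y1) (2*x2 - x1 - x3) (2*y2 - y1 - y3) (by linarith only [F46]) (by linarith only [F78]) (by linarith only [F40]) (by linarith only [F111]) (by linarith only [F43])
  have F154 : 0 < (x3 - x4) * (y1 + y3 - 2*y2) - (y3 - y4) * (x1 + x3 - 2*x2) :=
    plk01 (x1 - x3) (y1 - y3) (-p4) (-q4) (x3 - x4) (y3 - y4) (x1 + x3 - 2*x2) (y1 + y3 - 2*y2) (by linarith only [F46]) (by linarith only [F120]) (by linarith only [F40]) (by linarith only [F111]) (by linarith only [F41])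
  have F228 : 0 < (x1 + x3 - x2 - x4) * (-y1) - (y1 + y3 - y2 - y4) * (-x1) := by linarith only [F126, F129]
  have F230 : 0 < (2*x2 - x1 - x4) * (y3 - y4) - (2*y2 - y1 - y4) * (x3 - x4) := by linarith only [F154]
  have F235 : 0 < (-x1) * q6 - (-y1) * p6 :=
    plk11 x2 y2 (x4 - x2) (y4 - y2) (-x1) (-y1) p6 q6 (by linarith only [F97]) (by linarith only [F0]) (by linarith only [F55]) (by linarith only [F60]) (by linarith only [F126])
  have F246 : 0 < (x3 - x4) * (-y1 - y4) - (y3 - y4) * (-x1 - x4) :=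
    plk01 x1 y1 p2 q2 (x3 - x4) (y3 - y4) (-x1 - x4) (-y1 - y4) (by linarith only [F30]) (by linarith only [F127]) (by linarith only [F24]) (by linarith only [F82]) (by linarith only [F27])
  have F297 : 0 < (x3 - x2 - x4) * (-y1) - (y3 - y2 - y4) * (-x1) := by linarith only [F228]
  have F333 : 0 < (-x2) * (y4 - y3) - (-y2) * (x4 - x3) := by linarith only [F246, F230]
  have F339 : 0 < (-x2) * (y3 - y2 - y4) - (-y2) * (x3 - x2 - x4) :=
    plk01 (-x1) (-y1) p6 q6 (-x2) (-y2) (x3 - x2 - x4) (y3 - y2 - y4) (by linarith only [F235]) (by linarith only [F0]) (by linarith only [F59]) (by linarith only [F297]) (by linarith only [F60])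
  have F381 : 0 < (x3 - x2 - x4) * (-y2) - (y3 - y2 - y4) * (-x2) := by linarith only [F333]
  linarith only [F381, F339]

lemma patP1 (S : Sys 5) (e0 : S.adj 0 0) (e1 : S.adj 2 2) (e2 : (1, 4) ∈ S.E) (e3 : S.adj 1 2) (e4 : (3, 1) ∈ S.E) (e5 : (3, 0) ∈ S.E) (e6 : (4, 2) ∈ S.E) (e7 : S.adj 4 0) : False := by
  refine patP1_raw ((S.a 1).1 - (S.a 0).1) ((S.a 1).2 - (S.a 0).2) ((S.a 2).1 - (S.a 0).1) ((S.a 2).2 - (S.a 0).2) ((S.a 3).1 - (S.a 0).1) ((S.a 3).2 - (S.a 0).2) ((S.a 4).1 - (S.a 0).1) ((S.a 4).2 - (S.a 0).2) (S.τ (1, 4)).1 (S.τ (1, 4)).2 (S.τ (3, 1)).1 (S.τ (3, 1)).2 (S.τ (3, 0)).1 (S.τ (3, 0)).2 (S.τ (4, 2)).1 (S.τ (4, 2)).2 ?_ ?_ ?_ ?_ ?_ ?_ ?_ ?_ ?_ ?_ ?_ ?_ ?_ ?_ ?_ ?_ ?_ ?_ ?_ ?_ ?_ ?_ ?_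
  · have h := S.ccw 0 1 2 (by decide) (by decide) (by decide)
    simp only [dt, Prod.fst_sub, Prod.snd_sub, Prod.fst_add, Prod.snd_add] at h
    linarith only [h]
  · have h := S.ccw 0 1 3 (by decide) (by decide) (by decide)
    simp only [dt, Prod.fst_sub, Prod.snd_sub, Prod.fst_add, Prod.snd_add] at h
    linarith only [h]
  · have h := S.ccw 0 1 4 (by decide) (by decide) (by decide)
    simp only [dt, Prod.fst_sub, Prod.snd_sub, Prod.fst_add, Prod.snd_add] at h
    linarith only [h]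
  · have h := S.ccw 0 2 4 (by decide) (by decide) (by decide)
    simp only [dt, Prod.fst_sub, Prod.snd_sub, Prod.fst_add, Prod.snd_add] at h
    linarith only [h]
  · have h := S.ccw 0 3 4 (by decide) (by decide) (by decide)
    simp only [dt, Prod.fst_sub, Prod.snd_sub, Prod.fst_add, Prod.snd_add] at h
    linarith only [h]
  · have h := S.ccw 1 2 3 (by decide) (by decide) (by decide)
    simp only [dt, Prod.fst_sub, Prod.snd_sub, Prod.fst_add, Prod.snd_add] at h
    linarith only [h]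
  · have h := S.ccw 1 2 4 (by decide) (by decide) (by decide)
    simp only [dt, Prod.fst_sub, Prod.snd_sub, Prod.fst_add, Prod.snd_add] at h
    linarith only [h]
  · have h := S.ccw 1 3 4 (by decide) (by decide) (by decide)
    simp only [dt, Prod.fst_sub, Prod.snd_sub, Prod.fst_add, Prod.snd_add] at h
    linarith only [h]
  · have h := S.sepA e2 e0 (by decide) (by decide)
    simp only [dt, Prod.fst_sub, Prod.snd_sub, Prod.fst_add, Prod.snd_add] at h
    linarith only [h]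
  · have h := S.sepA e2 e3 (by decide) (by decide)
    simp only [dt, Prod.fst_sub, Prod.snd_sub, Prod.fst_add, Prod.snd_add] at h
    linarith only [h]
  · have h := S.sepA e2 (Or.inl e4) (by decide) (by decide)
    simp only [dt, Prod.fst_sub, Prod.snd_sub, Prod.fst_add, Prod.snd_add] at h
    linarith only [h]
  · have h := S.sepA e2 (Or.inl e6) (by decide) (by decide)
    simp only [dt, Prod.fst_sub, Prod.snd_sub, Prod.fst_add, Prod.snd_add] at h
    linarith only [h]
  · have h := S.sepA e2 e7 (by decide) (by decide)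
    simp only [dt, Prod.fst_sub, Prod.snd_sub, Prod.fst_add, Prod.snd_add] at h
    linarith only [h]
  · have h := S.sepA e4 e1 (by decide) (by decide)
    simp only [dt, Prod.fst_sub, Prod.snd_sub, Prod.fst_add, Prod.snd_add] at h
    linarith only [h]
  · have h := S.sepA e4 (Or.inl e2) (by decide) (by decide)
    simp only [dt, Prod.fst_sub, Prod.snd_sub, Prod.fst_add, Prod.snd_add] at h
    linarith only [h]
  · have h := S.sepA e4 (Or.inl e5) (by decide) (by decide)
    simp only [dt, Prod.fst_sub, Prod.snd_sub, Prod.fst_add, Prod.snd_add] at h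
    linarith only [h]
  · have h := S.hdA e4 (by decide)
    simp only [dt, Prod.fst_sub, Prod.snd_sub, Prod.fst_add, Prod.snd_add] at h
    linarith only [h]
  · have h := S.sepA e5 e0 (by decide) (by decide)
    simp only [dt, Prod.fst_sub, Prod.snd_sub, Prod.fst_add, Prod.snd_add] at h
    linarith only [h]
  · have h := S.sepA e5 (Or.inl e4) (by decide) (by decide)
    simp only [dt, Prod.fst_sub, Prod.snd_sub, Prod.fst_add, Prod.snd_add] at h
    linarith only [h]
  · have h := S.sepA e5 e7 (by decide) (by decide)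
    simp only [dt, Prod.fst_sub, Prod.snd_sub, Prod.fst_add, Prod.snd_add] at h
    linarith only [h]
  · have h := S.sepA e6 e1 (by decide) (by decide)
    simp only [dt, Prod.fst_sub, Prod.snd_sub, Prod.fst_add, Prod.snd_add] at h
    linarith only [h]
  · have h := S.sepA e6 (Or.inl e5) (by decide) (by decide)
    simp only [dt, Prod.fst_sub, Prod.snd_sub, Prod.fst_add, Prod.snd_add] at h
    linarith only [h]
  · have h := S.sepA e6 e7 (by decide) (by decide)
    simp only [dt, Prod.fst_sub, Prod.snd_sub, Prod.fst_add, Prod.snd_add] at h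
    linarith only [h]

lemma patP1m_raw (x1 y1 x2 y2 x3 y3 x4 y4 p2 q2 p4 q4 p6 q6 : ℝ)
    (F0 : 0 < x1 * y2 - y1 * x2)
    (F1 : 0 < x1 * y3 - y1 * x3)
    (F2 : 0 < x1 * y4 - y1 * x4)
    (F4 : 0 < x2 * y4 - y2 * x4)
    (F5 : 0 < x3 * y4 - y3 * x4)
    (F6 : 0 < (x2 - x1) * (y3 - y1) - (y2 - y1) * (x3 - x1))
    (F7 : 0 < (x2 - x1) * (y4 - y1) - (y2 - y1) * (x4 - x1))
    (F8 : 0 < (x3 - x1) * (y4 - y1) - (y3 - y1) * (x4 - x1))
    (F9 : 0 < (x3 - x2) * (y4 - y2) - (y3 - y2) * (x4 - x2))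
    (F24 : 0 < (x1 + x4) * q2 - (y1 + y4) * p2)
    (F26 : 0 < (x1 - x3) * q2 - (y1 - y3) * p2)
    (F27 : 0 < (x1 - x2) * q2 - (y1 - y2) * p2)
    (F30 : 0 < x4 * q2 - y4 * p2)
    (F31 : 0 < (x4 - x1) * q2 - (y4 - y1) * p2)
    (F40 : 0 < (x2 + x4 - 2*x3) * q4 - (y2 + y4 - 2*y3) * p4)
    (F41 : 0 < (x2 - x1) * q4 - (y2 - y1) * p4)
    (F42 : 0 < (x2 - x3) * q4 - (y2 - y3) * p4)
    (F43 : 0 < x4 * q4 - y4 * p4)
    (F46 : 0 < (x2 - x4) * q4 - (y2 - y4) * p4)
    (F55 : 0 < (x1 - x3) * q6 - (y1 - y3) * p6)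
    (F59 : 0 < (x1 + x3 - x2) * q6 - (y1 + y3 - y2) * p6)
    (F60 : 0 < x3 * q6 - y3 * p6) : False := by
  have F68 : 0 < (x2 - x1) * (-y1) - (y2 - y1) * (-x1) := by linarith only [F0]
  have F73 : 0 < (x3 - x1) * (-y1) - (y3 - y1) * (-x1) := by linarith only [F1]
  have F80 : 0 < (-x1 - x4) * y1 - (-y1 - y4) * x1 := by linarith only [F2]
  have F82 : 0 < (x4 - x1) * (-y1) - (y4 - y1) * (-x1) := by linarith only [F2]
  have F85 : 0 < (x4 - x1) * (-y4) - (y4 - y1) * (-x4) := by linarith only [F2]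
  have F96 : 0 < (x4 - x2) * (-y4) - (y4 - y2) * (-x4) := by linarith only [F4]
  have F106 : 0 < (-x1) * (-q6) - (-y1) * (-p6) := by linarith only [F60, F55]
  have F108 : 0 < (x3 - x2) * (y1 - y2) - (y3 - y2) * (x1 - x2) := by linarith only [F6]
  have F120 : 0 < (x2 + x4 - 2*x3) * (y2 - y3) - (y2 + y4 - 2*y3) * (x2 - x3) := by linarith only [F9]
  have F121 : 0 < (x2 + x4 - 2*x3) * (y2 - y4) - (y2 + y4 - 2*y3) * (x2 - x4) := by linarith only [F9]
  have F124 : 0 < (-x1) * q2 - (-y1) * p2 :=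
    plk01 (x2 - x1) (y2 - y1) (x4 - x1) (y4 - y1) (-x1) (-y1) p2 q2 (by linarith only [F7]) (by linarith only [F68]) (by linarith only [F31]) (by linarith only [F27]) (by linarith only [F82])
  have F132 : 0 < (-x4) * (y3 - y1) - (-y4) * (x3 - x1) :=
    plk01 (x4 - x1) (y4 - y1) p2 q2 (-x4) (-y4) (x3 - x1) (y3 - y1) (by linarith only [F31]) (by linarith only [F85]) (by linarith only [F26]) (by linarith only [F8]) (by linarith only [F30])
  have F135 : 0 < (-x4) * (y2 + y4 - 2*y3) - (-y4) * (x2 + x4 - 2*x3) :=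
    plk11 (x4 - x2) (y4 - y2) (-p4) (-q4) (-x4) (-y4) (x2 + x4 - 2*x3) (y2 + y4 - 2*y3) (by linarith only [F46]) (by linarith only [F96]) (by linarith only [F40]) (by linarith only [F121]) (by linarith only [F43])
  have F136 : 0 < (x1 - x2) * (y2 + y4 - 2*y3) - (y1 - y2) * (x2 + x4 - 2*x3) :=
    plk11 (x3 - x2) (y3 - y2) (-p4) (-q4) (x1 - x2) (y1 - y2) (x2 + x4 - 2*x3) (y2 + y4 - 2*y3) (by linarith only [F42]) (by linarith only [F108]) (by linarith only [F40]) (by linarith only [F120]) (by linarith only [F41])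
  have F218 : 0 < (x1 + x4 - 2*x3) * (y2 - y1) - (y1 + y4 - 2*y3) * (x2 - x1) := by linarith only [F136]
  have F225 : 0 < (x1 + x3 - x2 - x4) * (-y4) - (y1 + y3 - y2 - y4) * (-x4) := by linarith only [F132, F135]
  have F238 : 0 < (-x4) * q6 - (-y4) * p6 :=
    plk01 (-x1) (-y1) (x1 - x3) (y1 - y3) (-x4) (-y4) p6 q6 (by linarith only [F73]) (by linarith only [F2]) (by linarith only [F55]) (by linarith only [F106]) (by linarith only [F132])
  have F239 : 0 < (x1 - x2) * (-y1 - y4) - (y1 - y2) * (-x1 - x4) :=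
    plk11 (-x1) (-y1) p2 q2 (x1 - x2) (y1 - y2) (-x1 - x4) (-y1 - y4) (by linarith only [F124]) (by linarith only [F68]) (by linarith only [F24]) (by linarith only [F80]) (by linarith only [F27])
  have F307 : 0 < (x2 - x1 - x3) * y4 - (y2 - y1 - y3) * x4 := by linarith only [F225]
  have F333 : 0 < (-x3) * (y2 - y1) - (-y3) * (x2 - x1) := by linarith only [F239, F218]
  have F343 : 0 < (-x3) * (y1 + y3 - y2) - (-y3) * (x1 + x3 - x2) :=
    plk11 x4 y4 (-p6) (-q6) (-x3) (-y3) (x1 + x3 - x2) (y1 + y3 - y2) (by linarith only [F238]) (by linarith only [F5]) (by linarith only [F59]) (by linarith only [F307]) (by linarith only [F60])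
  have F385 : 0 < (x2 - x1 - x3) * y3 - (y2 - y1 - y3) * x3 := by linarith only [F333]
  linarith only [F385, F343]

lemma patP1m (S : Sys 5) (e0 : S.adj 0 0) (e1 : S.adj 3 3) (e2 : (4, 1) ∈ S.E) (e3 : S.adj 4 3) (e4 : (2, 4) ∈ S.E) (e5 : S.adj 2 0) (e6 : (1, 3) ∈ S.E) (e7 : S.adj 1 0) : False := by
  refine patP1m_raw ((S.a 1).1 - (S.a 0).1) ((S.a 1).2 - (S.a 0).2) ((S.a 2).1 - (S.a 0).1) ((S.a 2).2 - (S.a 0).2) ((S.a 3).1 - (S.a 0).1) ((S.a 3).2 - (S.a 0).2) ((S.a 4).1 - (S.a 0).1) ((S.a 4).2 - (S.a 0).2) (S.τ (4, 1)).1 (S.τ (4, 1)).2 (S.τ (2, 4)).1 (S.τ (2, 4)).2 (S.τ (1, 3)).1 (S.τ (1, 3)).2 ?_ ?_ ?_ ?_ ?_ ?_ ?_ ?_ ?_ ?_ ?_ ?_ ?_ ?_ ?_ ?_ ?_ ?_ ?_ ?_ ?_ ?_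
  · have h := S.ccw 0 1 2 (by decide) (by decide) (by decide)
    simp only [dt, Prod.fst_sub, Prod.snd_sub, Prod.fst_add, Prod.snd_add] at h
    linarith only [h]
  · have h := S.ccw 0 1 3 (by decide) (by decide) (by decide)
    simp only [dt, Prod.fst_sub, Prod.snd_sub, Prod.fst_add, Prod.snd_add] at h
    linarith only [h]
  · have h := S.ccw 0 1 4 (by decide) (by decide) (by decide)
    simp only [dt, Prod.fst_sub, Prod.snd_sub, Prod.fst_add, Prod.snd_add] at h
    linarith only [h]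
  · have h := S.ccw 0 2 4 (by decide) (by decide) (by decide)
    simp only [dt, Prod.fst_sub, Prod.snd_sub, Prod.fst_add, Prod.snd_add] at h
    linarith only [h]
  · have h := S.ccw 0 3 4 (by decide) (by decide) (by decide)
    simp only [dt, Prod.fst_sub, Prod.snd_sub, Prod.fst_add, Prod.snd_add] at h
    linarith only [h]
  · have h := S.ccw 1 2 3 (by decide) (by decide) (by decide)
    simp only [dt, Prod.fst_sub, Prod.snd_sub, Prod.fst_add, Prod.snd_add] at h
    linarith only [h]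
  · have h := S.ccw 1 2 4 (by decide) (by decide) (by decide)
    simp only [dt, Prod.fst_sub, Prod.snd_sub, Prod.fst_add, Prod.snd_add] at h
    linarith only [h]
  · have h := S.ccw 1 3 4 (by decide) (by decide) (by decide)
    simp only [dt, Prod.fst_sub, Prod.snd_sub, Prod.fst_add, Prod.snd_add] at h
    linarith only [h]
  · have h := S.ccw 2 3 4 (by decide) (by decide) (by decide)
    simp only [dt, Prod.fst_sub, Prod.snd_sub, Prod.fst_add, Prod.snd_add] at h
    linarith only [h]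
  · have h := S.sepA e2 e0 (by decide) (by decide)
    simp only [dt, Prod.fst_sub, Prod.snd_sub, Prod.fst_add, Prod.snd_add] at h
    linarith only [h]
  · have h := S.sepA e2 e3 (by decide) (by decide)
    simp only [dt, Prod.fst_sub, Prod.snd_sub, Prod.fst_add, Prod.snd_add] at h
    linarith only [h]
  · have h := S.sepA e2 (Or.inl e4) (by decide) (by decide)
    simp only [dt, Prod.fst_sub, Prod.snd_sub, Prod.fst_add, Prod.snd_add] at h
    linarith only [h]
  · have h := S.sepA e2 e7 (by decide) (by decide)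
    simp only [dt, Prod.fst_sub, Prod.snd_sub, Prod.fst_add, Prod.snd_add] at h
    linarith only [h]
  · have h := S.hdA e2 (by decide)
    simp only [dt, Prod.fst_sub, Prod.snd_sub, Prod.fst_add, Prod.snd_add] at h
    linarith only [h]
  · have h := S.sepA e4 e1 (by decide) (by decide)
    simp only [dt, Prod.fst_sub, Prod.snd_sub, Prod.fst_add, Prod.snd_add] at h
    linarith only [h]
  · have h := S.sepA e4 (Or.inl e2) (by decide) (by decide)
    simp only [dt, Prod.fst_sub, Prod.snd_sub, Prod.fst_add, Prod.snd_add] at h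
    linarith only [h]
  · have h := S.sepA e4 e3 (by decide) (by decide)
    simp only [dt, Prod.fst_sub, Prod.snd_sub, Prod.fst_add, Prod.snd_add] at h
    linarith only [h]
  · have h := S.sepA e4 e5 (by decide) (by decide)
    simp only [dt, Prod.fst_sub, Prod.snd_sub, Prod.fst_add, Prod.snd_add] at h
    linarith only [h]
  · have h := S.hdA e4 (by decide)
    simp only [dt, Prod.fst_sub, Prod.snd_sub, Prod.fst_add, Prod.snd_add] at h
    linarith only [h]
  · have h := S.sepA e6 e1 (by decide) (by decide)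
    simp only [dt, Prod.fst_sub, Prod.snd_sub, Prod.fst_add, Prod.snd_add] at h
    linarith only [h]
  · have h := S.sepA e6 e5 (by decide) (by decide)
    simp only [dt, Prod.fst_sub, Prod.snd_sub, Prod.fst_add, Prod.snd_add] at h
    linarith only [h]
  · have h := S.sepA e6 e7 (by decide) (by decide)
    simp only [dt, Prod.fst_sub, Prod.snd_sub, Prod.fst_add, Prod.snd_add] at h
    linarith only [h]

end Pool.Agent.MP_3fce03_co
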