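import Pool.Agent.MP_3fce03_co.PatA

namespace Pool.Agent.MP_3fce03_co

set_option linter.unusedVariables false
set_option linter.unusedSimpArgs false

lemma cyc_chain {k : ℕ} {f : ℕ → ℕ}
    (hc : ∀ i < k, 0 < i → i + 1 < k → cyc (f 0) (f i) (f (i + 1))) :
    ∀ i j l, i < j → j < l → l < k → cyc (f i) (f j) (f l) := by
  have h0 : ∀ j, j < k → ∀ i, 0 < i → i < j → cyc (f 0) (f i) (f j) := by
    intro j
    induction j with
    | zero => intro _ i _ h; omega
    | succ j ih =>
      intro hj i hi hij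
      rcases Nat.lt_succ_iff_lt_or_eq.1 hij with h | h
      · have h1 := ih (by omega) i hi h
        have h2 := hc j (by omega) (by omega) hj
        unfold cyc at *
        omega
      · subst h
        exact hc i (by omega) hi hj
  intro i j l hij hjl hl
  rcases Nat.eq_zero_or_pos i with h | h
  · subst h
    exact h0 l hl j hij hjl
  · have h1 := h0 j (by omega) i h hij
    have h2 := h0 l hl j (by omega) hjl
    unfold cyc at *
    omega

lemma cyc_inj {k : ℕ} {f : ℕ → ℕ} (hk : 3 ≤ k)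
    (hc : ∀ i < k, 0 < i → i + 1 < k → cyc (f 0) (f i) (f (i + 1))) :
    ∀ i j, i < k → j < k → f i = f j → i = j := by
  have h := cyc_chain hc
  have h1 : ∀ i j, i < j → j < k → f i ≠ f j := by
    intro i j hij hj
    by_cases h2 : j + 1 < k
    · have := h i j (j + 1) hij (by omega) h2
      unfold cyc at this
      omega
    · rcases Nat.eq_zero_or_pos i with h3 | h3
      · subst h3
        have := h 0 1 j (by omega) (by omega) hj
        unfold cyc at this
        omega
      · have := h 0 i j h3 hij hj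
        unfold cyc at this
        omega
  intro i j hi hj e
  rcases lt_trichotomy i j with h2 | h2 | h2
  · exact absurd e (h1 i j h2 hj)
  · exact h2
  · exact absurd e.symm (h1 j i h2 hi)

namespace Sys
variable {n : ℕ} (S : Sys n)

/-- restriction of a system to a cyclically ordered family of vertices -/
def res (k : ℕ) (f : ℕ → ℕ) (hk : 3 ≤ k) (hlt : ∀ i < k, f i < n)
    (hc : ∀ i < k, 0 < i → i + 1 < k → cyc (f 0) (f i) (f (i + 1))) : Sys k where
  a i := S.a (f i)
  E := ((Finset.range k) ×ˢ (Finset.range k)).filter (fun e => (f e.1, f e.2) ∈ S.E)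
  τ e := S.τ (f e.1, f e.2)
  lt e he := by
    simp only [Finset.mem_filter, Finset.mem_product, Finset.mem_range] at he
    exact he.1
  ccw i j l hij hjl hl :=
    S.ccw' (cyc_chain hc i j l hij hjl hl) (hlt i (by omega)) (hlt j (by omega)) (hlt l hl)
  sep e he g hg hne := by
    simp only [Finset.mem_filter, Finset.mem_product, Finset.mem_range] at he hg
    refine S.sep _ he.2 _ hg.2 ?_
    intro h
    simp only [Prod.mk.injEq] at h
    exact hne (Prod.ext (cyc_inj hk hc _ _ he.1.1 hg.1.1 h.1) (cyc_inj hk hc _ _ he.1.2 hg.1.2 h.2))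
  hd e he hne := by
    simp only [Finset.mem_filter, Finset.mem_product, Finset.mem_range] at he
    exact S.hd _ he.2 (fun h => hne (cyc_inj hk hc _ _ he.1.1 he.1.2 h))

lemma mem_res {k : ℕ} {f : ℕ → ℕ} {hk : 3 ≤ k} {hlt : ∀ i < k, f i < n}
    {hc : ∀ i < k, 0 < i → i + 1 < k → cyc (f 0) (f i) (f (i + 1))} {i j : ℕ} :
    (i, j) ∈ (S.res k f hk hlt hc).E ↔ (i < k ∧ j < k) ∧ (f i, f j) ∈ S.E := by
  simp only [res, Finset.mem_filter, Finset.mem_product, Finset.mem_range]

lemma mem_res' {k : ℕ} {f : ℕ → ℕ} {hk : 3 ≤ k} {hlt : ∀ i < k, f i < n}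
    {hc : ∀ i < k, 0 < i → i + 1 < k → cyc (f 0) (f i) (f (i + 1))} {i j : ℕ}
    (hi : i < k) (hj : j < k) (h : (f i, f j) ∈ S.E) : (i, j) ∈ (S.res k f hk hlt hc).E :=
  S.mem_res.2 ⟨⟨hi, hj⟩, h⟩

lemma adj_res' {k : ℕ} {f : ℕ → ℕ} {hk : 3 ≤ k} {hlt : ∀ i < k, f i < n}
    {hc : ∀ i < k, 0 < i → i + 1 < k → cyc (f 0) (f i) (f (i + 1))} {i j : ℕ}
    (hi : i < k) (hj : j < k) (h : S.adj (f i) (f j)) : (S.res k f hk hlt hc).adj i j := by
  rcases h with h | h
  · exact Or.inl (S.mem_res' hi hj h)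
  · exact Or.inr (S.mem_res' hj hi h)

lemma B3 {h t w1 w2 : ℕ} (e : (h, t) ∈ S.E) (a1 : S.adj h w1) (a2 : S.adj h w2)
    (c1 : cyc h w1 t) (c2 : cyc h t w2) : False := by
  have l1 := S.lt _ e
  have l2 := S.adj_lt a1
  have l3 := S.adj_lt a2
  refine patB3 (S.res 4 (fun i => [h, w1, t, w2].getD i 0) (by decide) ?_ ?_)
    (S.mem_res' (by decide) (by decide) e) (S.adj_res' (by decide) (by decide) a1)
    (S.adj_res' (by decide) (by decide) a2)
  · intro i hi
    interval_cases i <;> simp <;> omega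
  · intro i hi h1 h2
    interval_cases i <;> first | omega | simpa

lemma N {s p ru lu rp lp u : ℕ} (e0 : (s, s) ∈ S.E) (e1 : (u, ru) ∈ S.E) (e2 : S.adj u lu)
    (e3 : (p, lp) ∈ S.E) (e4 : S.adj p rp) (c0 : cyc u s p) (c1 : cyc u ru lu) (c2 : cyc p rp lp)
    (c3 : lu = rp ∨ cyc p lu rp) (c4 : ru = p ∨ cyc u p ru) (c5 : lp = u ∨ cyc p lp u) :
    False := by
  have l0 := S.lt _ e0
  have l1 := S.lt _ e1
  have l2 := S.adj_lt e2
  have l3 := S.lt _ e3
  have l4 := S.adj_lt e4
  simp only at l0 l1 l3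
  rcases c4 with c4 | c4
  · subst c4
    rcases c5 with c5 | c5
    · subst c5
      have := S.not_both e1 e3
      unfold cyc at *
      omega
    · exact S.B3 e3 e4 (Or.inr e1) c2 c5
  rcases c5 with c5 | c5
  · subst c5
    exact S.B3 e1 (Or.inr e3) e2 c4 c1
  rcases c3 with c3 | c3
  · subst c3
    refine patN6 (S.res 6 (fun i => [s, p, ru, lu, lp, u].getD i 0) (by decide) ?_ ?_)
      (S.adj_res' (by decide) (by decide) (Or.inl e0)) (S.mem_res' (by decide) (by decide) e1)
      (S.adj_res' (by decide) (by decide) e2) (S.mem_res' (by decide) (by decide) e3)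
      (S.adj_res' (by decide) (by decide) e4)
    · intro i hi
      interval_cases i <;> simp <;> omega
    · intro i hi h1 h2
      unfold cyc at *
      interval_cases i <;> simp <;> omega
  · refine patN7 (S.res 7 (fun i => [s, p, ru, lu, rp, lp, u].getD i 0) (by decide) ?_ ?_)
      (S.adj_res' (by decide) (by decide) (Or.inl e0)) (S.mem_res' (by decide) (by decide) e1)
      (S.adj_res' (by decide) (by decide) e2) (S.mem_res' (by decide) (by decide) e3)
      (S.adj_res' (by decide) (by decide) e4)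
    · intro i hi
      interval_cases i <;> simp <;> omega
    · intro i hi h1 h2
      unfold cyc at *
      interval_cases i <;> simp <;> omega

lemma diag_raw (x1 y1 x2 y2 x3 y3 p q : ℝ) (F0 : 0 < x1 * y2 - y1 * x2)
    (F1 : 0 < x1 * y3 - y1 * x3) (F2 : 0 < x2 * y3 - y2 * x3)
    (F3 : 0 < (x2 - x1) * (y3 - y1) - (y2 - y1) * (x3 - x1))
    (h1 : x1 * q - y1 * p < 0) (h2 : x3 * q - y3 * p < 0) :
    x2 * q - y2 * p < 0 := by
  have e : (x1 * y3 - y1 * x3) * (x2 * q - y2 * p) =
      (x2 * y3 - y2 * x3) * (x1 * q - y1 * p) + (x1 * y2 - y1 * x2) * (x3 * q - y3 * p) := by ring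
  have := mul_neg_of_pos_of_neg F2 h1
  have := mul_neg_of_pos_of_neg F0 h2
  by_contra h
  have := mul_nonneg F1.le (not_lt.1 h)
  linarith

/-- the two diagonals of a convex quadrilateral cross -/
lemma diag {i j k l : ℕ} (c1 : cyc i j k) (c2 : cyc i k l) (hi : i < n) (hj : j < n) (hk : k < n)
    (hl : l < n) (t : ℝ × ℝ) (h1 : dt (S.a j) t < dt (S.a i) t) (h2 : dt (S.a l) t < dt (S.a i) t)
    (h3 : dt (S.a j) t < dt (S.a k) t) (h4 : dt (S.a l) t < dt (S.a k) t) : False := by
  have A1 := S.ccw' c1 hi hj hk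
  have A2 := S.ccw' c2 hi hk hl
  have A3 := S.ccw' (show cyc i j l by unfold cyc at *; omega) hi hj hl
  have A4 := S.ccw' (show cyc j k l by unfold cyc at *; omega) hj hk hl
  simp only [dt, Prod.fst_sub, Prod.snd_sub] at *
  have B1 := diag_raw ((S.a j).1 - (S.a i).1) ((S.a j).2 - (S.a i).2) ((S.a k).1 - (S.a i).1)
    ((S.a k).2 - (S.a i).2) ((S.a l).1 - (S.a i).1) ((S.a l).2 - (S.a i).2) t.1 t.2
    (by linarith only [A1]) (by linarith only [A3]) (by linarith only [A2])
    (by linarith only [A4]) (by linarith only [h1]) (by linarith only [h2])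
  have B2 := diag_raw ((S.a l).1 - (S.a k).1) ((S.a l).2 - (S.a k).2) ((S.a i).1 - (S.a k).1)
    ((S.a i).2 - (S.a k).2) ((S.a j).1 - (S.a k).1) ((S.a j).2 - (S.a k).2) t.1 t.2
    (by linarith only [A2]) (by linarith only [A4]) (by linarith only [A1])
    (by linarith only [A3]) (by linarith only [h4]) (by linarith only [h3])
  linarith only [B1, B2]

lemma Qf {l b c r : ℕ} (c1 : cyc l b c) (c2 : cyc l c r) (hl : l < n) (hb : b < n) (hc : c < n)
    (hr : r < n) (t s : ℝ × ℝ) (h1 : dt (S.a l) t < dt (S.a r) t) (h2 : dt (S.a c) t < dt (S.a b) t)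
    (h3 : dt (S.a r) t < dt (S.a b) t) (h4 : dt (S.a b) s < dt (S.a c) s)
    (h5 : dt (S.a r) s < dt (S.a l) s) (h6 : dt (S.a l) s < dt (S.a c) s) : False := by
  have A1 := S.ccw' c1 hl hb hc
  have A2 := S.ccw' c2 hl hc hr
  have A3 := S.ccw' (show cyc l b r by unfold cyc at *; omega) hl hb hr
  simp only [dt, Prod.fst_sub, Prod.snd_sub] at *
  exact patQ_raw ((S.a b).1 - (S.a l).1) ((S.a b).2 - (S.a l).2) ((S.a c).1 - (S.a l).1)
    ((S.a c).2 - (S.a l).2) ((S.a r).1 - (S.a l).1) ((S.a r).2 - (S.a l).2) t.1 t.2 s.1 s.2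
    (by linarith only [A1]) (by linarith only [A3]) (by linarith only [A2])
    (by linarith only [h1]) (by linarith only [h2]) (by linarith only [h3])
    (by linarith only [h4]) (by linarith only [h5]) (by linarith only [h6])

lemma hdB {h t : ℕ} (e : (h, t) ∈ S.E) (h1 : h ≠ t) :
    dt (S.a t) (S.τ (h, t)) < dt (S.a h) (S.τ (h, t)) := by
  have := S.hdA e h1
  simp only [dt, Prod.fst_sub, Prod.snd_sub] at *
  linarith

lemma sepB {h t i j : ℕ} (e : (h, t) ∈ S.E) (f : S.adj i j) (h1 : ¬ (h = i ∧ t = j))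
    (h2 : ¬ (h = j ∧ t = i)) :
    dt (S.a i) (S.τ (h, t)) + dt (S.a j) (S.τ (h, t)) <
      dt (S.a h) (S.τ (h, t)) + dt (S.a t) (S.τ (h, t)) := by
  have := S.sepA e f h1 h2
  simp only [dt, Prod.fst_sub, Prod.snd_sub, Prod.fst_add, Prod.snd_add] at *
  linarith

lemma L1 {b c rb lb rc lc : ℕ} (e1 : (b, rb) ∈ S.E) (a1 : S.adj b lb) (e2 : (c, lc) ∈ S.E)
    (a2 : S.adj c rc) (c0 : cyc lb b c) (c1 : cyc b c rc) (c2 : cyc b rb lb) (c3 : cyc c rc lc)
    (c4 : rc = rb ∨ cyc b rc rb) (c5 : lc = lb ∨ cyc c lc lb) : False := by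
  have l1 := S.lt _ e1
  have l2 := S.adj_lt a1
  have l3 := S.lt _ e2
  have l4 := S.adj_lt a2
  simp only at l1 l3
  have d1 : cyc lb c rc := by unfold cyc at *; omega
  have p1 := S.hdB e1 (by unfold cyc at *; omega)
  have p2 := S.sepB e1 a1 (by unfold cyc at *; omega) (by unfold cyc at *; omega)
  have p3 := S.sepB e1 a2 (by unfold cyc at *; omega) (by unfold cyc at *; omega)
  have q1 := S.hdB e2 (by unfold cyc at *; omega)
  have q2 := S.sepB e2 a2 (by unfold cyc at *; omega) (by unfold cyc at *; omega)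
  have q3 := S.sepB e2 a1 (by unfold cyc at *; omega) (by unfold cyc at *; omega)
  have p4 : dt (S.a rb) (S.τ (b, rb)) ≤ dt (S.a rc) (S.τ (b, rb)) := by
    rcases c4 with c4 | c4
    · rw [c4]
    · by_contra hh
      exact S.diag (i := b) (j := rc) (k := rb) (l := lb) (by unfold cyc at *; omega) c2
        l1.1 l4.2 l1.2 l2.2 (S.τ (b, rb)) (by linarith) (by linarith) (by linarith) (by linarith)
  have p5 : dt (S.a rc) (S.τ (b, rb)) < dt (S.a b) (S.τ (b, rb)) := by
    by_contra hh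
    exact S.diag (i := b) (j := c) (k := rc) (l := lb) c1 (by unfold cyc at *; omega)
        l1.1 l3.1 l4.2 l2.2 (S.τ (b, rb)) (by linarith) (by linarith) (by linarith) (by linarith)
  have q4 : dt (S.a lc) (S.τ (c, lc)) ≤ dt (S.a lb) (S.τ (c, lc)) := by
    rcases c5 with c5 | c5
    · rw [c5]
    · by_contra hh
      exact S.diag (i := c) (j := rc) (k := lc) (l := lb) c3 c5
        l3.1 l4.2 l3.2 l2.2 (S.τ (c, lc)) (by linarith) (by linarith) (by linarith) (by linarith)
  have q5 : dt (S.a lb) (S.τ (c, lc)) < dt (S.a c) (S.τ (c, lc)) := by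
    by_contra hh
    exact S.diag (i := lb) (j := b) (k := c) (l := rc) c0 d1
        l2.2 l1.1 l3.1 l4.2 (S.τ (c, lc)) (by linarith) (by linarith) (by linarith) (by linarith)
  exact S.Qf c0 d1 l2.2 l1.1 l3.1 l4.2 (S.τ (b, rb)) (S.τ (c, lc)) (by linarith) (by linarith)
    p5 (by linarith) (by linarith) q5

end Sys

end Pool.Agent.MP_3fce03_co
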