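import Pool.Agent.MP_3fce03_co.CaseA

namespace Pool.Agent.MP_3fce03_co

set_option linter.unusedVariables false
set_option linter.unusedSimpArgs false

namespace Sys
variable {n : ℕ} (S : Sys n)

/-- `t` is the first neighbour of `h` in counterclockwise order -/
def first (h t : ℕ) : Prop := S.adj h t ∧ h ≠ t ∧ ∀ w, S.adj h w → ¬ cyc h w t

/-- `t` is the last neighbour of `h` in counterclockwise order -/
def last (h t : ℕ) : Prop := S.adj h t ∧ h ≠ t ∧ ∀ w, S.adj h w → ¬ cyc h t w

lemma first_uniq {h t u : ℕ} (a : S.first h t) (b : S.first h u) : t = u := by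
  have h1 := a.2.2 u b.1
  have h2 := b.2.2 t a.1
  have h3 := a.2.1
  have h4 := b.2.1
  unfold cyc at *
  omega

lemma last_uniq {h t u : ℕ} (a : S.last h t) (b : S.last h u) : t = u := by
  have h1 := a.2.2 u b.1
  have h2 := b.2.2 t a.1
  have h3 := a.2.1
  have h4 := b.2.1
  unfold cyc at *
  omega

lemma first_or_last {h t : ℕ} (e : (h, t) ∈ S.E) (hne : h ≠ t) : S.first h t ∨ S.last h t := by
  by_contra hh
  push Not at hh
  obtain ⟨h1, h2⟩ := hh
  unfold first at h1
  unfold last at h2
  push Not at h1 h2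
  obtain ⟨w1, a1, c1⟩ := h1 (Or.inl e) hne
  obtain ⟨w2, a2, c2⟩ := h2 (Or.inl e) hne
  exact S.B3 e a1 a2 c1 c2

/-- cyclic offset -/
def off (n i j : ℕ) : ℕ := if i ≤ j then j - i else j + n - i

lemma ex_first {h t : ℕ} (a : S.adj h t) (hne : h ≠ t) : ∃ u, S.first h u := by
  have key : ∀ m t, off n h t = m → S.adj h t → h ≠ t → ∃ u, S.first h u := by
    intro m
    induction m using Nat.strong_induction_on with
    | _ m ih =>
      intro t hm a hne
      by_cases hf : S.first h t
      · exact ⟨t, hf⟩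
      · unfold first at hf
        push Not at hf
        obtain ⟨w, aw, cw⟩ := hf a hne
        have l1 := S.adj_lt a
        have l2 := S.adj_lt aw
        refine ih (off n h w) ?_ w rfl aw (by unfold cyc at cw; omega)
        rw [← hm]
        unfold off cyc at *
        split_ifs <;> omega
  exact key _ t rfl a hne

lemma ex_last {h t : ℕ} (a : S.adj h t) (hne : h ≠ t) : ∃ u, S.last h u := by
  have key : ∀ m t, off n t h = m → S.adj h t → h ≠ t → ∃ u, S.last h u := by
    intro m
    induction m using Nat.strong_induction_on with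
    | _ m ih =>
      intro t hm a hne
      by_cases hf : S.last h t
      · exact ⟨t, hf⟩
      · unfold last at hf
        push Not at hf
        obtain ⟨w, aw, cw⟩ := hf a hne
        have l1 := S.adj_lt a
        have l2 := S.adj_lt aw
        refine ih (off n w h) ?_ w rfl aw (by unfold cyc at cw; omega)
        rw [← hm]
        unfold off cyc at *
        split_ifs <;> omega
  exact key _ t rfl a hne

open Classical in
/-- the slot used by an edge -/
noncomputable def slot (e : ℕ × ℕ) : ℕ × Bool := (e.1, decide (S.first e.1 e.2))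

/-- a slot used by no edge -/
def miss (v : ℕ) (b : Bool) : Prop := v < n ∧ ∀ e ∈ S.E, S.slot e ≠ (v, b)

lemma slot_inj : Set.InjOn S.slot S.E := by
  rintro ⟨h, t⟩ e ⟨h', u⟩ f hs
  simp only [slot, Prod.mk.injEq, decide_eq_decide] at hs
  obtain ⟨rfl, hs⟩ := hs
  have e' : (h, t) ∈ S.E := e
  have f' : (h, u) ∈ S.E := f
  suffices t = u by rw [this]
  by_cases h1 : h = t
  · subst h1
    exact (S.loop_head e' f').symm
  by_cases h2 : h = u
  · subst h2
    exact S.loop_head f' e'
  by_cases h3 : S.first h t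
  · exact S.first_uniq h3 (hs.1 h3)
  · exact S.last_uniq ((S.first_or_last e' h1).resolve_left h3)
      ((S.first_or_last f' h2).resolve_left (fun h => h3 (hs.2 h)))

lemma card_le (T : Finset (ℕ × Bool)) (hT : ∀ x ∈ T, S.miss x.1 x.2) :
    S.E.card + T.card ≤ 2 * n := by
  classical
  have h1 : (S.E.image S.slot).card = S.E.card := Finset.card_image_of_injOn S.slot_inj
  have h2 : Disjoint (S.E.image S.slot) T := by
    rw [Finset.disjoint_left]
    intro x hx hx'
    obtain ⟨e, he, rfl⟩ := Finset.mem_image.1 hx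
    exact (hT _ hx').2 e he rfl
  have h3 : S.E.image S.slot ∪ T ⊆ Finset.range n ×ˢ (Finset.univ : Finset Bool) := by
    intro x hx
    simp only [Finset.mem_product, Finset.mem_range, Finset.mem_univ, and_true]
    rcases Finset.mem_union.1 hx with hx | hx
    · obtain ⟨e, he, rfl⟩ := Finset.mem_image.1 hx
      exact (S.lt e he).1
    · exact (hT _ hx).1
  have h4 := Finset.card_le_card h3
  rw [Finset.card_union_of_disjoint h2, h1, Finset.card_product, Finset.card_range,
    Finset.card_univ, Fintype.card_bool] at h4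
  omega

lemma fillT {v : ℕ} (hv : v < n) (h : ¬ S.miss v true) : ∃ t, (v, t) ∈ S.E ∧ S.first v t := by
  unfold miss at h
  push Not at h
  obtain ⟨⟨x, t⟩, e, hs⟩ := h hv
  simp only [slot, Prod.mk.injEq, decide_eq_true_eq] at hs
  obtain ⟨rfl, hs⟩ := hs
  exact ⟨t, e, hs⟩

lemma fillF {v : ℕ} (hv : v < n) (h : ¬ S.miss v false) (hl : (v, v) ∉ S.E) :
    ∃ t, (v, t) ∈ S.E ∧ S.last v t ∧ ¬ S.first v t := by
  unfold miss at h
  push Not at h
  obtain ⟨⟨x, t⟩, e, hs⟩ := h hv
  simp only [slot, Prod.mk.injEq, decide_eq_false_iff_not] at hs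
  obtain ⟨rfl, hs⟩ := hs
  have hne : x ≠ t := by
    rintro rfl
    exact hl e
  exact ⟨t, e, (S.first_or_last e hne).resolve_left hs, hs⟩

lemma loop_miss {s : ℕ} (e : (s, s) ∈ S.E) : S.miss s true := by
  by_contra h
  obtain ⟨t, f, hf⟩ := S.fillT (S.lt _ e).1 h
  exact hf.2.1 (S.loop_head e f).symm

lemma missT_of {i j : ℕ} (h : S.first i j) (e : (j, i) ∈ S.E) : S.miss i true := by
  by_contra hh
  obtain ⟨t, f, hf⟩ := S.fillT (S.lt _ e).2 hh
  have := S.first_uniq h hf
  subst this
  exact h.2.1 (S.not_both f e)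

lemma missF_of {i j : ℕ} (h : S.last i j) (e : (j, i) ∈ S.E) (hl : (i, i) ∉ S.E) :
    S.miss i false := by
  by_contra hh
  obtain ⟨t, f, hf, _⟩ := S.fillF (S.lt _ e).2 hh hl
  have := S.last_uniq h hf
  subst this
  exact h.2.1 (S.not_both f e)

lemma missF_of' {i j : ℕ} (h : S.last i j) (h' : S.first i j) (hl : (i, i) ∉ S.E) :
    S.miss i false := by
  by_contra hh
  obtain ⟨t, f, hf, hg⟩ := S.fillF (S.adj_lt h.1).1 hh hl
  have := S.last_uniq h hf
  subst this
  exact hg h'

/-- both slots filled -/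
lemma two_of {v : ℕ} (hv : v < n) (h1 : ¬ S.miss v true) (h2 : ¬ S.miss v false)
    (hl : (v, v) ∉ S.E) : ∃ r l, (v, r) ∈ S.E ∧ (v, l) ∈ S.E ∧ cyc v r l ∧ S.first v r ∧
      S.last v l := by
  obtain ⟨r, er, fr⟩ := S.fillT hv h1
  obtain ⟨l, el, fl, nl⟩ := S.fillF hv h2 hl
  refine ⟨r, l, er, el, ?_, fr, fl⟩
  have a1 : r ≠ l := by
    rintro rfl
    exact nl fr
  have a2 := fr.2.2 l (Or.inl el)
  have a3 := fr.2.1
  have a4 := fl.2.1
  unfold cyc at *
  omega

/-- a pocket -/
def pocket (i j : ℕ) : Prop := S.first i j ∧ S.last j i ∧ (i, i) ∉ S.E ∧ (j, j) ∉ S.E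

lemma pocket_miss {i j : ℕ} (h : S.pocket i j) : S.miss i true ∨ S.miss j false := by
  rcases h.1.1 with e | e
  · exact Or.inr (S.missF_of h.2.1 e h.2.2.2)
  · exact Or.inl (S.missT_of h.1 e)

/-- `x` lies on the closed arc from `i` to `j` -/
def arc (i j x : ℕ) : Prop := x = i ∨ x = j ∨ cyc i x j

lemma Z {i j : ℕ} (a : S.adj i j) (hne : i ≠ j) :
    (∃ s, (s, s) ∈ S.E ∧ arc i j s) ∨ ∃ x y, S.pocket x y ∧ arc i j x ∧ x ≠ j ∧ arc x j y := by
  have key : ∀ m i j, off n i j = m → S.adj i j → i ≠ j →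
      ((∃ s, (s, s) ∈ S.E ∧ arc i j s) ∨
        ∃ x y, S.pocket x y ∧ arc i j x ∧ x ≠ j ∧ arc x j y) := by
    intro m
    induction m using Nat.strong_induction_on with
    | _ m ih =>
      intro i j hm a hne
      have l1 := S.adj_lt a
      by_cases li : (i, i) ∈ S.E
      · exact Or.inl ⟨i, li, Or.inl rfl⟩
      by_cases lj : (j, j) ∈ S.E
      · exact Or.inl ⟨j, lj, Or.inr (Or.inl rfl)⟩
      by_cases hf : S.first i j
      · by_cases hl : S.last j i
        · exact Or.inr ⟨i, j, ⟨hf, hl, li, lj⟩, Or.inl rfl, hne, Or.inr (Or.inl rfl)⟩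
        · unfold last at hl
          push Not at hl
          obtain ⟨w, aw, cw⟩ := hl a.symm hne.symm
          have l2 := S.adj_lt aw
          rcases ih (off n w j) (by
              rw [← hm]
              unfold off cyc at *
              split_ifs <;> omega) w j rfl aw.symm (by unfold cyc at cw; omega) with
            ⟨s, h1, h2⟩ | ⟨x, y, h1, h2, h3, h4⟩
          · exact Or.inl ⟨s, h1, by unfold arc cyc at *; omega⟩
          · exact Or.inr ⟨x, y, h1, by unfold arc cyc at *; omega, h3, h4⟩
      · unfold first at hf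
        push Not at hf
        obtain ⟨w, aw, cw⟩ := hf a hne
        have l2 := S.adj_lt aw
        rcases ih (off n i w) (by
            rw [← hm]
            unfold off cyc at *
            split_ifs <;> omega) i w rfl aw (by unfold cyc at cw; omega) with
          ⟨s, h1, h2⟩ | ⟨x, y, h1, h2, h3, h4⟩
        · exact Or.inl ⟨s, h1, by unfold arc cyc at *; omega⟩
        · exact Or.inr ⟨x, y, h1, by unfold arc cyc at *; omega, by unfold arc cyc at *; omega,
            by unfold arc cyc at *; omega⟩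
  exact key _ i j rfl a hne

end Sys

end Pool.Agent.MP_3fce03_co
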