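import Pool.Agent.MP_3fce03_co.Slots

namespace Pool.Agent.MP_3fce03_co

set_option linter.unusedVariables false
set_option linter.unusedSimpArgs false

namespace Sys
variable {n : ℕ} (S : Sys n)

/-- at most two missing slots -/
def M3 : Prop := ∀ v b w c x d, S.miss v b → S.miss w c → S.miss x d →
  (v = w ∧ b = c) ∨ (v = x ∧ b = d) ∨ (w = x ∧ c = d)

lemma pocket_eq {i j x y : ℕ} (h : S.pocket i j) (g : S.pocket x y) (e : i = x ∨ j = y) :
    i = x ∧ j = y := by
  rcases e with rfl | rfl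
  · exact ⟨rfl, S.first_uniq h.1 g.1⟩
  · exact ⟨S.last_uniq h.2.1 g.2.1, rfl⟩

lemma keyC (m : S.M3) (hl : ∀ s, (s, s) ∉ S.E) {a1 b1 a2 b2 : ℕ} (P1 : S.pocket a1 b1)
    (P2 : S.pocket a2 b2) (na : a1 ≠ a2) (nb : b1 ≠ b2) : b1 = a2 ∧ S.miss a2 true := by
  have Z' : ∀ i j, S.adj i j → i ≠ j →
      ∃ x y, S.pocket x y ∧ arc i j x ∧ x ≠ j ∧ arc x j y := by
    intro i j a hne
    rcases S.Z a hne with ⟨s, h, _⟩ | h
    · exact absurd h (hl s)
    · exact h
  have only : ∀ x y, S.pocket x y → (x = a1 ∧ y = b1) ∨ (x = a2 ∧ y = b2) := by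
    intro x y P
    by_contra hh
    have n1 : x ≠ a1 := fun h => hh (Or.inl (S.pocket_eq P P1 (Or.inl h)))
    have n2 : y ≠ b1 := fun h => hh (Or.inl (S.pocket_eq P P1 (Or.inr h)))
    have n3 : x ≠ a2 := fun h => hh (Or.inr (S.pocket_eq P P2 (Or.inl h)))
    have n4 : y ≠ b2 := fun h => hh (Or.inr (S.pocket_eq P P2 (Or.inr h)))
    rcases S.pocket_miss P with h | h <;> rcases S.pocket_miss P1 with h1 | h1 <;>
      rcases S.pocket_miss P2 with h2 | h2 <;> have := m _ _ _ _ _ _ h h1 h2 <;> simp_all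
  have slots : ∀ v, S.miss v true → v = a1 ∨ v = a2 := by
    intro v h
    by_contra hh
    push Not at hh
    obtain ⟨n1, n2⟩ := hh
    rcases S.pocket_miss P1 with h1 | h1 <;>
      rcases S.pocket_miss P2 with h2 | h2 <;> have := m _ _ _ _ _ _ h h1 h2 <;> simp_all
  have ab : a1 ≠ b1 := P1.1.2.1
  obtain ⟨w, fw⟩ := S.ex_first P1.2.1.1 P1.2.1.2.1
  obtain ⟨x, fx⟩ := S.ex_first fw.1.symm fw.2.1.symm
  have c1 := P1.2.1.2.2 w fw.1
  have c2 := fx.2.2 b1 fw.1.symm
  have c3 := fw.2.1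
  have c4 := fx.2.1
  obtain ⟨p, q, P, h1, h2, h3⟩ := Z' b1 w fw.1 fw.2.1
  rcases only p q P with ⟨rfl, rfl⟩ | ⟨rfl, rfl⟩
  · exfalso
    unfold arc cyc at *
    omega
  obtain ⟨p', q', P', g1, g2, g3⟩ := Z' w x fx.1 fx.2.1
  rcases only p' q' P' with ⟨rfl, rfl⟩ | ⟨rfl, rfl⟩
  swap
  · exfalso
    unfold arc cyc at *
    omega
  have hx : x = q' := by
    unfold arc cyc at *
    omega
  subst hx
  rcases fw.1 with e | e
  · exfalso
    have mw := S.missT_of fx e
    rcases slots w mw with rfl | rfl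
    · have mb := S.missF_of' P1.2.1 fw (hl _)
      rcases S.pocket_miss P2 with h2 | h2 <;> have := m _ _ _ _ _ _ mw mb h2 <;> simp_all
    · exact h2 rfl
  · have mw := S.missT_of fw e
    rcases slots x mw with h | h
    · exact absurd h.symm ab
    · exact ⟨h, h ▸ mw⟩

lemma two_pockets (hl : ∀ s, (s, s) ∉ S.E) {i j : ℕ} (a : S.adj i j) (hne : i ≠ j) :
    ∃ a1 b1 a2 b2, S.pocket a1 b1 ∧ S.pocket a2 b2 ∧ a1 ≠ a2 ∧ b1 ≠ b2 := by
  rcases S.Z a hne with ⟨s, h, _⟩ | ⟨a1, b1, P1, h1, h2, h3⟩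
  · exact absurd h (hl s)
  rcases S.Z a.symm hne.symm with ⟨s, h, _⟩ | ⟨a2, b2, P2, g1, g2, g3⟩
  · exact absurd h (hl s)
  have na : a1 ≠ a2 := by
    unfold arc cyc at *
    omega
  exact ⟨a1, b1, a2, b2, P1, P2, na, fun h => na (S.pocket_eq P1 P2 (Or.inr h)).1⟩

lemma caseC (hn : 2 ≤ n) (m : S.M3) (hl : ∀ s, (s, s) ∉ S.E) : False := by
  have ex : ∃ i j, S.adj i j ∧ i ≠ j := by
    by_cases h1 : S.miss 0 true
    · by_cases h2 : S.miss 0 false
      · by_cases h3 : S.miss 1 true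
        · have := m _ _ _ _ _ _ h1 h2 h3
          simp at this
        · obtain ⟨t, e, f⟩ := S.fillT (by omega) h3
          exact ⟨_, _, f.1, f.2.1⟩
      · obtain ⟨t, e, f, _⟩ := S.fillF (by omega) h2 (hl _)
        exact ⟨_, _, f.1, f.2.1⟩
    · obtain ⟨t, e, f⟩ := S.fillT (by omega) h1
      exact ⟨_, _, f.1, f.2.1⟩
  obtain ⟨i, j, a, hne⟩ := ex
  obtain ⟨a1, b1, a2, b2, P1, P2, na, nb⟩ := S.two_pockets hl a hne
  obtain ⟨rfl, m1⟩ := S.keyC m hl P1 P2 na nb
  obtain ⟨rfl, m2⟩ := S.keyC m hl P2 P1 na.symm nb.symm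
  have m3 := S.missF_of' P1.2.1 P2.1 (hl _)
  have := m _ _ _ _ _ _ m1 m2 m3
  simp_all

lemma caseB (hn : 4 ≤ n) (m : S.M3) (e0 : (0, 0) ∈ S.E) (hl : ∀ s, (s, s) ∈ S.E → s = 0) :
    False := by
  have m0 := S.loop_miss e0
  have hl' : ∀ s, s ≠ 0 → (s, s) ∉ S.E := fun s h g => h (hl s g)
  have ZB : ∀ i j, 0 < i → i < j → S.adj i j → ∃ x y, S.pocket x y ∧ i ≤ x ∧ x < y ∧ y ≤ j := by
    intro i j h1 h2 a
    rcases S.Z a (by omega) with ⟨s, h, g⟩ | ⟨x, y, P, g1, g2, g3⟩
    · have := hl s h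
      unfold arc cyc at g
      omega
    · have := P.1.2.1
      refine ⟨x, y, P, ?_, ?_, ?_⟩ <;> unfold arc cyc at * <;> omega
  have ex : ∃ i j, 0 < i ∧ i < j ∧ S.adj i j := by
    have ex1 : ∃ v, 0 < v ∧ v < n ∧ ¬ S.miss v true ∧ ¬ S.miss v false := by
      by_contra hh
      push Not at hh
      have h1 : ∃ b, S.miss 1 b := by
        by_cases h : S.miss 1 true
        · exact ⟨_, h⟩
        · exact ⟨_, hh 1 (by omega) (by omega) h⟩
      have h2 : ∃ b, S.miss 2 b := by
        by_cases h : S.miss 2 true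
        · exact ⟨_, h⟩
        · exact ⟨_, hh 2 (by omega) (by omega) h⟩
      obtain ⟨b1, h1⟩ := h1
      obtain ⟨b2, h2⟩ := h2
      have := m _ _ _ _ _ _ m0 h1 h2
      simp at this
    obtain ⟨v, h0, h1, h2, h3⟩ := ex1
    obtain ⟨r, l, er, el, c, _, _⟩ := S.two_of h1 h2 h3 (hl' v (by omega))
    by_cases hr : r = 0
    · exact ⟨l, v, by unfold cyc at c; omega, by unfold cyc at c; omega, Or.inr el⟩
    · rcases lt_or_gt_of_ne (show r ≠ v by unfold cyc at c; omega) with h | h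
      · exact ⟨r, v, by omega, h, Or.inr er⟩
      · exact ⟨v, r, h0, h, Or.inl er⟩
  obtain ⟨i, j, hi, hij, aij⟩ := ex
  obtain ⟨a, b, P, ha, hab, hb⟩ := ZB i j hi hij aij
  have bn : b < n := (S.adj_lt P.1.1).2
  have only : ∀ x y, S.pocket x y → x = a ∧ y = b := by
    intro x y Q
    by_contra hh
    have n1 : x ≠ a := fun h => hh (S.pocket_eq Q P (Or.inl h))
    have n2 : y ≠ b := fun h => hh (S.pocket_eq Q P (Or.inr h))
    have n3 : x ≠ 0 := by
      rintro rfl
      exact Q.2.2.1 e0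
    have n4 : a ≠ 0 := by omega
    rcases S.pocket_miss Q with h | h <;> rcases S.pocket_miss P with h1 | h1 <;>
      have := m _ _ _ _ _ _ h h1 m0 <;> simp_all
  have slots : ∀ v c, S.miss v c → v ≠ 0 → (v = a ∧ c = true) ∨ (v = b ∧ c = false) := by
    intro v c h h0
    have n4 : a ≠ 0 := by omega
    rcases S.pocket_miss P with h1 | h1 <;> have := m _ _ _ _ _ _ h h1 m0 <;> simp_all
  have nb : ∀ v w, S.adj v w → v ≠ 0 → w = 0 ∨ (v ≤ a ∧ b ≤ w) ∨ (w ≤ a ∧ b ≤ v) := by
    intro v w h h0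
    by_cases w0 : w = 0
    · exact Or.inl w0
    rcases lt_trichotomy v w with g | g | g
    · obtain ⟨x, y, Q, g1, g2, g3⟩ := ZB v w (by omega) g h
      have := only x y Q
      omega
    · subst g
      rcases h with h | h <;> exact absurd h (hl' v h0)
    · obtain ⟨x, y, Q, g1, g2, g3⟩ := ZB w v (by omega) g h.symm
      have := only x y Q
      omega
  have full : ∀ v, v < n → v ≠ 0 → v ≠ a → v ≠ b →
      ∃ r l, (v, r) ∈ S.E ∧ (v, l) ∈ S.E ∧ cyc v r l := by
    intro v h1 h2 h3 h4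
    obtain ⟨r, l, er, el, c, _, _⟩ := S.two_of h1 (fun h => by have := slots _ _ h h2; omega)
      (fun h => by have := slots _ _ h h2; omega) (hl' v h2)
    exact ⟨r, l, er, el, c⟩
  have eb : (b, 0) ∈ S.E := by
    obtain ⟨x, e, f⟩ := S.fillT bn (fun h => by
      have := slots _ _ h (by omega)
      simp at this
      omega)
    by_cases x0 : x = 0
    · rwa [x0] at e
    exfalso
    have h1 := nb b x f.1 (by omega)
    have f2 : S.first x b := ⟨f.1.symm, f.2.1.symm, fun w hw => by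
      have := nb x w hw x0
      unfold cyc
      omega⟩
    have mx := S.missT_of f2 e
    have h2 := slots _ _ mx x0
    simp at h2
    subst h2
    have mb := S.missF_of' P.2.1 f P.2.2.2
    have := m _ _ _ _ _ _ mx mb m0
    simp_all
  have ea : (a, 0) ∈ S.E := by
    obtain ⟨y, e, f, g⟩ := S.fillF (show a < n by omega) (fun h => by
      have := slots _ _ h (by omega)
      simp at this
      omega) P.2.2.1
    by_cases y0 : y = 0
    · rwa [y0] at e
    exfalso
    have h1 := nb a y f.1 (by omega)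
    have f2 : S.last y a := ⟨f.1.symm, f.2.1.symm, fun w hw => by
      have := nb y w hw y0
      unfold cyc
      omega⟩
    have my := S.missF_of f2 e (hl' y y0)
    have h2 := slots _ _ my y0
    simp at h2
    subst h2
    exact g P.1
  have kill1 : ∀ v r l, 0 < v → v < a → (v, r) ∈ S.E → (v, l) ∈ S.E → cyc v r l → l ≠ 0 := by
    intro v r l h1 h2 er el c h
    subst h
    have h3 := nb v r (Or.inl er) (by omega)
    exact S.L1 er (Or.inl el) ea P.1.1 (by unfold cyc at *; omega) (by unfold cyc at *; omega) c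
      (by unfold cyc at *; omega) (by unfold cyc at *; omega) (Or.inl rfl)
  have kill2 : ∀ u r l, b < u → (u, r) ∈ S.E → (u, l) ∈ S.E → cyc u r l → r ≠ 0 := by
    intro u r l h1 er el c h
    subst h
    have h3 := nb u l (Or.inl el) (by omega)
    exact S.L1 eb P.1.1.symm el (Or.inl er) (by unfold cyc at *; omega)
      (by unfold cyc at *; omega) (by unfold cyc at *; omega) c (Or.inl rfl)
      (by unfold cyc at *; omega)
  have both : 1 < a ∧ b < n - 1 := by
    have ex : ∃ v, v < n ∧ v ≠ 0 ∧ v ≠ a ∧ v ≠ b := by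
      by_cases h1 : 1 ≠ a ∧ 1 ≠ b
      · exact ⟨1, by omega, by omega, h1.1, h1.2⟩
      by_cases h2 : 2 ≠ a ∧ 2 ≠ b
      · exact ⟨2, by omega, by omega, h2.1, h2.2⟩
      exact ⟨3, by omega, by omega, by omega, by omega⟩
    obtain ⟨v, h1, h2, h3, h4⟩ := ex
    obtain ⟨r, l, er, el, c⟩ := full v h1 h2 h3 h4
    have g1 := nb v r (Or.inl er) h2
    have g2 := nb v l (Or.inl el) h2
    have g3 := fun h => kill1 v r l (by omega) h er el c
    have g4 := fun h => kill2 v r l h er el c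
    have g5 := (S.lt _ el).2
    simp only at g5
    unfold cyc at c
    omega
  obtain ⟨ru, lu, e1, e2, c1⟩ := full (n - 1) (by omega) (by omega) (by omega) (by omega)
  obtain ⟨rp, lp, e3, e4, c2⟩ := full 1 (by omega) (by omega) (by omega) (by omega)
  have g1 := nb _ _ (Or.inl e1) (by omega)
  have g2 := nb _ _ (Or.inl e2) (by omega)
  have g3 := nb _ _ (Or.inl e3) (by omega)
  have g4 := nb _ _ (Or.inl e4) (by omega)
  have g5 := kill1 1 rp lp (by omega) both.1 e3 e4 c2
  have g6 := kill2 (n - 1) ru lu both.2 e1 e2 c1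
  have g7 := (S.lt _ e4).2
  simp only at g7
  exact S.N e0 e1 (Or.inl e2) e4 (Or.inl e3) (by unfold cyc at *; omega) c1 c2
    (by unfold cyc at *; omega) (by unfold cyc at *; omega) (by unfold cyc at *; omega)

lemma notM3 (hn : 7 ≤ n) (h0 : (∃ s, (s, s) ∈ S.E) → (0, 0) ∈ S.E) : ¬ S.M3 := by
  intro m
  by_cases hl : ∃ s, (s, s) ∈ S.E
  swap
  · push Not at hl
    exact S.caseC (by omega) m hl
  have e0 := h0 hl
  by_cases hk : ∃ k, (k, k) ∈ S.E ∧ k ≠ 0
  swap
  · push Not at hk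
    exact S.caseB (by omega) m e0 hk
  obtain ⟨k, ek, k0⟩ := hk
  have m0 := S.loop_miss e0
  have mk := S.loop_miss ek
  have slots : ∀ v c, S.miss v c → (v = 0 ∨ v = k) ∧ c = true := by
    intro v c h
    have := m _ _ _ _ _ _ h m0 mk
    have k0' : 0 ≠ k := k0.symm
    rcases this with h | h | h <;> simp_all
  have loops : ∀ s, (s, s) ∈ S.E → s = 0 ∨ s = k := fun s h => (slots _ _ (S.loop_miss h)).1
  refine caseA hn S k e0 ek (by omega) ?_ ?_
  · intro v h1 h2 h3
    obtain ⟨r, l, er, el, c, _, _⟩ := S.two_of h1 (fun h => by have := (slots _ _ h).1; omega)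
      (fun h => by have := (slots _ _ h).1; omega) (fun h => by have := loops _ h; omega)
    exact ⟨r, l, er, el, c⟩
  · intro i j hij a
    rcases S.Z a (by omega) with ⟨s, h, g⟩ | ⟨x, y, P, _⟩
    · have := loops s h
      unfold arc cyc at g
      omega
    · exfalso
      rcases S.pocket_miss P with h | h
      · rcases (slots _ _ h).1 with rfl | rfl
        · exact P.2.2.1 e0
        · exact P.2.2.1 ek
      · simpa using (slots _ _ h).2

theorem upper7 (hn : 7 ≤ n) (h0 : (∃ s, (s, s) ∈ S.E) → (0, 0) ∈ S.E) :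
    S.E.card + 3 ≤ 2 * n := by
  have h := S.notM3 hn h0
  unfold M3 at h
  push Not at h
  obtain ⟨v, b, w, c, x, d, h1, h2, h3, n1, n2, n3⟩ := h
  have := S.card_le {(v, b), (w, c), (x, d)} (by
    intro y hy
    simp only [Finset.mem_insert, Finset.mem_singleton] at hy
    rcases hy with rfl | rfl | rfl <;> assumption)
  rwa [Finset.card_eq_three.2 ⟨(v, b), (w, c), (x, d), by simpa using n1, by simpa using n2,
    by simpa using n3, rfl⟩] at this

theorem upper2 (hn : 2 ≤ n) (h0 : (∃ s, (s, s) ∈ S.E) → (0, 0) ∈ S.E) :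
    S.E.card + 2 ≤ 2 * n := by
  have h : ∃ v b w c, S.miss v b ∧ S.miss w c ∧ (v = w → b ≠ c) := by
    by_contra hh
    push Not at hh
    by_cases hl : ∃ s, (s, s) ∈ S.E
    · have e0 := h0 hl
      have m0 := S.loop_miss e0
      have loops : ∀ s, (s, s) ∈ S.E → s = 0 := fun s h => (hh _ _ _ _ (S.loop_miss h) m0).1
      obtain ⟨r, l, er, el, c, _, _⟩ := S.two_of (show 1 < n by omega)
        (fun h => by have := (hh _ _ _ _ h m0).1; omega)
        (fun h => by have := (hh _ _ _ _ h m0).1; omega) (fun h => by have := loops _ h; omega)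
      rcases S.Z (Or.inl er) (by unfold cyc at c; omega) with ⟨s, h, g⟩ | ⟨x, y, P, _⟩
      · have := loops s h
        unfold arc cyc at *
        omega
      · rcases S.pocket_miss P with h | h
        · have := (hh _ _ _ _ h m0).1
          subst this
          exact P.2.2.1 e0
        · simpa using (hh _ _ _ _ h m0).2
    · push Not at hl
      have ex : ∃ i j, S.adj i j ∧ i ≠ j := by
        by_cases h1 : S.miss 0 true
        · by_cases h2 : S.miss 0 false
          · simpa using (hh _ _ _ _ h1 h2).2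
          · obtain ⟨t, e, f, _⟩ := S.fillF (by omega) h2 (hl _)
            exact ⟨_, _, f.1, f.2.1⟩
        · obtain ⟨t, e, f⟩ := S.fillT (by omega) h1
          exact ⟨_, _, f.1, f.2.1⟩
      obtain ⟨i, j, a, hne⟩ := ex
      obtain ⟨a1, b1, a2, b2, P1, P2, na, nb⟩ := S.two_pockets hl a hne
      rcases S.pocket_miss P1 with h1 | h1 <;> rcases S.pocket_miss P2 with h2 | h2 <;>
        have := hh _ _ _ _ h1 h2 <;> simp_all
  obtain ⟨v, b, w, c, h1, h2, n1⟩ := h
  have := S.card_le {(v, b), (w, c)} (by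
    intro y hy
    simp only [Finset.mem_insert, Finset.mem_singleton] at hy
    rcases hy with rfl | rfl <;> assumption)
  rwa [Finset.card_pair (by simpa using n1)] at this

end Sys

end Pool.Agent.MP_3fce03_co
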